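import Mathlib

/-! The statement. -/

namespace Pool.Agent.Helper87_ND

/-- The set `T` of vertices is shattered by the colouring `c`: there are two colours `f0 t ≠ f1 t` for
every `t` in `T` such that for every subset `U` of `T` some vertex `x` outside `T` is joined to `t` in
colour `f1 t` for `t` in `U` and in colour `f0 t` for `t` in `T` outside `U`. -/
def Shattered {n k : ℕ} (c : Fin n → Fin n → Fin k) (T : Finset (Fin n)) : Prop :=
  ∃ f0 f1 : Fin n → Fin k, (∀ t ∈ T, f0 t ≠ f1 t) ∧
    ∀ U ⊆ T, ∃ x, x ∉ T ∧ ∀ t ∈ T, c x t = if t ∈ U then f1 t else f0 t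

/-- The Natarajan dimension of the colouring `c` is at most `d`: no shattered set has more than `d`
vertices. -/
def DimLE {n k : ℕ} (c : Fin n → Fin n → Fin k) (d : ℕ) : Prop :=
  ∀ T : Finset (Fin n), Shattered c T → T.card ≤ d

/-- Every `k`-edge-colouring of the complete graph on `n` vertices (a symmetric function `c`; its
values on the diagonal play no role) of Natarajan dimension at most `d` contains `p` vertices whose
edges receive at most `p - 2` distinct colours. -/
def ForcesDim (d p k n : ℕ) : Prop :=
  ∀ c : Fin n → Fin n → Fin k, (∀ x y, c x y = c y x) → DimLE c d →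
    ∃ S : Finset (Fin n), S.card = p ∧ (S.offDiag.image (fun e => c e.1 e.2)).card ≤ p - 2

end Pool.Agent.Helper87_ND
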