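import Mathlib
import Pool.Agent.Helper73_EG.Final
import Pool.Agent.Helper87_ND.Defs

/-! The window colouring has small dimension. -/

namespace Pool.Agent.Helper87_ND

open Finset Pool.Agent.Helper73_EG

theorem col_pair {t r N i : ℕ} {x x0 s : ℕ → ℕ} (hi : i < N) (h : col t r N x s = col t r N x0 s)
    (h0 : x0 i ≠ s i) (hl : lv t r i x0 s ≠ 0) : x i = x0 i := by
  have hx : x i ≠ s i := by
    intro hh
    rw [← col_none_iff (t := t) (r := r) hi, h, col_none_iff hi] at hh
    exact h0 hh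
  have h1 := congrFun h i
  unfold col info at h1
  rw [if_pos hi, if_pos hi, if_neg hx, if_neg h0, if_neg hl] at h1
  by_cases h2 : lv t r i x s = 0
  · rw [if_pos h2] at h1
    simp at h1
  rw [if_neg h2] at h1
  simp only [Option.some.injEq, Prod.mk.injEq] at h1
  have h3 : x i ∈ ({x0 i, s i} : Finset ℕ) := by
    rw [← h1.1]; exact mem_insert_self _ _
  rw [mem_insert, mem_singleton] at h3
  exact h3.resolve_right hx

theorem col_diff {t r N : ℕ} {x0 x1 s : ℕ → ℕ} (hx : ∀ i, N ≤ i → x0 i = s i ∧ x1 i = s i)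
    (h : col t r N x0 s ≠ col t r N x1 s) (he : ∀ i < N, x0 i = s i ↔ x1 i = s i) :
    ∃ i < N, x0 i ≠ x1 i ∧ x0 i ≠ s i ∧ x1 i ≠ s i ∧ lv t r i x0 s ≠ 0 ∧ lv t r i x1 s ≠ 0 := by
  by_contra hcon
  push Not at hcon
  apply h
  have hD : ∀ i, x0 i = s i ↔ x1 i = s i := by
    intro i
    rcases Nat.lt_or_ge i N with hi | hi
    · exact he i hi
    · exact ⟨fun _ => (hx i hi).2, fun _ => (hx i hi).1⟩
  have hag : ∀ j i, ag t j i x0 s ↔ ag t j i x1 s := by
    intro j i
    unfold ag
    constructor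
    · intro h1 k hk hk'; rw [← hD]; exact h1 k hk hk'
    · intro h1 k hk hk'; rw [hD]; exact h1 k hk hk'
  have hlv : ∀ i, lv t r i x0 s = lv t r i x1 s := by
    intro i
    apply le_antisymm
    · rw [← ag_iff (lv_le _ _ _ _ _), ← hag, ag_iff (lv_le _ _ _ _ _)]
    · rw [← ag_iff (lv_le _ _ _ _ _), hag, ag_iff (lv_le _ _ _ _ _)]
  have hwin : ∀ x i, lv t r i x s ≠ 0 → win t (lv t r i x s - 1) i x = win t (lv t r i x s - 1) i s := by
    intro x i _
    rw [win_eq_iff, ag_iff (r := r) (by have := lv_le t r i x s; omega)]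
    omega
  funext i
  unfold col
  split_ifs with hi
  · unfold info
    by_cases h0 : x0 i = s i
    · rw [if_pos h0, if_pos ((hD i).1 h0)]
    · have h1 : x1 i ≠ s i := fun h' => h0 ((hD i).2 h')
      rw [if_neg h0, if_neg h1]
      by_cases h2 : lv t r i x0 s = 0
      · rw [if_pos h2, if_pos (by rw [← hlv]; exact h2)]
      · have h3 : lv t r i x1 s ≠ 0 := by rw [← hlv]; exact h2
        have h4 : x0 i = x1 i := by
          by_contra h5
          exact h3 (hcon i hi h5 h0 h1 h2)
        rw [if_neg h2, if_neg h3, h4, hwin x0 i h2, hwin x1 i h3, hlv i]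
  · rfl

/-- **The colouring.** -/
theorem colouring (m t r k n : ℕ) (hm : 1 ≤ m) (ht : 1 ≤ t) (hr : 1 ≤ r)
    (hk : 2 ^ (t ^ r) * ((m * m) ^ (t ^ (r - 1)) * (m ^ (t ^ (r - 1))) ^ r) ≤ k)
    (hn : n ≤ m ^ (t ^ r)) :
    ∃ c : Fin n → Fin n → Fin k, (∀ x y, c x y = c y x) ∧ DimLE c (2 * t ^ r) ∧
      ∀ S : Finset (Fin n), S.card < 2 ^ (r + 2) →
        S.card ≤ (S.offDiag.image (fun e => c e.1 e.2)).card + 1 := by
  classical
  have hm0 : NeZero m := ⟨by omega⟩
  -- vertices as strings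
  obtain ⟨φ⟩ : Nonempty (Fin n ↪ (Fin (t ^ r) → Fin m)) := by
    apply Function.Embedding.nonempty_of_card_le
    simp only [Fintype.card_fin, Fintype.card_pi, Finset.prod_const, card_univ]
    exact hn
  let X : Fin n → ℕ → ℕ := fun v => ext (φ v)
  have hXinj : Function.Injective X := fun v w h => φ.injective (ext_inj h)
  have hXbd : ∀ v, Bd m (t ^ r) (X v) := fun v => ext_bd hm _
  -- the set of colours
  let cc : Fin n → Fin n → (ℕ → Option (Option (Finset ℕ × (ℕ → ℕ)))) := fun v w => col t r (t ^ r) (X v) (X w)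
  let CS : Finset (ℕ → Option (Option (Finset ℕ × (ℕ → ℕ)))) := (univ : Finset (Fin n × Fin n)).image (fun e => cc e.1 e.2)
  have hcode : ∀ e e' : Fin n × Fin n, codeF m t r (X e.1) (X e.2) = codeF m t r (X e'.1) (X e'.2) →
      cc e.1 e.2 = cc e'.1 e'.2 := by
    intro e e' h
    exact col_of_code (m := m) ht hr (hXbd _) (hXbd _) (hXbd _) (hXbd _)
      (code_of_codeF (hXbd _) (hXbd _) (hXbd _) (hXbd _) h)
  have hCS : CS.card ≤ k := by
    refine le_trans ?_ hk
    rw [← card_code m t r, ← card_univ]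
    let KS := (univ : Finset (Fin n × Fin n)).image (fun e => codeF m t r (X e.1) (X e.2))
    have h1 : CS.card ≤ KS.card := by
      refine card_le_card_of_surjOn (fun z => if h : ∃ e : Fin n × Fin n, codeF m t r (X e.1) (X e.2) = z
        then cc h.choose.1 h.choose.2 else (fun _ => none)) ?_
      intro l hl
      simp only [CS, coe_image, coe_univ, Set.image_univ, Set.mem_range] at hl
      obtain ⟨e, rfl⟩ := hl
      have h3 : ∃ e' : Fin n × Fin n, codeF m t r (X e'.1) (X e'.2) = codeF m t r (X e.1) (X e.2) := ⟨e, rfl⟩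
      refine ⟨codeF m t r (X e.1) (X e.2), ?_, ?_⟩
      · rw [mem_coe]; exact mem_image_of_mem _ (mem_univ e)
      · simp only
        rw [dif_pos h3]
        exact hcode _ _ h3.choose_spec
    exact h1.trans (card_le_univ _)
  have hkpos : 0 < k := lt_of_lt_of_le (by positivity) hk
  obtain ⟨f, hf⟩ : ∃ f : (ℕ → Option (Option (Finset ℕ × (ℕ → ℕ)))) → Fin k, Set.InjOn f CS := by
    have h1 : Fintype.card CS ≤ Fintype.card (Fin k) := by simpa using hCS
    obtain ⟨ψ⟩ := Function.Embedding.nonempty_of_card_le h1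
    refine ⟨fun l => if h : l ∈ CS then ψ ⟨l, h⟩ else ⟨0, hkpos⟩, ?_⟩
    intro a ha b hb hab
    simp only [mem_coe] at ha hb
    simp only [dif_pos ha, dif_pos hb] at hab
    exact congrArg Subtype.val (ψ.injective hab)
  have hccCS : ∀ v w, cc v w ∈ CS := fun v w =>
    mem_image_of_mem (fun z : Fin n × Fin n => cc z.1 z.2) (mem_univ (v, w))
  have hfcc : ∀ v w v' w', f (cc v w) = f (cc v' w') → cc v w = cc v' w' := by
    intro v w v' w' h
    exact hf (mem_coe.2 (hccCS v w)) (mem_coe.2 (hccCS v' w')) h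
  refine ⟨fun v w => f (cc v w), fun v w => by simp only [cc]; rw [col_symm], ?_, ?_⟩
  · -- dimension
    intro T hT
    obtain ⟨f0, f1, h01, hU⟩ := hT
    obtain ⟨w0, _⟩ := hU ∅ (empty_subset _)
    have hU' : ∀ U : Finset (Fin n), ∃ x, U ⊆ T → ∀ t ∈ T, f (cc x t) = if t ∈ U then f1 t else f0 t := by
      intro U
      by_cases h : U ⊆ T
      · obtain ⟨x, _, hx⟩ := hU U h
        exact ⟨x, fun _ => hx⟩
      · exact ⟨w0, fun h' => absurd h' h⟩
    choose x hx using hU'
    -- the two extreme vertices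
    have hx0 : ∀ s ∈ T, f (cc (x ∅) s) = f0 s := by
      intro s hs
      have := hx ∅ (empty_subset _) s hs
      simpa using this
    have hx1 : ∀ s ∈ T, f (cc (x T) s) = f1 s := by
      intro s hs
      have := hx T subset_rfl s hs
      simpa [hs] using this
    have hcol0 : ∀ U ⊆ T, ∀ s ∈ T, s ∉ U → cc (x U) s = cc (x ∅) s := by
      intro U hU s hs hsU
      apply hfcc
      rw [hx U hU s hs, if_neg hsU, hx0 s hs]
    have hcol1 : ∀ U ⊆ T, ∀ s ∈ T, s ∈ U → cc (x U) s = cc (x T) s := by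
      intro U hU s hs hsU
      apply hfcc
      rw [hx U hU s hs, if_pos hsU, hx1 s hs]
    have hne : ∀ s ∈ T, cc (x ∅) s ≠ cc (x T) s := by
      intro s hs hh
      apply h01 s hs
      rw [← hx0 s hs, ← hx1 s hs, hh]
    have hkey : ∀ s ∈ T, (∃ i : Fin (t ^ r), ¬ (X (x ∅) i = X s i ↔ X (x T) i = X s i)) ∨
        (∃ i : Fin (t ^ r), X (x ∅) i ≠ X (x T) i ∧ X (x ∅) i ≠ X s i ∧ X (x T) i ≠ X s i ∧
          lv t r i (X (x ∅)) (X s) ≠ 0 ∧ lv t r i (X (x T)) (X s) ≠ 0) := by
      intro s hs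
      by_cases he : ∃ i : Fin (t ^ r), ¬ (X (x ∅) i = X s i ↔ X (x T) i = X s i)
      · exact Or.inl he
      · right
        push Not at he
        obtain ⟨i, hi, h1⟩ := col_diff (t := t) (r := r) (N := t ^ r) (x0 := X (x ∅)) (x1 := X (x T)) (s := X s)
          (fun i hi => ⟨by rw [(hXbd _).2 i hi, (hXbd _).2 i hi], by rw [(hXbd _).2 i hi, (hXbd _).2 i hi]⟩)
          (hne s hs) (fun i hi => he ⟨i, hi⟩)
        exact ⟨⟨i, hi⟩, h1⟩
    have hkey' : ∀ s, ∃ z : Fin (t ^ r) ⊕ Fin (t ^ r), s ∈ T →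
        (∀ i, z = Sum.inl i → ¬ (X (x ∅) i = X s i ↔ X (x T) i = X s i)) ∧
        (∀ i, z = Sum.inr i → X (x ∅) i ≠ X (x T) i ∧ X (x ∅) i ≠ X s i ∧ X (x T) i ≠ X s i ∧
          lv t r i (X (x ∅)) (X s) ≠ 0 ∧ lv t r i (X (x T)) (X s) ≠ 0) := by
      intro s
      by_cases hs : s ∈ T
      · rcases hkey s hs with ⟨i, hi⟩ | ⟨i, hi⟩
        · refine ⟨Sum.inl i, fun _ => ⟨?_, ?_⟩⟩
          · intro j hj; cases hj; exact hi
          · intro j hj; cases hj
        · refine ⟨Sum.inr i, fun _ => ⟨?_, ?_⟩⟩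
          · intro j hj; cases hj
          · intro j hj; cases hj; exact hi
      · have hpos : 0 < t ^ r := by positivity
        exact ⟨Sum.inl ⟨0, hpos⟩, fun h => absurd h hs⟩
    choose z hz using hkey'
    have hinj : Set.InjOn z (T : Set (Fin n)) := by
      intro s hs s' hs' hzz
      rw [mem_coe] at hs hs'
      by_contra hss
      have hs'U : s' ∉ ({s} : Finset (Fin n)) := by rw [mem_singleton]; exact fun h => hss h.symm
      have hsU' : s ∉ ({s'} : Finset (Fin n)) := by rw [mem_singleton]; exact hss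
      have hU1 : ({s} : Finset (Fin n)) ⊆ T := singleton_subset_iff.2 hs
      have hU2 : ({s'} : Finset (Fin n)) ⊆ T := singleton_subset_iff.2 hs'
      obtain ⟨ha, hb⟩ := hz s hs
      obtain ⟨ha', hb'⟩ := hz s' hs'
      -- equality patterns
      have heq0 : ∀ U ⊆ T, ∀ u ∈ T, u ∉ U → ∀ i : Fin (t ^ r), X (x U) i = X u i ↔ X (x ∅) i = X u i := by
        intro U hU u hu huU i
        have h1 := hcol0 U hU u hu huU
        simp only [cc] at h1
        rw [← col_none_iff (t := t) (r := r) i.2, h1, col_none_iff i.2]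
      have heq1 : ∀ U ⊆ T, ∀ u ∈ T, u ∈ U → ∀ i : Fin (t ^ r), X (x U) i = X u i ↔ X (x T) i = X u i := by
        intro U hU u hu huU i
        have h1 := hcol1 U hU u hu huU
        simp only [cc] at h1
        rw [← col_none_iff (t := t) (r := r) i.2, h1, col_none_iff i.2]
      rcases hzs : z s with i | i
      · have h1 := ha i hzs
        have h2 := ha' i (by rw [← hzz, hzs])
        -- the four vertices
        have p1 := heq1 {s} hU1 s hs (mem_singleton_self _) i
        have p2 := heq0 {s} hU1 s' hs' hs'U i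
        have q1 := heq0 {s'} hU2 s hs hsU' i
        have q2 := heq1 {s'} hU2 s' hs' (mem_singleton_self _) i
        generalize X (x ∅) i = a at h1 h2 p1 p2 q1 q2
        generalize X (x T) i = b at h1 h2 p1 p2 q1 q2
        generalize X (x {s}) i = e at h1 h2 p1 p2 q1 q2
        generalize X (x {s'}) i = g at h1 h2 p1 p2 q1 q2
        generalize X s i = u at h1 h2 p1 p2 q1 q2
        generalize X s' i = v at h1 h2 p1 p2 q1 q2
        omega
      · obtain ⟨c1, c2, c3, c4, c5⟩ := hb i hzs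
        obtain ⟨d1, d2, d3, d4, d5⟩ := hb' i (by rw [← hzz, hzs])
        have p1 := col_pair i.2 (hcol1 {s} hU1 s hs (mem_singleton_self _)) c3 c5
        have p2 := col_pair i.2 (hcol0 {s} hU1 s' hs' hs'U) d2 d4
        exact c1 (p2.symm.trans p1)
    have hc := card_le_card_of_injOn z (t := univ) (fun s _ => mem_univ _) hinj
    rw [card_univ, Fintype.card_sum, Fintype.card_fin] at hc
    omega
  · -- goodness
    intro S hS
    have hgood := good_col t r hr (t ^ r) le_rfl (S.image X) (by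
      intro x hx i hi
      rw [mem_image] at hx
      obtain ⟨v, _, rfl⟩ := hx
      exact (hXbd v).2 i hi) (by
      rw [card_image_of_injective _ hXinj]; omega)
    rw [card_image_of_injective _ hXinj] at hgood
    refine hgood.trans (Nat.add_le_add_right ?_ 1)
    have h2 : S.offDiag.image (fun e => f (cc e.1 e.2)) = (S.offDiag.image (fun e => cc e.1 e.2)).image f := by
      rw [image_image]; rfl
    simp only
    rw [h2, card_image_of_injOn]
    · refine card_le_card ?_
      intro l hl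
      rw [mem_labs] at hl
      obtain ⟨x, hx, y, hy, hxy, rfl⟩ := hl
      rw [mem_image] at hx hy
      obtain ⟨v, hv, rfl⟩ := hx
      obtain ⟨w, hw, rfl⟩ := hy
      rw [mem_image]
      refine ⟨(v, w), ?_, rfl⟩
      rw [mem_offDiag]
      exact ⟨hv, hw, fun h => hxy (by simp only at h; rw [h])⟩
    · refine hf.mono ?_
      intro l hl
      rw [mem_coe, mem_image] at hl
      obtain ⟨e, _, rfl⟩ := hl
      rw [mem_coe]
      exact mem_image_of_mem _ (mem_univ e)

end Pool.Agent.Helper87_ND
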