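import Mathlib
import Pool.Agent.Helper87_ND.Lower

/-! The lower bound in bounded dimension. -/

namespace Pool.Agent.Helper87_ND

open Finset

theorem not_forcesDim (m t r d p k n : ℕ) (hm : 1 ≤ m) (ht : 1 ≤ t) (hr : 1 ≤ r) (hp : 2 ≤ p)
    (hp' : p < 2 ^ (r + 2)) (hd : 2 * t ^ r ≤ d)
    (hk : 2 ^ (t ^ r) * ((m * m) ^ (t ^ (r - 1)) * (m ^ (t ^ (r - 1))) ^ r) ≤ k)
    (hF : ForcesDim d p k n) : m ^ (t ^ r) < n := by
  by_contra hn
  push Not at hn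
  obtain ⟨c, hc, hdim, hgood⟩ := colouring m t r k n hm ht hr hk hn
  obtain ⟨S, hSp, hS⟩ := hF c hc (fun T hT => (hdim T hT).trans hd)
  have := hgood S (by omega)
  omega

/-- **The lower bound.** -/
theorem lower (r : ℕ) (hr : 1 ≤ r) (p : ℕ) (hp : 4 ≤ p) (hp' : p < 2 ^ (r + 2)) :
    ∃ c : ℝ, 0 < c ∧ ∃ k0 : ℕ, ∀ k : ℕ, k0 ≤ k → ∀ d : ℕ, 2 ≤ d → (d : ℝ) ≤ Real.log k → ∀ n : ℕ,
      ForcesDim d p k n → Real.exp (c * (d : ℝ) ^ (1 / (r : ℝ)) * Real.log k) ≤ n := by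
  have hr0 : (0 : ℝ) < r := by exact_mod_cast hr
  have hl2 : 0 < Real.log 2 := Real.log_pos (by norm_num)
  have hl2' : Real.log 2 < 1 := by
    have := Real.log_two_lt_d9
    linarith
  refine ⟨1 / (16 * (r + 2)), by positivity, ⌈Real.exp ((2 * (r + 2)) ^ r)⌉₊, ?_⟩
  intro k hk d hd2 hdk n hF
  have hkE : Real.exp ((2 * (r + 2)) ^ r) ≤ k := (Nat.le_ceil _).trans (by exact_mod_cast hk)
  have hkpos : (0 : ℝ) < k := lt_of_lt_of_le (Real.exp_pos _) hkE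
  have hlogk : (2 * ((r : ℝ) + 2)) ^ r ≤ Real.log k := (Real.le_log_iff_exp_le hkpos).2 hkE
  have hlk0 : 0 < Real.log k := lt_of_lt_of_le (by positivity) hlogk
  set x : ℝ := ((d : ℝ) / 2) ^ (1 / (r : ℝ)) with hx
  have hd2R : (2 : ℝ) ≤ d := by exact_mod_cast hd2
  have hx1 : 1 ≤ x := by
    rw [hx]
    exact Real.one_le_rpow (by linarith) (by positivity)
  have hxr : x ^ r = (d : ℝ) / 2 := by
    rw [hx, ← Real.rpow_natCast, ← Real.rpow_mul (by positivity), one_div_mul_cancel hr0.ne', Real.rpow_one]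
  set t := ⌊x⌋₊ with ht
  have ht1 : 1 ≤ t := by
    rw [ht]; exact Nat.le_floor (by exact_mod_cast hx1)
  have ht1R : (1 : ℝ) ≤ t := by exact_mod_cast ht1
  have htx : (t : ℝ) ≤ x := Nat.floor_le (by linarith)
  have htx2 : x / 2 ≤ t := by
    have h1 : x < t + 1 := Nat.lt_floor_add_one x
    linarith
  have htr : (t : ℝ) ^ r ≤ d / 2 := by
    rw [← hxr]; gcongr
  have htd : 2 * t ^ r ≤ d := by
    have : (2 * t ^ r : ℝ) ≤ d := by linarith
    exact_mod_cast this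
  obtain ⟨s, rfl⟩ : ∃ s, r = s + 1 := ⟨r - 1, by omega⟩
  set D : ℝ := 2 * ((s + 1 : ℕ) + 2) * (t : ℝ) ^ s with hD
  have hDpos : 0 < D := by positivity
  have hDk : D ≤ Real.log k := by
    rcases le_or_gt (2 * (((s + 1 : ℕ) : ℝ) + 2)) t with h | h
    · calc D ≤ (t : ℝ) * (t : ℝ) ^ s := by rw [hD]; gcongr
        _ = (t : ℝ) ^ (s + 1) := by rw [pow_succ]; ring
        _ ≤ d / 2 := htr
        _ ≤ Real.log k := by linarith
    · calc D ≤ 2 * ((s + 1 : ℕ) + 2) * (2 * (((s + 1 : ℕ) : ℝ) + 2)) ^ s := by rw [hD]; gcongr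
        _ = (2 * (((s + 1 : ℕ) : ℝ) + 2)) ^ (s + 1) := by rw [pow_succ]; ring
        _ ≤ Real.log k := hlogk
  set μ := ⌊Real.log k / (D * Real.log 2)⌋₊ with hμ
  have hy1 : 1 ≤ Real.log k / (D * Real.log 2) := by
    rw [le_div_iff₀ (by positivity)]
    calc 1 * (D * Real.log 2) ≤ D * 1 := by rw [one_mul]; gcongr
      _ ≤ Real.log k := by rw [mul_one]; exact hDk
  have hμle : (μ : ℝ) ≤ Real.log k / (D * Real.log 2) := Nat.floor_le (by positivity)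
  have hμge : Real.log k / (D * Real.log 2) / 2 ≤ μ := by
    have h1 : Real.log k / (D * Real.log 2) < μ + 1 := Nat.lt_floor_add_one _
    have h2 : (1 : ℝ) ≤ μ := by
      have : 1 ≤ μ := Nat.le_floor (by exact_mod_cast hy1)
      exact_mod_cast this
    linarith
  have hμ2 : (μ : ℝ) * (D * Real.log 2) ≤ Real.log k := by
    rwa [le_div_iff₀ (by positivity)] at hμle
  have hkk : 2 ^ (t ^ (s + 1)) * (((2 ^ μ) * (2 ^ μ)) ^ (t ^ (s + 1 - 1)) * ((2 ^ μ) ^ (t ^ (s + 1 - 1))) ^ (s + 1)) ≤ k := by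
    have h0 : 2 ^ (t ^ (s + 1)) * (((2 ^ μ) * (2 ^ μ)) ^ (t ^ (s + 1 - 1)) * ((2 ^ μ) ^ (t ^ (s + 1 - 1))) ^ (s + 1)) =
        2 ^ (t ^ (s + 1) + (s + 3) * μ * t ^ s) := by
      rw [Nat.add_sub_cancel, ← pow_add, ← pow_mul, ← pow_mul, ← pow_mul, ← pow_add, ← pow_add]
      congr 1
      ring
    rw [h0]
    have h1 : Real.log ((2 ^ (t ^ (s + 1) + (s + 3) * μ * t ^ s) : ℕ) : ℝ) ≤ Real.log k := by
      push_cast
      rw [Real.log_pow]
      push_cast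
      have h2 : ((t : ℝ) ^ (s + 1)) * Real.log 2 ≤ Real.log k / 2 := by
        calc ((t : ℝ) ^ (s + 1)) * Real.log 2 ≤ (d / 2) * 1 := by gcongr
          _ ≤ Real.log k / 2 := by linarith
      have h3 : ((s : ℝ) + 3) * μ * (t : ℝ) ^ s * Real.log 2 ≤ Real.log k / 2 := by
        have : ((s : ℝ) + 3) * μ * (t : ℝ) ^ s * Real.log 2 = (μ : ℝ) * (D * Real.log 2) / 2 := by
          rw [hD]; push_cast; ring
        rw [this]
        linarith
      calc ((t : ℝ) ^ (s + 1) + (s + 3) * μ * (t : ℝ) ^ s) * Real.log 2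
          = (t : ℝ) ^ (s + 1) * Real.log 2 + (s + 3) * μ * (t : ℝ) ^ s * Real.log 2 := by ring
        _ ≤ Real.log k / 2 + Real.log k / 2 := add_le_add h2 h3
        _ = Real.log k := by ring
    rw [Real.log_le_log_iff (by positivity) hkpos] at h1
    exact_mod_cast h1
  have hlt := not_forcesDim (2 ^ μ) t (s + 1) d p k n Nat.one_le_two_pow ht1 hr (by omega) hp' htd hkk hF
  have hnpos : (0 : ℝ) < n := by exact_mod_cast (lt_of_le_of_lt (Nat.zero_le _) hlt)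
  rw [← Real.le_log_iff_exp_le hnpos]
  have h5 : (μ : ℝ) * (t : ℝ) ^ (s + 1) * Real.log 2 ≤ Real.log n := by
    have h6 : (((2 ^ μ) ^ (t ^ (s + 1)) : ℕ) : ℝ) ≤ n := by exact_mod_cast hlt.le
    calc (μ : ℝ) * (t : ℝ) ^ (s + 1) * Real.log 2 = Real.log (((2 ^ μ) ^ (t ^ (s + 1)) : ℕ) : ℝ) := by
          push_cast
          rw [Real.log_pow, Real.log_pow]
          push_cast
          ring
      _ ≤ Real.log n := Real.log_le_log (by positivity) h6
  refine le_trans ?_ h5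
  have h7 : Real.log k * t / (4 * ((s + 1 : ℕ) + 2)) ≤ (μ : ℝ) * (t : ℝ) ^ (s + 1) * Real.log 2 := by
    calc Real.log k * t / (4 * ((s + 1 : ℕ) + 2))
        = (Real.log k / (D * Real.log 2) / 2) * (t : ℝ) ^ (s + 1) * Real.log 2 := by
          rw [hD]
          have : (t : ℝ) ≠ 0 := by linarith
          field_simp
          ring
      _ ≤ (μ : ℝ) * (t : ℝ) ^ (s + 1) * Real.log 2 := by gcongr
  refine le_trans ?_ h7
  have h8 : (d : ℝ) ^ (1 / (((s + 1 : ℕ)) : ℝ)) ≤ 2 * x := by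
    have h9 : (d : ℝ) = 2 * (d / 2) := by ring
    rw [h9, Real.mul_rpow (by norm_num) (by positivity), ← hx]
    have h10 : (2 : ℝ) ^ (1 / (((s + 1 : ℕ)) : ℝ)) ≤ 2 := by
      calc (2 : ℝ) ^ (1 / (((s + 1 : ℕ)) : ℝ)) ≤ (2 : ℝ) ^ (1 : ℝ) := by
            apply Real.rpow_le_rpow_of_exponent_le (by norm_num)
            rw [div_le_one hr0]
            exact_mod_cast hr
        _ = 2 := Real.rpow_one 2
    gcongr
  have h11 : (d : ℝ) ^ (1 / (((s + 1 : ℕ)) : ℝ)) ≤ 4 * t := by linarith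
  calc 1 / (16 * (((s + 1 : ℕ) : ℝ) + 2)) * (d : ℝ) ^ (1 / (((s + 1 : ℕ)) : ℝ)) * Real.log k
      ≤ 1 / (16 * (((s + 1 : ℕ) : ℝ) + 2)) * (4 * t) * Real.log k := by gcongr
    _ = Real.log k * t / (4 * ((s + 1 : ℕ) + 2)) := by
        field_simp
        ring

end Pool.Agent.Helper87_ND
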