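import Mathlib

/-! The Natarajan dimension and the counting lemma. -/

namespace Pool.Agent.Helper87_ND

open Finset

section
variable {V : Type*} [DecidableEq V] {k : ℕ}

/-- `T` is shattered by the set `A` of functions. -/
def NSh (A : Finset (V → Fin k)) (T : Finset V) : Prop :=
  ∃ f0 f1 : V → Fin k, (∀ t ∈ T, f0 t ≠ f1 t) ∧
    ∀ U ⊆ T, ∃ f ∈ A, ∀ t ∈ T, f t = if t ∈ U then f1 t else f0 t

open scoped Classical in
/-- the functions of `A` which restrict to `g` -/
noncomputable def fib (A : Finset (V → Fin k)) (ρ : (V → Fin k) → (V → Fin k)) (g : V → Fin k) : Finset (V → Fin k) :=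
  A.filter (fun f => ρ f = g)

theorem card_le_one_add_pairs (s : Finset (Fin k)) :
    s.card ≤ 1 + ((univ : Finset (Fin k × Fin k)).filter (fun z => z.1 < z.2 ∧ z.1 ∈ s ∧ z.2 ∈ s)).card := by
  rcases s.eq_empty_or_nonempty with rfl | hne
  · simp
  set a := s.min' hne with ha
  have h1 : (s.erase a).card ≤
      ((univ : Finset (Fin k × Fin k)).filter (fun z => z.1 < z.2 ∧ z.1 ∈ s ∧ z.2 ∈ s)).card := by
    apply card_le_card_of_injOn (fun b => (a, b))
    · intro b hb
      rw [mem_coe, mem_erase] at hb
      simp only [coe_filter, mem_univ, true_and, Set.mem_ofPred_eq]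
      exact ⟨lt_of_le_of_ne (s.min'_le b hb.2) (Ne.symm hb.1), s.min'_mem hne, hb.2⟩
    · intro b _ b' _ h
      exact congrArg Prod.snd h
  have h2 : (s.erase a).card = s.card - 1 := card_erase_of_mem (s.min'_mem hne)
  omega

/-- **Natarajan's lemma.** -/
theorem natarajan (S : Finset V) : ∀ (d : ℕ) (A : Finset (V → Fin k)),
    (∀ f ∈ A, ∀ g ∈ A, (∀ s ∈ S, f s = g s) → f = g) →
    (∀ T ⊆ S, NSh A T → T.card ≤ d) → A.card ≤ (1 + k * k * S.card) ^ d := by
  classical
  induction S using Finset.induction_on with
  | empty =>
    intro d A h1 _
    simp only [card_empty, mul_zero, add_zero, one_pow]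
    rw [card_le_one]
    intro f hf g hg
    exact h1 f hf g hg (by simp)
  | insert x S hx ih =>
    intro d A hinj hd
    rcases Nat.eq_zero_or_pos d with rfl | hd0
    · rw [pow_zero, card_le_one]
      intro f hf g hg
      by_contra hne
      have h1 : ¬ ∀ s ∈ insert x S, f s = g s := fun h => hne (hinj f hf g hg h)
      push Not at h1
      obtain ⟨s, hs, hfg⟩ := h1
      have h2 : NSh A {s} := by
        refine ⟨f, g, ?_, ?_⟩
        · intro t ht; rw [mem_singleton] at ht; subst ht; exact hfg
        · intro U hU
          by_cases hsU : s ∈ U
          · refine ⟨g, hg, ?_⟩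
            intro t ht
            rw [mem_singleton] at ht
            subst ht
            rw [if_pos hsU]
          · refine ⟨f, hf, ?_⟩
            intro t ht
            rw [mem_singleton] at ht
            subst ht
            rw [if_neg hsU]
      have h3 := hd {s} (by simpa using hs) h2
      simp at h3
    · rcases A.eq_empty_or_nonempty with rfl | ⟨c0, hc0⟩
      · simp
      set ρ : (V → Fin k) → (V → Fin k) := fun f v => if v ∈ S then f v else c0 v with hρ
      have hρS : ∀ f, ∀ s ∈ S, ρ f s = f s := fun f s hs => by simp only [hρ, if_pos hs]
      set A' := A.image ρ with hA'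
      set P : Finset (Fin k × Fin k) := univ.filter (fun z => z.1 < z.2) with hP
      have hPc : P.card ≤ k * k := by
        refine (card_le_univ _).trans ?_
        simp
      let B : Fin k × Fin k → Finset (V → Fin k) := fun z =>
        A'.filter (fun g => z.1 ∈ (fib A ρ g).image (fun f => f x) ∧ z.2 ∈ (fib A ρ g).image (fun f => f x))
      -- counting
      have hcard : A.card = ∑ g ∈ A', (fib A ρ g).card := card_eq_sum_card_image ρ A
      have hfibinj : ∀ g, ((fib A ρ g).image (fun f => f x)).card = (fib A ρ g).card := by
        intro g
        apply card_image_of_injOn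
        intro f hf f' hf' hff
        rw [mem_coe, fib, mem_filter] at hf hf'
        apply hinj f hf.1 f' hf'.1
        intro s hs
        rw [mem_insert] at hs
        rcases hs with rfl | hs
        · exact hff
        · rw [← hρS f s hs, hf.2, ← hf'.2, hρS f' s hs]
      have hfib : ∀ g ∈ A', (fib A ρ g).card ≤ 1 + (P.filter (fun z => z.1 ∈ (fib A ρ g).image (fun f => f x) ∧
          z.2 ∈ (fib A ρ g).image (fun f => f x))).card := by
        intro g _
        rw [← hfibinj g]
        refine (card_le_one_add_pairs _).trans (Nat.add_le_add_left (card_le_card ?_) 1)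
        intro z hz
        rw [mem_filter] at hz
        rw [mem_filter, hP, mem_filter]
        exact ⟨⟨mem_univ _, hz.2.1⟩, hz.2.2⟩
      have hsum : A.card ≤ A'.card + ∑ z ∈ P, (B z).card := by
        rw [hcard]
        refine (sum_le_sum hfib).trans ?_
        rw [sum_add_distrib, sum_const, smul_eq_mul, mul_one]
        apply Nat.add_le_add_left
        apply le_of_eq
        have := sum_card_bipartiteAbove_eq_sum_card_bipartiteBelow (s := A') (t := P)
          (fun (g : V → Fin k) (z : Fin k × Fin k) => z.1 ∈ (fib A ρ g).image (fun f => f x) ∧
            z.2 ∈ (fib A ρ g).image (fun f => f x))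
        simp only [bipartiteAbove, bipartiteBelow] at this
        exact this
      -- dimension of `A'`
      have hA'inj : ∀ f ∈ A', ∀ g ∈ A', (∀ s ∈ S, f s = g s) → f = g := by
        intro f hf g hg h
        rw [hA', mem_image] at hf hg
        obtain ⟨f, hf, rfl⟩ := hf
        obtain ⟨g, hg, rfl⟩ := hg
        funext v
        by_cases hv : v ∈ S
        · exact h v hv
        · simp only [hρ, if_neg hv]
      have h1 : A'.card ≤ (1 + k * k * S.card) ^ d := by
        apply ih d A' hA'inj
        intro T hT hsh
        apply hd T (hT.trans (subset_insert _ _))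
        obtain ⟨f0, f1, h01, hU⟩ := hsh
        refine ⟨f0, f1, h01, ?_⟩
        intro U hUT
        obtain ⟨g, hg, hgt⟩ := hU U hUT
        rw [hA', mem_image] at hg
        obtain ⟨f, hf, rfl⟩ := hg
        refine ⟨f, hf, ?_⟩
        intro t ht
        rw [← hρS f t (hT ht)]
        exact hgt t ht
      have h2 : ∀ z ∈ P, (B z).card ≤ (1 + k * k * S.card) ^ (d - 1) := by
        intro z hz
        rw [hP, mem_filter] at hz
        apply ih (d - 1) (B z)
        · intro f hf g hg h
          exact hA'inj f (mem_filter.1 hf).1 g (mem_filter.1 hg).1 h
        intro T hT hsh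
        have hxT : x ∉ T := fun h => hx (hT h)
        have h3 : NSh A (insert x T) := by
          obtain ⟨f0, f1, h01, hU⟩ := hsh
          refine ⟨fun v => if v = x then z.1 else f0 v, fun v => if v = x then z.2 else f1 v, ?_, ?_⟩
          · intro t ht
            by_cases htx : t = x
            · simp only [if_pos htx]; exact ne_of_lt hz.2
            · simp only [if_neg htx]
              exact h01 t ((mem_insert.1 ht).resolve_left htx)
          · intro U hUT
            obtain ⟨g, hg, hgt⟩ := hU (U.erase x) (by
              intro u hu
              rw [mem_erase] at hu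
              exact (mem_insert.1 (hUT hu.2)).resolve_left hu.1)
            rw [mem_filter] at hg
            obtain ⟨hgA, hg1, hg2⟩ := hg
            rw [mem_image] at hg1 hg2
            obtain ⟨e1, he1, he1x⟩ := hg1
            obtain ⟨e2, he2, he2x⟩ := hg2
            rw [fib, mem_filter] at he1 he2
            by_cases hxU : x ∈ U
            · refine ⟨e2, he2.1, ?_⟩
              intro t ht
              by_cases htx : t = x
              · subst htx
                rw [if_pos hxU]
                simp only [if_true]
                exact he2x
              · have htT := (mem_insert.1 ht).resolve_left htx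
                have hte : t ∈ U.erase x ↔ t ∈ U := by
                  rw [mem_erase]; exact ⟨fun h => h.2, fun h => ⟨htx, h⟩⟩
                rw [← hρS e2 t (hT htT), he2.2, hgt t htT]
                by_cases htU : t ∈ U
                · simp only [hte, htU, htx, if_true, if_false]
                · simp only [hte, htU, htx, if_false]
            · refine ⟨e1, he1.1, ?_⟩
              intro t ht
              by_cases htx : t = x
              · subst htx
                rw [if_neg hxU]
                simp only [if_true]
                exact he1x
              · have htT := (mem_insert.1 ht).resolve_left htx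
                have hte : t ∈ U.erase x ↔ t ∈ U := by
                  rw [mem_erase]; exact ⟨fun h => h.2, fun h => ⟨htx, h⟩⟩
                rw [← hρS e1 t (hT htT), he1.2, hgt t htT]
                by_cases htU : t ∈ U
                · simp only [hte, htU, htx, if_true, if_false]
                · simp only [hte, htU, htx, if_false]
        have h4 := hd _ (insert_subset_insert x hT) h3
        rw [card_insert_of_notMem hxT] at h4
        omega
      -- conclusion
      have h5 : ∑ z ∈ P, (B z).card ≤ k * k * (1 + k * k * S.card) ^ (d - 1) := by
        refine (sum_le_sum h2).trans ?_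
        rw [sum_const, smul_eq_mul]
        exact Nat.mul_le_mul_right _ hPc
      rw [card_insert_of_notMem hx]
      obtain ⟨e, rfl⟩ : ∃ e, d = e + 1 := ⟨d - 1, by omega⟩
      rw [Nat.add_sub_cancel] at h5
      set b := 1 + k * k * S.card with hb
      have h6 : 1 + k * k * (S.card + 1) = b + k * k := by rw [hb]; ring
      rw [h6]
      calc A.card ≤ b ^ (e + 1) + k * k * b ^ e := hsum.trans (Nat.add_le_add h1 h5)
        _ = (b + k * k) * b ^ e := by rw [pow_succ]; ring
        _ ≤ (b + k * k) * (b + k * k) ^ e := Nat.mul_le_mul_left _ (Nat.pow_le_pow_left (Nat.le_add_right _ _) _)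
        _ = (b + k * k) ^ (e + 1) := by rw [pow_succ]; ring

end

end Pool.Agent.Helper87_ND
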