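import Mathlib
import Pool.Agent.Helper87_ND.Natarajan

/-! Far vertices are separated by few vertices. -/

namespace Pool.Agent.Helper87_ND

open Finset

theorem bern (a : ℕ) : ∀ m : ℕ, a ^ (m + 1) + (m + 1) * a ^ m ≤ (a + 1) ^ (m + 1) := by
  intro m
  induction m with
  | zero => simp
  | succ m ih =>
    calc a ^ (m + 1 + 1) + (m + 1 + 1) * a ^ (m + 1)
        ≤ a ^ (m + 1 + 1) + (m + 1 + 1) * a ^ (m + 1) + (m + 1) * a ^ m := Nat.le_add_right _ _
      _ = (a ^ (m + 1) + (m + 1) * a ^ m) * (a + 1) := by ring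
      _ ≤ (a + 1) ^ (m + 1) * (a + 1) := Nat.mul_le_mul_right _ ih
      _ = (a + 1) ^ (m + 1 + 1) := by rw [pow_succ (a + 1) (m + 1)]

theorem half_pow (E L : ℕ) (hE : 1 ≤ E) : 2 ^ L * (E - 1) ^ (E * L) ≤ E ^ (E * L) := by
  obtain ⟨e, rfl⟩ : ∃ e, E = e + 1 := ⟨E - 1, by omega⟩
  rw [Nat.add_sub_cancel, pow_mul, pow_mul, ← mul_pow]
  apply Nat.pow_le_pow_left
  have h := bern e e
  calc 2 * e ^ (e + 1) = e ^ (e + 1) + e * e ^ e := by rw [pow_succ]; ring
    _ ≤ e ^ (e + 1) + (e + 1) * e ^ e := by gcongr; omega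
    _ ≤ _ := h

section
variable {V β : Type*} [DecidableEq V] {k : ℕ}

open scoped Classical in
/-- greedy separation -/
theorem greedy (P : Finset β) (W : Finset V) (sep : β → V → Prop) (E : ℕ) (hE : 1 ≤ E)
    (h : ∀ p ∈ P, W.card < E * (W.filter (fun z => sep p z)).card) :
    ∀ j : ℕ, ∃ S ⊆ W, S.card ≤ j ∧
      E ^ j * (P.filter (fun p => ∀ z ∈ S, ¬ sep p z)).card ≤ (E - 1) ^ j * P.card := by
  intro j
  induction j with
  | zero =>
    refine ⟨∅, empty_subset _, by simp, ?_⟩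
    simp
  | succ j ih =>
    obtain ⟨S, hSW, hSj, hS⟩ := ih
    set Q := P.filter (fun p => ∀ z ∈ S, ¬ sep p z) with hQ
    rcases Q.eq_empty_or_nonempty with h0 | ⟨q, hq⟩
    · refine ⟨S, hSW, by omega, ?_⟩
      rw [← hQ, h0]
      simp
    · have hWne : W.Nonempty := by
        rw [hQ, mem_filter] at hq
        have h1 := h q hq.1
        have h2 : 0 < (W.filter (fun z => sep q z)).card := by
          by_contra hcon
          have : (W.filter (fun z => sep q z)).card = 0 := by omega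
          rw [this] at h1
          omega
        exact (card_pos.1 h2).mono (filter_subset _ _)
      have hsum : ∑ z ∈ W, (Q.filter (fun p => sep p z)).card = ∑ p ∈ Q, (W.filter (fun z => sep p z)).card := by
        have := sum_card_bipartiteAbove_eq_sum_card_bipartiteBelow (s := Q) (t := W) (fun p z => sep p z)
        simp only [bipartiteAbove, bipartiteBelow] at this
        exact this.symm
      have hle : ∑ _z ∈ W, Q.card ≤ ∑ z ∈ W, E * (Q.filter (fun p => sep p z)).card := by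
        rw [← mul_sum, hsum, mul_sum, sum_const, smul_eq_mul, mul_comm, ← smul_eq_mul, ← sum_const]
        apply sum_le_sum
        intro p hp
        rw [hQ, mem_filter] at hp
        exact (h p hp.1).le
      obtain ⟨z, hz, hzE⟩ := exists_le_of_sum_le hWne hle
      refine ⟨insert z S, insert_subset hz hSW, ?_, ?_⟩
      · exact (card_insert_le _ _).trans (by omega)
      · have h1 : P.filter (fun p => ∀ w ∈ insert z S, ¬ sep p w) = Q.filter (fun p => ¬ sep p z) := by
          ext p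
          simp only [hQ, mem_filter, mem_insert, forall_eq_or_imp]
          tauto
        have h2 : (Q.filter (fun p => sep p z)).card + (Q.filter (fun p => ¬ sep p z)).card = Q.card :=
          card_filter_add_card_filter_not _
        have h3 : E * (Q.filter (fun p => ¬ sep p z)).card ≤ (E - 1) * Q.card := by
          obtain ⟨e, rfl⟩ : ∃ e, E = e + 1 := ⟨E - 1, by omega⟩
          rw [Nat.add_sub_cancel]
          nlinarith
        rw [h1]
        calc E ^ (j + 1) * (Q.filter (fun p => ¬ sep p z)).card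
            = E ^ j * (E * (Q.filter (fun p => ¬ sep p z)).card) := by ring
          _ ≤ E ^ j * ((E - 1) * Q.card) := Nat.mul_le_mul_left _ h3
          _ = (E - 1) * (E ^ j * Q.card) := by ring
          _ ≤ (E - 1) * ((E - 1) ^ j * P.card) := Nat.mul_le_mul_left _ hS
          _ = (E - 1) ^ (j + 1) * P.card := by ring

open scoped Classical in
/-- few tests separate everything -/
theorem greedy' (P : Finset β) (W : Finset V) (sep : β → V → Prop) (E L : ℕ) (hE : 2 ≤ E)
    (h : ∀ p ∈ P, W.card < E * (W.filter (fun z => sep p z)).card) (hL : P.card < 2 ^ L) :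
    ∃ S ⊆ W, S.card ≤ E * L ∧ ∀ p ∈ P, ∃ z ∈ S, sep p z := by
  obtain ⟨S, hSW, hSj, hS⟩ := greedy P W sep E (by omega) h (E * L)
  refine ⟨S, hSW, hSj, ?_⟩
  have h1 := half_pow E L (by omega)
  set u := (P.filter (fun p => ∀ z ∈ S, ¬ sep p z)).card with hu
  have hpos : 0 < (E - 1) ^ (E * L) := by
    apply pow_pos; omega
  have h2 : 2 ^ L * u * (E - 1) ^ (E * L) ≤ P.card * (E - 1) ^ (E * L) := by
    calc 2 ^ L * u * (E - 1) ^ (E * L) = (2 ^ L * (E - 1) ^ (E * L)) * u := by ring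
      _ ≤ E ^ (E * L) * u := Nat.mul_le_mul_right _ h1
      _ ≤ (E - 1) ^ (E * L) * P.card := hS
      _ = _ := by ring
  have h3 : 2 ^ L * u ≤ P.card := Nat.le_of_mul_le_mul_right h2 hpos
  have h4 : u = 0 := by
    by_contra hcon
    have : 2 ^ L * 1 ≤ 2 ^ L * u := Nat.mul_le_mul_left _ (by omega)
    omega
  intro p hp
  by_contra hcon
  push Not at hcon
  rw [hu, card_eq_zero] at h4
  have : p ∈ P.filter (fun p => ∀ z ∈ S, ¬ sep p z) := mem_filter.2 ⟨hp, hcon⟩
  rw [h4] at this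
  simp at this

/-- `T` is shattered inside `W`. -/
def Sh (c : V → V → Fin k) (W T : Finset V) : Prop :=
  T ⊆ W ∧ ∃ f0 f1 : V → Fin k, (∀ t ∈ T, f0 t ≠ f1 t) ∧
    ∀ U ⊆ T, ∃ x ∈ W, x ∉ T ∧ ∀ t ∈ T, c x t = if t ∈ U then f1 t else f0 t

theorem Sh.mono {c : V → V → Fin k} {W W' T : Finset V} (h : Sh c W T) (hW : W ⊆ W') : Sh c W' T := by
  obtain ⟨h1, f0, f1, h2, h3⟩ := h
  refine ⟨h1.trans hW, f0, f1, h2, ?_⟩
  intro U hU
  obtain ⟨x, hx, h4⟩ := h3 U hU
  exact ⟨x, hW hx, h4⟩

/-- the number of patterns -/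
theorem patterns (c : V → V → Fin k) (W A S : Finset V) (d : ℕ) (hA : A ⊆ W) (hS : S ⊆ W)
    (hAS : Disjoint A S) (hdim : ∀ T, Sh c W T → T.card ≤ d)
    (hsep : ∀ x ∈ A, ∀ y ∈ A, x ≠ y → ∃ s ∈ S, c x s ≠ c y s) : A.card ≤ (1 + k * k * S.card) ^ d := by
  classical
  have h1 : (A.image (fun x => c x)).card = A.card := by
    apply card_image_of_injOn
    intro x hx y hy hxy
    by_contra hne
    obtain ⟨s, _, hs⟩ := hsep x hx y hy hne
    exact hs (congrFun hxy s)
  rw [← h1]
  apply natarajan S d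
  · intro f hf g hg h
    rw [mem_image] at hf hg
    obtain ⟨x, hx, rfl⟩ := hf
    obtain ⟨y, hy, rfl⟩ := hg
    by_contra hne
    have hxy : x ≠ y := fun e => hne (by rw [e])
    obtain ⟨s, hs, hsn⟩ := hsep x hx y hy hxy
    exact hsn (h s hs)
  · intro T hT hsh
    apply hdim T
    obtain ⟨f0, f1, h2, h3⟩ := hsh
    refine ⟨hT.trans hS, f0, f1, h2, ?_⟩
    intro U hU
    obtain ⟨f, hf, hft⟩ := h3 U hU
    rw [mem_image] at hf
    obtain ⟨x, hx, rfl⟩ := hf
    exact ⟨x, hA hx, fun hxT => disjoint_left.1 hAS hx (hT hxT), hft⟩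

/-- the vertices on which `x` and `y` differ -/
def dif (c : V → V → Fin k) (W : Finset V) (x y : V) : Finset V :=
  W.filter (fun z => z ≠ x ∧ z ≠ y ∧ c x z ≠ c y z)

/-- **Far sets are small.** -/
theorem far_card (c : V → V → Fin k) (W A : Finset V) (d E L : ℕ) (hE : 2 ≤ E) (hA : A ⊆ W)
    (hdim : ∀ T, Sh c W T → T.card ≤ d) (hL : A.card * A.card < 2 ^ L)
    (hfar : ∀ x ∈ A, ∀ y ∈ A, x ≠ y → W.card < E * (dif c W x y).card) :
    A.card ≤ E * L + (1 + k * k * (E * L)) ^ d := by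
  classical
  obtain ⟨S, hSW, hSc, hS⟩ := greedy' A.offDiag W
    (fun p z => z ≠ p.1 ∧ z ≠ p.2 ∧ c p.1 z ≠ c p.2 z) E L hE (by
      rintro ⟨x, y⟩ hp
      rw [mem_offDiag] at hp
      have := hfar x hp.1 y hp.2.1 hp.2.2
      unfold dif at this
      refine lt_of_lt_of_le this (Nat.mul_le_mul_left _ (card_le_card ?_))
      intro z hz
      simp only [Finset.mem_filter] at hz ⊢
      exact hz) (by
      refine lt_of_le_of_lt ?_ hL
      rw [offDiag_card]
      exact Nat.sub_le _ _)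
  have h1 : (A \ S).card ≤ (1 + k * k * S.card) ^ d := by
    apply patterns c W (A \ S) S d (sdiff_subset.trans hA) hSW sdiff_disjoint hdim
    intro x hx y hy hxy
    rw [mem_sdiff] at hx hy
    obtain ⟨z, hz, _, _, h⟩ := hS (x, y) (mem_offDiag.2 ⟨hx.1, hy.1, hxy⟩)
    exact ⟨z, hz, h⟩
  have h2 : A.card ≤ S.card + (A \ S).card := by
    have : A ⊆ S ∪ (A \ S) := by
      intro x hx
      rw [mem_union, mem_sdiff]
      by_cases h : x ∈ S
      · exact Or.inl h
      · exact Or.inr ⟨hx, h⟩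
    exact (card_le_card this).trans (card_union_le _ _)
  have h3 : (1 + k * k * S.card) ^ d ≤ (1 + k * k * (E * L)) ^ d := by
    apply Nat.pow_le_pow_left
    gcongr
  omega

end

end Pool.Agent.Helper87_ND
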