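import Mathlib
import Pool.Agent.Helper87_ND.Sample

/-! Near pairs and the twin lemma. -/

namespace Pool.Agent.Helper87_ND

open Finset

section
variable {V β : Type*} [DecidableEq V] {k : ℕ}

open scoped Classical in
/-- a digraph with small out-degrees contains a large independent set -/
theorem indep (R : β → β → Prop) (D : ℕ) : ∀ (m : ℕ) (Q : Finset β), Q.card = m →
    (∀ q ∈ Q, (Q.filter (fun q' => q' ≠ q ∧ R q q')).card ≤ D) →
    ∃ I ⊆ Q, Q.card ≤ (2 * D + 1) * I.card ∧ ∀ q ∈ I, ∀ q' ∈ I, q ≠ q' → ¬ R q q' := by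
  intro m
  induction m using Nat.strong_induction_on with
  | _ m ih =>
    intro Q hQm hout
    rcases Q.eq_empty_or_nonempty with rfl | hne
    · exact ⟨∅, subset_rfl, by simp, by simp⟩
    have hsum : ∑ q ∈ Q, (Q.filter (fun q' => q' ≠ q ∧ R q' q)).card =
        ∑ q ∈ Q, (Q.filter (fun q' => q' ≠ q ∧ R q q')).card := by
      have h1 := sum_card_bipartiteAbove_eq_sum_card_bipartiteBelow (s := Q) (t := Q)
        (fun q q' => q' ≠ q ∧ R q q')
      simp only [bipartiteAbove, bipartiteBelow] at h1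
      rw [h1]
      apply sum_congr rfl
      intro q _
      congr 1
      ext q'
      simp only [mem_filter, ne_eq]
      constructor
      · rintro ⟨a, b, e⟩; exact ⟨a, fun h => b h.symm, e⟩
      · rintro ⟨a, b, e⟩; exact ⟨a, fun h => b h.symm, e⟩
    have hle : ∑ q ∈ Q, (Q.filter (fun q' => q' ≠ q ∧ R q' q)).card ≤ ∑ _q ∈ Q, D := by
      rw [hsum]
      exact sum_le_sum hout
    obtain ⟨q, hq, hqin⟩ := exists_le_of_sum_le hne hle
    set N := Q.filter (fun q' => q' ≠ q ∧ (R q q' ∨ R q' q)) with hN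
    have hNc : N.card ≤ 2 * D := by
      have h1 : N ⊆ Q.filter (fun q' => q' ≠ q ∧ R q q') ∪ Q.filter (fun q' => q' ≠ q ∧ R q' q) := by
        intro z hz
        rw [hN, mem_filter] at hz
        rw [mem_union, mem_filter, mem_filter]
        tauto
      have h2 := (card_le_card h1).trans (card_union_le _ _)
      have h3 := hout q hq
      omega
    set Q' := Q.filter (fun q' => q' ≠ q ∧ ¬ (R q q' ∨ R q' q)) with hQ'
    have hQ'Q : Q' ⊆ Q := filter_subset _ _
    have hqQ' : q ∉ Q' := by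
      rw [hQ', mem_filter]; tauto
    have hsplit : Q.card ≤ Q'.card + (N.card + 1) := by
      have h1 : Q ⊆ Q' ∪ insert q N := by
        intro z hz
        rw [mem_union, mem_insert, hQ', hN, mem_filter, mem_filter]
        by_cases h : z = q
        · tauto
        · tauto
      refine (card_le_card h1).trans ((card_union_le _ _).trans ?_)
      exact Nat.add_le_add_left (card_insert_le _ _) _
    have hlt : Q'.card < m := by
      rw [← hQm]
      exact card_lt_card ⟨hQ'Q, fun h => hqQ' (h hq)⟩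
    obtain ⟨I, hIQ, hIc, hI⟩ := ih Q'.card hlt Q' rfl (by
      intro x hx
      refine le_trans (card_le_card ?_) (hout x (hQ'Q hx))
      intro z hz
      simp only [mem_filter] at hz ⊢
      exact ⟨hQ'Q hz.1, hz.2⟩)
    have hqI : q ∉ I := fun h => hqQ' (hIQ h)
    refine ⟨insert q I, insert_subset hq (hIQ.trans hQ'Q), ?_, ?_⟩
    · rw [card_insert_of_notMem hqI]
      calc Q.card ≤ Q'.card + (N.card + 1) := hsplit
        _ ≤ (2 * D + 1) * I.card + (2 * D + 1) := by omega
        _ = (2 * D + 1) * (I.card + 1) := by ring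
    · intro x hx y hy hxy
      rw [mem_insert] at hx hy
      rcases hx with rfl | hx <;> rcases hy with rfl | hy
      · exact absurd rfl hxy
      · have := hIQ hy
        rw [hQ', mem_filter] at this
        tauto
      · have := hIQ hx
        rw [hQ', mem_filter] at this
        tauto
      · exact hI x hx y hy hxy

/-- greedy disjoint near pairs -/
theorem pairs (c : V → V → Fin k) (W : Finset V) (E R : ℕ)
    (hR : ∀ A ⊆ W, (∀ x ∈ A, ∀ y ∈ A, x ≠ y → W.card < E * (dif c W x y).card) → A.card ≤ R) :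
    ∀ j : ℕ, 2 * j + R ≤ W.card + 1 → ∃ Q : Finset (V × V), Q.card = j ∧
      (∀ q ∈ Q, q.1 ∈ W ∧ q.2 ∈ W ∧ q.1 ≠ q.2 ∧ E * (dif c W q.1 q.2).card ≤ W.card) ∧
      ∀ q ∈ Q, ∀ q' ∈ Q, q ≠ q' → q.1 ≠ q'.1 ∧ q.1 ≠ q'.2 ∧ q.2 ≠ q'.1 ∧ q.2 ≠ q'.2 := by
  classical
  intro j
  induction j with
  | zero => intro _; exact ⟨∅, by simp, by simp, by simp⟩
  | succ j ih =>
    intro hj
    obtain ⟨Q, hQc, hQ1, hQ2⟩ := ih (by omega)
    set X := Q.image Prod.fst ∪ Q.image Prod.snd with hX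
    have hXc : X.card ≤ 2 * j := by
      refine (card_union_le _ _).trans ?_
      have h1 : (Q.image Prod.fst).card ≤ Q.card := card_image_le
      have h2 : (Q.image Prod.snd).card ≤ Q.card := card_image_le
      omega
    have hbig : R < (W \ X).card := by
      have := le_card_sdiff X W
      omega
    have hnot : ¬ (∀ x ∈ W \ X, ∀ y ∈ W \ X, x ≠ y → W.card < E * (dif c W x y).card) := by
      intro h
      have := hR (W \ X) sdiff_subset h
      omega
    push Not at hnot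
    obtain ⟨x, hx, y, hy, hxy, hnear⟩ := hnot
    rw [mem_sdiff, hX, mem_union, mem_image, mem_image] at hx hy
    have hxQ : ∀ q ∈ Q, q.1 ≠ x ∧ q.2 ≠ x := fun q hq =>
      ⟨fun h => hx.2 (Or.inl ⟨q, hq, h⟩), fun h => hx.2 (Or.inr ⟨q, hq, h⟩)⟩
    have hyQ : ∀ q ∈ Q, q.1 ≠ y ∧ q.2 ≠ y := fun q hq =>
      ⟨fun h => hy.2 (Or.inl ⟨q, hq, h⟩), fun h => hy.2 (Or.inr ⟨q, hq, h⟩)⟩
    have hnew : (x, y) ∉ Q := fun h => (hxQ _ h).1 rfl
    refine ⟨insert (x, y) Q, ?_, ?_, ?_⟩
    · rw [card_insert_of_notMem hnew, hQc]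
    · intro q hq
      rw [mem_insert] at hq
      rcases hq with rfl | hq
      · exact ⟨hx.1, hy.1, hxy, hnear⟩
      · exact hQ1 q hq
    · intro q hq q' hq' hqq
      rw [mem_insert] at hq hq'
      rcases hq with rfl | hq <;> rcases hq' with rfl | hq'
      · exact absurd rfl hqq
      · exact ⟨(hxQ q' hq').1.symm, (hxQ q' hq').2.symm, (hyQ q' hq').1.symm, (hyQ q' hq').2.symm⟩
      · exact ⟨(hxQ q hq).1, (hyQ q hq).1, (hxQ q hq).2, (hyQ q hq).2⟩
      · exact hQ2 q hq q' hq' hqq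

/-- the majority colour -/
theorem major {Q : Finset β} (f : β → Fin k) (hk : 1 ≤ k) :
    ∃ α : Fin k, Q.card ≤ k * (Q.filter (fun q => f q = α)).card := by
  by_contra hcon
  push Not at hcon
  have h1 : Q.card = ∑ α : Fin k, (Q.filter (fun q => f q = α)).card :=
    card_eq_sum_card_fiberwise (fun _ _ => mem_coe.2 (mem_univ _))
  have h2 : ∑ α : Fin k, k * (Q.filter (fun q => f q = α)).card < ∑ _α : Fin k, Q.card := by
    apply sum_lt_sum_of_nonempty
    · exact ⟨⟨0, hk⟩, mem_univ _⟩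
    · intro α _
      exact hcon α
  rw [← mul_sum, ← h1, sum_const, smul_eq_mul, card_univ, Fintype.card_fin] at h2
  exact lt_irrefl _ h2

/-- **Twins.** If the pairwise far subsets of `W` have at most half of the vertices then there are
`M` disjoint pairs with one inner colour which are twins for each other. -/
theorem twins (c : V → V → Fin k) (hc : ∀ x y, c x y = c y x) (W : Finset V) (M : ℕ) (hM : 1 ≤ M)
    (hk : 1 ≤ k) (hW : 16 * k * M ≤ W.card)
    (hfar : ∀ A ⊆ W, (∀ x ∈ A, ∀ y ∈ A, x ≠ y → W.card < 16 * k * M * (dif c W x y).card) →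
      2 * A.card ≤ W.card) :
    ∃ (I : Finset (V × V)) (α : Fin k), M ≤ I.card ∧
      (∀ q ∈ I, q.1 ∈ W ∧ q.2 ∈ W ∧ q.1 ≠ q.2 ∧ c q.1 q.2 = α) ∧
      ∀ q ∈ I, ∀ q' ∈ I, q ≠ q' →
        (q.1 ≠ q'.1 ∧ q.1 ≠ q'.2 ∧ q.2 ≠ q'.1 ∧ q.2 ≠ q'.2) ∧
        c q.1 q'.2 = c q.1 q'.1 ∧ c q.2 q'.1 = c q.1 q'.1 ∧ c q.2 q'.2 = c q.1 q'.1 := by
  classical
  set w := W.card with hw
  set E := 16 * k * M with hE
  have hkM : 1 ≤ k * M := Nat.mul_pos hk hM
  have hE' : E = 16 * (k * M) := by rw [hE]; ring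
  obtain ⟨Q, hQc, hQ1, hQ2⟩ := pairs c W E (w / 2) (by
    intro A hA h
    have := hfar A hA h
    omega) (w / 4) (by omega)
  obtain ⟨α, hα⟩ := major (Q := Q) (fun q => c q.1 q.2) hk
  set Qα := Q.filter (fun q => c q.1 q.2 = α) with hQα
  let R : V × V → V × V → Prop := fun q q' => c q.1 q'.1 ≠ c q.2 q'.1 ∨ c q.1 q'.2 ≠ c q.2 q'.2
  have hout : ∀ q ∈ Qα, (Qα.filter (fun q' => q' ≠ q ∧ R q q')).card ≤ w / E := by
    intro q hq
    rw [hQα, mem_filter] at hq
    rw [Nat.le_div_iff_mul_le (by omega)]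
    obtain ⟨_, _, _, hnear⟩ := hQ1 q hq.1
    refine le_trans ?_ hnear
    rw [mul_comm]
    apply Nat.mul_le_mul_left
    apply card_le_card_of_injOn (fun q' => if c q.1 q'.1 ≠ c q.2 q'.1 then q'.1 else q'.2)
    · intro q' hq'
      rw [mem_coe, mem_filter, hQα, mem_filter] at hq'
      obtain ⟨⟨hq'Q, _⟩, hne, hR⟩ := hq'
      obtain ⟨h1, h2, _, _⟩ := hQ1 q' hq'Q
      obtain ⟨h3, h4, h5, h6⟩ := hQ2 q hq.1 q' hq'Q (Ne.symm hne)
      rw [mem_coe, dif, mem_filter]
      beta_reduce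
      by_cases h : c q.1 q'.1 ≠ c q.2 q'.1
      · rw [if_pos h]
        exact ⟨h1, Ne.symm h3, Ne.symm h5, h⟩
      · rw [if_neg h]
        exact ⟨h2, Ne.symm h4, Ne.symm h6, hR.resolve_left h⟩
    · intro a ha b hb hab
      rw [mem_coe, mem_filter, hQα, mem_filter] at ha hb
      by_contra hne
      obtain ⟨h3, h4, h5, h6⟩ := hQ2 a ha.1.1 b hb.1.1 hne
      simp only at hab
      split_ifs at hab
      · exact h3 hab
      · exact h4 hab
      · exact h5 hab
      · exact h6 hab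
  obtain ⟨I, hIQ, hIc, hI⟩ := indep R (w / E) Qα.card Qα rfl (fun q hq =>
    le_trans (card_le_card (fun z hz => by simp only [mem_filter] at hz ⊢; exact hz)) (hout q hq))
  refine ⟨I, α, ?_, ?_, ?_⟩
  · by_contra hlt
    push Not at hlt
    have h1 : w / 4 ≤ k * ((2 * (w / E) + 1) * I.card) := by
      rw [← hQc]
      exact hα.trans (Nat.mul_le_mul_left _ hIc)
    have h2 : k * ((2 * (w / E) + 1) * I.card) ≤ (2 * (w / E) + 1) * (k * M) := by
      calc k * ((2 * (w / E) + 1) * I.card) = (2 * (w / E) + 1) * (k * I.card) := by ring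
        _ ≤ (2 * (w / E) + 1) * (k * M) := by gcongr
    have h3 : w / E * E ≤ w := Nat.div_mul_le_self _ _
    rw [hE'] at h3 hW
    have h4 : (2 * (w / E) + 1) * (k * M) = 2 * (w / E * (k * M)) + k * M := by ring
    rw [hE'] at h1 h2 h4
    have h5 : w / (16 * (k * M)) * (16 * (k * M)) = 16 * (w / (16 * (k * M)) * (k * M)) := by ring
    set g := w / (16 * (k * M)) * (k * M) with hg
    rw [h4] at h2
    rw [h5] at h3
    omega
  · intro q hq
    have hqα := hIQ hq
    rw [hQα, mem_filter] at hqα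
    obtain ⟨h1, h2, h3, _⟩ := hQ1 q hqα.1
    exact ⟨h1, h2, h3, hqα.2⟩
  · intro q hq q' hq' hne
    have hqQ : q ∈ Q := (mem_filter.1 (hIQ hq)).1
    have hqQ' : q' ∈ Q := (mem_filter.1 (hIQ hq')).1
    have h1 := hI q hq q' hq' hne
    have h2 := hI q' hq' q hq (Ne.symm hne)
    simp only [R, not_or, not_not, ne_eq] at h1 h2
    refine ⟨hQ2 q hqQ q' hqQ' hne, ?_, h1.1.symm, ?_⟩
    · rw [hc q.1 q'.2, hc q.1 q'.1]
      exact h2.1.symm
    · rw [← h1.2, hc q.1 q'.2, hc q.1 q'.1]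
      exact h2.1.symm

/-- four vertices with two colours -/
theorem four (c : V → V → Fin k) (hc : ∀ x y, c x y = c y x) (W : Finset V)
    (hk : 1 ≤ k) (hW : 16 * k * 2 ≤ W.card)
    (hfar : ∀ A ⊆ W, (∀ x ∈ A, ∀ y ∈ A, x ≠ y → W.card < 16 * k * 2 * (dif c W x y).card) →
      2 * A.card ≤ W.card) :
    ∃ S ⊆ W, S.card = 4 ∧ (S.offDiag.image (fun e => c e.1 e.2)).card ≤ 2 := by
  classical
  obtain ⟨I, α, hI2, hI1, hI⟩ := twins c hc W 2 (by norm_num) hk hW hfar
  obtain ⟨q, hq, q', hq', hne⟩ := one_lt_card.1 (show 1 < I.card by omega)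
  obtain ⟨⟨d1, d2, d3, d4⟩, e1, e2, e3⟩ := hI q hq q' hq' hne
  obtain ⟨a1, a2, a3, a4⟩ := hI1 q hq
  obtain ⟨b1, b2, b3, b4⟩ := hI1 q' hq'
  refine ⟨{q.1, q.2, q'.1, q'.2}, ?_, ?_, ?_⟩
  · intro z hz
    simp only [mem_insert, mem_singleton] at hz
    rcases hz with rfl | rfl | rfl | rfl <;> assumption
  · rw [card_insert_of_notMem, card_insert_of_notMem, card_insert_of_notMem, card_singleton]
    · simpa using b3
    · simp only [mem_insert, mem_singleton, not_or]
      exact ⟨d3, d4⟩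
    · simp only [mem_insert, mem_singleton, not_or]
      exact ⟨a3, d1, d2⟩
  · have hsub : (({q.1, q.2, q'.1, q'.2} : Finset V).offDiag.image (fun e => c e.1 e.2)) ⊆
        {α, c q.1 q'.1} := by
      intro l hl
      rw [mem_image] at hl
      obtain ⟨⟨x, y⟩, hxy, rfl⟩ := hl
      rw [mem_offDiag] at hxy
      obtain ⟨hx, hy, hn⟩ := hxy
      simp only [mem_insert, mem_singleton] at hx hy ⊢
      rcases hx with rfl | rfl | rfl | rfl <;> rcases hy with rfl | rfl | rfl | rfl
      · exact absurd rfl hn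
      · exact Or.inl a4
      · exact Or.inr rfl
      · exact Or.inr e1
      · exact Or.inl (by rw [hc]; exact a4)
      · exact absurd rfl hn
      · exact Or.inr e2
      · exact Or.inr e3
      · exact Or.inr (hc _ _)
      · exact Or.inr (by rw [hc]; exact e2)
      · exact absurd rfl hn
      · exact Or.inl b4
      · exact Or.inr (by rw [hc]; exact e1)
      · exact Or.inr (by rw [hc]; exact e3)
      · exact Or.inl (by rw [hc]; exact b4)
      · exact absurd rfl hn
    exact (card_le_card hsub).trans card_le_two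

end

end Pool.Agent.Helper87_ND
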