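import Mathlib
import Pool.Agent.Helper87_ND.Engine

/-! The numerical condition, and the reduction from `p` to `4`. -/

namespace Pool.Agent.Helper87_ND

open Finset

/-- the numerical estimate -/
theorem numeric (K M d ℓ w : ℕ) (hd : 1 ≤ d) (hdK : d ≤ K) (hw : 2 ^ ℓ ≤ w)
    (hK : 16 * (264 * K ^ 4 * M) ^ (2 * d) ≤ w) : 4 * (66 * K ^ 3 * M * ℓ) ^ d ≤ w := by
  have hw0 : (0 : ℝ) ≤ w := Nat.cast_nonneg _
  have hexp : (ℓ : ℝ) ^ d ≤ (4 * K) ^ d * Real.exp (ℓ / 4) := by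
    have h1 := Real.pow_div_factorial_le_exp ((ℓ : ℝ) / 4) (by positivity) d
    have h2 : (0 : ℝ) < d.factorial := by exact_mod_cast d.factorial_pos
    rw [div_le_iff₀ h2, div_pow, div_le_iff₀ (by positivity)] at h1
    have h3 : (d.factorial : ℝ) ≤ (K : ℝ) ^ d := by
      have h4 : d.factorial ≤ d ^ d := Nat.factorial_le_pow d
      have h5 : d ^ d ≤ K ^ d := Nat.pow_le_pow_left hdK d
      exact_mod_cast h4.trans h5
    calc (ℓ : ℝ) ^ d ≤ Real.exp (ℓ / 4) * d.factorial * 4 ^ d := h1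
      _ ≤ Real.exp (ℓ / 4) * K ^ d * 4 ^ d := by gcongr
      _ = (4 * K) ^ d * Real.exp (ℓ / 4) := by rw [mul_pow]; ring
  have he : Real.exp (ℓ / 4) * Real.exp (ℓ / 4) ≤ w := by
    rw [← Real.exp_add]
    have h1 : (ℓ : ℝ) / 4 + ℓ / 4 = ℓ * (1 / 2) := by ring
    rw [h1, Real.exp_nat_mul]
    have h2 : Real.exp (1 / 2) ≤ 2 := by
      have h3 : Real.exp (1 / 2) * Real.exp (1 / 2) = Real.exp 1 := by
        rw [← Real.exp_add]; norm_num
      have h4 := Real.exp_one_lt_d9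
      by_contra hcon
      push Not at hcon
      nlinarith
    calc Real.exp (1 / 2) ^ ℓ ≤ 2 ^ ℓ := by gcongr
      _ ≤ w := by exact_mod_cast hw
  have hmain : (4 * (66 * K ^ 3 * M * ℓ : ℝ) ^ d) ≤ w := by
    have h1 : (4 * (66 * K ^ 3 * M * ℓ : ℝ) ^ d) ≤ (4 * (264 * K ^ 4 * M : ℝ) ^ d) * Real.exp (ℓ / 4) := by
      calc (4 * (66 * K ^ 3 * M * ℓ : ℝ) ^ d) = 4 * (66 * K ^ 3 * M : ℝ) ^ d * (ℓ : ℝ) ^ d := by
            rw [mul_pow (66 * K ^ 3 * M : ℝ) (ℓ : ℝ)]; ring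
        _ ≤ 4 * (66 * K ^ 3 * M : ℝ) ^ d * ((4 * K) ^ d * Real.exp (ℓ / 4)) := by gcongr
        _ = (4 * (264 * K ^ 4 * M : ℝ) ^ d) * Real.exp (ℓ / 4) := by
            have : (264 * K ^ 4 * M : ℝ) = (66 * K ^ 3 * M) * (4 * K) := by ring
            rw [this, mul_pow (66 * K ^ 3 * M : ℝ) (4 * K : ℝ)]; ring
    have h2 : (4 * (264 * K ^ 4 * M : ℝ) ^ d) * (4 * (264 * K ^ 4 * M : ℝ) ^ d) ≤ w := by
      have : (16 * (264 * K ^ 4 * M : ℝ) ^ (2 * d)) ≤ w := by exact_mod_cast hK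
      calc (4 * (264 * K ^ 4 * M : ℝ) ^ d) * (4 * (264 * K ^ 4 * M : ℝ) ^ d)
          = (16 * (264 * K ^ 4 * M : ℝ) ^ (2 * d)) := by rw [two_mul, pow_add]; ring
        _ ≤ w := this
    refine h1.trans ?_
    set a := (4 * (264 * K ^ 4 * M : ℝ) ^ d) with ha
    set b := Real.exp (ℓ / 4) with hb
    have ha0 : 0 ≤ a := by positivity
    have hb0 : 0 ≤ b := by positivity
    nlinarith [sq_nonneg (a - b)]
  exact_mod_cast hmain

section
variable {V : Type*} [DecidableEq V] {k : ℕ}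

/-- far sets have at most half of the vertices -/
theorem far_half (c : V → V → Fin k) (W : Finset V) (K M d : ℕ) (hk : 1 ≤ k) (hM : 1 ≤ M) (hd : 1 ≤ d)
    (hkK : k ≤ K) (hdK : d ≤ K) (hdim : ∀ T, Sh c W T → T.card ≤ d)
    (hW : 16 * (264 * K ^ 4 * M) ^ (2 * d) ≤ W.card) :
    16 * k * M ≤ W.card ∧
    ∀ A ⊆ W, (∀ x ∈ A, ∀ y ∈ A, x ≠ y → W.card < 16 * k * M * (dif c W x y).card) →
      2 * A.card ≤ W.card := by
  have hKpos : 1 ≤ K := hk.trans hkK
  have hbase : 1 ≤ 264 * K ^ 4 * M := Nat.mul_pos (by positivity) hM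
  have hkM : k * M ≤ 264 * K ^ 4 * M := by
    apply Nat.mul_le_mul_right
    calc k ≤ K := hkK
      _ = K ^ 1 := (pow_one K).symm
      _ ≤ K ^ 4 := Nat.pow_le_pow_right hKpos (by norm_num)
      _ ≤ 264 * K ^ 4 := by omega
  have hpow : 264 * K ^ 4 * M ≤ (264 * K ^ 4 * M) ^ (2 * d) := by
    calc 264 * K ^ 4 * M = (264 * K ^ 4 * M) ^ 1 := (pow_one _).symm
      _ ≤ _ := Nat.pow_le_pow_right hbase (by omega)
  have h16 : 16 * k * M ≤ W.card := by
    calc 16 * k * M = 16 * (k * M) := by ring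
      _ ≤ 16 * (264 * K ^ 4 * M) ^ (2 * d) := Nat.mul_le_mul_left _ (hkM.trans hpow)
      _ ≤ W.card := hW
  refine ⟨h16, ?_⟩
  intro A hA hfar
  by_contra hcon
  push Not at hcon
  set w := W.card with hw
  set ℓ := Nat.log 2 w with hℓ
  have hkM1 : 1 ≤ k * M := Nat.mul_pos hk hM
  have hw16 : 16 ≤ w := by
    have : 16 * k * M = 16 * (k * M) := by ring
    omega
  have hℓ1 : 1 ≤ ℓ := by
    rw [hℓ]
    exact Nat.log_pos (by norm_num) (by omega)
  have h2ℓ : 2 ^ ℓ ≤ w := Nat.pow_log_le_self 2 (by omega)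
  have h2ℓ' : w < 2 ^ (ℓ + 1) := Nat.lt_pow_succ_log_self (by norm_num) w
  have hAw : A.card ≤ w := card_le_card hA
  have hL : A.card * A.card < 2 ^ (2 * (ℓ + 1)) := by
    rw [two_mul, pow_add]
    exact Nat.mul_lt_mul'' (lt_of_le_of_lt hAw h2ℓ') (lt_of_le_of_lt hAw h2ℓ')
  have h1 := far_card c W A d (16 * k * M) (2 * (ℓ + 1)) (by
    have : 16 * k * M = 16 * (k * M) := by ring
    omega) hA hdim hL hfar
  set Y := 16 * k * M * (2 * (ℓ + 1)) with hY
  have h2 : 1 + k * k * Y ≤ 66 * K ^ 3 * M * ℓ := by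
    have e1 : k * k * Y = 32 * (k * k * k * M) * (ℓ + 1) := by rw [hY]; ring
    have e2 : k * k * k * M ≤ K ^ 3 * M := by
      apply Nat.mul_le_mul_right
      calc k * k * k = k ^ 3 := by ring
        _ ≤ K ^ 3 := Nat.pow_le_pow_left hkK 3
    have e3 : 1 ≤ K ^ 3 * M := Nat.mul_pos (by positivity) hM
    have e4 : 66 * K ^ 3 * M * ℓ = 66 * (K ^ 3 * M) * ℓ := by ring
    rw [e1, e4]
    set g := K ^ 3 * M with hg
    calc 1 + 32 * (k * k * k * M) * (ℓ + 1) ≤ 1 + 32 * g * (ℓ + 1) := by gcongr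
      _ ≤ 1 + 32 * g * (2 * ℓ) := by gcongr; omega
      _ ≤ 2 * g * ℓ + 32 * g * (2 * ℓ) := by
          apply Nat.add_le_add_right
          have : 1 ≤ g * ℓ := Nat.mul_pos e3 hℓ1
          nlinarith
      _ = 66 * g * ℓ := by ring
  have h3 : Y ≤ (1 + k * k * Y) ^ d := by
    calc Y ≤ 1 + k * k * Y := by nlinarith [Nat.mul_pos hk hk]
      _ = (1 + k * k * Y) ^ 1 := (pow_one _).symm
      _ ≤ (1 + k * k * Y) ^ d := Nat.pow_le_pow_right (by omega) hd
  have h4 : (1 + k * k * Y) ^ d ≤ (66 * K ^ 3 * M * ℓ) ^ d := Nat.pow_le_pow_left h2 d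
  have h5 := numeric K M d ℓ w hd hdK h2ℓ hW
  omega

/-- the majority neighbourhoods -/
theorem extend (c : V → V → Fin k) (hc : ∀ x y, c x y = c y x) (hk : 2 ≤ k) (P : Finset V → Prop)
    (hP : ∀ W W' : Finset V, W' ⊆ W → P W → P W') (N : ℕ)
    (hN : ∀ W : Finset V, P W → N ≤ W.card →
      ∃ S ⊆ W, S.card = 4 ∧ (S.offDiag.image (fun e => c e.1 e.2)).card ≤ 2) :
    ∀ (j : ℕ) (W : Finset V), P W → k ^ j * (N + 1) ≤ W.card + 1 →
      ∃ S ⊆ W, S.card = 4 + j ∧ (S.offDiag.image (fun e => c e.1 e.2)).card ≤ 2 + j := by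
  intro j
  induction j with
  | zero =>
    intro W hPW hW
    apply hN W hPW
    rw [pow_zero, one_mul] at hW
    omega
  | succ j ih =>
    intro W hPW hW
    have h1 : 2 ≤ k ^ (j + 1) * (N + 1) := by
      calc 2 ≤ k := hk
        _ = k ^ 1 := (pow_one k).symm
        _ ≤ k ^ (j + 1) := Nat.pow_le_pow_right (by omega) (by omega)
        _ = k ^ (j + 1) * 1 := (mul_one _).symm
        _ ≤ k ^ (j + 1) * (N + 1) := Nat.mul_le_mul_left _ (by omega)
    obtain ⟨v, hv⟩ := card_pos.1 (show 0 < W.card by omega)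
    obtain ⟨α, hα⟩ := major (Q := W.erase v) (fun w => c v w) (show 1 ≤ k by omega)
    set W' := (W.erase v).filter (fun w => c v w = α) with hW'
    have hW'W : W' ⊆ W := (filter_subset _ _).trans (erase_subset _ _)
    have hvW' : v ∉ W' := fun h => notMem_erase v W (filter_subset _ _ h)
    rw [card_erase_of_mem hv] at hα
    have h2 : k ^ j * (N + 1) ≤ W'.card + 1 := by
      have h3 : k * (k ^ j * (N + 1)) ≤ k * (W'.card + 1) := by
        calc k * (k ^ j * (N + 1)) = k ^ (j + 1) * (N + 1) := by ring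
          _ ≤ W.card + 1 := hW
          _ ≤ k * W'.card + 2 := by omega
          _ ≤ k * W'.card + k := by omega
          _ = k * (W'.card + 1) := by ring
      exact Nat.le_of_mul_le_mul_left h3 (by omega)
    obtain ⟨S, hSW, hSc, hS⟩ := ih W' (hP W W' hW'W hPW) h2
    have hvS : v ∉ S := fun h => hvW' (hSW h)
    refine ⟨insert v S, insert_subset hv (hSW.trans hW'W), ?_, ?_⟩
    · rw [card_insert_of_notMem hvS, hSc]; omega
    · have hsub : ((insert v S).offDiag.image (fun e => c e.1 e.2)) ⊆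
          insert α (S.offDiag.image (fun e => c e.1 e.2)) := by
        intro l hl
        rw [mem_image] at hl
        obtain ⟨⟨x, y⟩, hxy, rfl⟩ := hl
        rw [mem_offDiag] at hxy
        obtain ⟨hx, hy, hn⟩ := hxy
        simp only [mem_insert] at hx hy
        rw [mem_insert]
        rcases hx with rfl | hx <;> rcases hy with rfl | hy
        · exact absurd rfl hn
        · left
          have := hSW hy
          rw [hW', mem_filter] at this
          exact this.2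
        · left
          have := hSW hx
          rw [hW', mem_filter] at this
          simp only
          rw [hc]
          exact this.2
        · right
          rw [mem_image]
          exact ⟨(x, y), mem_offDiag.2 ⟨hx, hy, hn⟩, rfl⟩
      refine (card_le_card hsub).trans ((card_insert_le _ _).trans ?_)
      omega

end

end Pool.Agent.Helper87_ND
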