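import Mathlib
import Pool.Agent.Helper87_ND.Upper
import Pool.Agent.Helper87_ND.Defs

/-! The upper bound in bounded dimension. -/

namespace Pool.Agent.Helper87_ND

open Finset

theorem shattered_of_sh {n k : ℕ} {c : Fin n → Fin n → Fin k} {W T : Finset (Fin n)} (h : Sh c W T) :
    Shattered c T := by
  obtain ⟨_, f0, f1, h1, h2⟩ := h
  refine ⟨f0, f1, h1, ?_⟩
  intro U hU
  obtain ⟨x, _, hx, h3⟩ := h2 U hU
  exact ⟨x, hx, h3⟩

/-- **The upper bound.** -/
theorem upper (d p k n : ℕ) (hd : 1 ≤ d) (hk : 2 ≤ k) (hp : 4 ≤ p)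
    (hn : (max k d) ^ (33 * d) * k ^ (p - 4) ≤ n) : ForcesDim d p k n := by
  intro c hc hdim
  set K := max k d with hK
  have hkK : k ≤ K := le_max_left _ _
  have hdK : d ≤ K := le_max_right _ _
  have hK2 : 2 ≤ K := hk.trans hkK
  set N := 16 * (264 * K ^ 4 * 2) ^ (2 * d) with hN
  have hN1 : N + 1 ≤ K ^ (33 * d) := by
    have h1 : 264 * K ^ 4 * 2 ≤ K ^ 14 := by
      calc 264 * K ^ 4 * 2 = 528 * K ^ 4 := by ring
        _ ≤ 2 ^ 10 * K ^ 4 := by gcongr; norm_num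
        _ ≤ K ^ 10 * K ^ 4 := by gcongr
        _ = K ^ 14 := by ring
    have h2 : (264 * K ^ 4 * 2) ^ (2 * d) ≤ K ^ (28 * d) := by
      calc (264 * K ^ 4 * 2) ^ (2 * d) ≤ (K ^ 14) ^ (2 * d) := Nat.pow_le_pow_left h1 _
        _ = K ^ (28 * d) := by rw [← pow_mul]; congr 1; ring
    have h3 : 1 ≤ K ^ (28 * d) := Nat.one_le_pow _ _ (by omega)
    calc N + 1 ≤ 16 * K ^ (28 * d) + K ^ (28 * d) := by
          rw [hN]
          exact Nat.add_le_add (Nat.mul_le_mul_left _ h2) h3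
      _ ≤ 2 ^ 5 * K ^ (28 * d) := by omega
      _ ≤ K ^ 5 * K ^ (28 * d) := by gcongr
      _ ≤ K ^ (5 * d) * K ^ (28 * d) := by
          apply Nat.mul_le_mul_right
          exact Nat.pow_le_pow_right (by omega) (by omega)
      _ = K ^ (33 * d) := by rw [← pow_add]; congr 1; ring
  obtain ⟨S, _, hSc, hS⟩ := extend c hc hk (fun W => ∀ T, Sh c W T → T.card ≤ d)
    (fun W W' hW h T hT => h T (hT.mono hW)) N (by
      intro W hW hWN
      obtain ⟨h1, h2⟩ := far_half c W K 2 d (by omega) (by norm_num) hd hkK hdK hW hWN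
      exact four c hc W (by omega) h1 h2) (p - 4) univ
    (fun T hT => hdim T (shattered_of_sh hT)) (by
      rw [card_univ, Fintype.card_fin]
      calc k ^ (p - 4) * (N + 1) ≤ k ^ (p - 4) * K ^ (33 * d) := Nat.mul_le_mul_left _ hN1
        _ = K ^ (33 * d) * k ^ (p - 4) := mul_comm _ _
        _ ≤ n := hn
        _ ≤ n + 1 := Nat.le_succ _)
  refine ⟨S, by omega, ?_⟩
  refine hS.trans ?_
  omega

end Pool.Agent.Helper87_ND
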