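import Mathlib

/-! The statement for colour classes of bounded VC dimension. -/

namespace Pool.Agent.Helper87_ND

/-- The set `T` of vertices is shattered by the colour `i` of the colouring `c`: for every subset `U` of
`T` some vertex outside `T` is joined in colour `i` to the vertices of `U` and to no other vertex of
`T`. -/
def ShatteredBy {n k : ℕ} (c : Fin n → Fin n → Fin k) (i : Fin k) (T : Finset (Fin n)) : Prop :=
  ∀ U ⊆ T, ∃ x, x ∉ T ∧ ∀ t ∈ T, (c x t = i ↔ t ∈ U)

/-- Every colour class of `c` has VC dimension at most `d`. -/
def VCLE {n k : ℕ} (c : Fin n → Fin n → Fin k) (d : ℕ) : Prop :=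
  ∀ (i : Fin k) (T : Finset (Fin n)), ShatteredBy c i T → T.card ≤ d

/-- Every `k`-edge-colouring of the complete graph on `n` vertices (a symmetric function `c`; its
values on the diagonal play no role) whose colour classes have VC dimension at most `d` contains `p`
vertices whose edges receive at most `p - 2` distinct colours. -/
def ForcesVC (d p k n : ℕ) : Prop :=
  ∀ c : Fin n → Fin n → Fin k, (∀ x y, c x y = c y x) → VCLE c d →
    ∃ S : Finset (Fin n), S.card = p ∧ (S.offDiag.image (fun e => c e.1 e.2)).card ≤ p - 2

end Pool.Agent.Helper87_ND
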