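import Mathlib
import Pool.Agent.Helper87_ND.Lower
import Pool.Agent.Helper87_ND.VCDefs

/-! The classes of the window colouring have small VC dimension. -/

namespace Pool.Agent.Helper87_ND

open Finset Pool.Agent.Helper73_EG

/-- the window colouring with colours in `Fin k` -/
theorem base (m t r k n : ℕ) (hm : 1 ≤ m) (ht : 1 ≤ t) (hr : 1 ≤ r)
    (hk : 2 ^ (t ^ r) * ((m * m) ^ (t ^ (r - 1)) * (m ^ (t ^ (r - 1))) ^ r) ≤ k)
    (hn : n ≤ m ^ (t ^ r)) :
    ∃ (c : Fin n → Fin n → Fin k) (X : Fin n → ℕ → ℕ), (∀ x y, c x y = c y x) ∧ Function.Injective X ∧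
      (∀ v, Bd m (t ^ r) (X v)) ∧
      (∀ v w v' w', c v w = c v' w' ↔ col t r (t ^ r) (X v) (X w) = col t r (t ^ r) (X v') (X w')) := by
  classical
  have hm0 : NeZero m := ⟨by omega⟩
  obtain ⟨φ⟩ : Nonempty (Fin n ↪ (Fin (t ^ r) → Fin m)) := by
    apply Function.Embedding.nonempty_of_card_le
    simp only [Fintype.card_fin, Fintype.card_pi, Finset.prod_const, card_univ]
    exact hn
  let X : Fin n → ℕ → ℕ := fun v => ext (φ v)
  have hXinj : Function.Injective X := fun v w h => φ.injective (ext_inj h)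
  have hXbd : ∀ v, Bd m (t ^ r) (X v) := fun v => ext_bd hm _
  let cc : Fin n → Fin n → (ℕ → Option (Option (Finset ℕ × (ℕ → ℕ)))) := fun v w => col t r (t ^ r) (X v) (X w)
  let CS : Finset (ℕ → Option (Option (Finset ℕ × (ℕ → ℕ)))) := (univ : Finset (Fin n × Fin n)).image (fun e => cc e.1 e.2)
  have hcode : ∀ e e' : Fin n × Fin n, codeF m t r (X e.1) (X e.2) = codeF m t r (X e'.1) (X e'.2) →
      cc e.1 e.2 = cc e'.1 e'.2 := by
    intro e e' h
    exact col_of_code (m := m) ht hr (hXbd _) (hXbd _) (hXbd _) (hXbd _)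
      (code_of_codeF (hXbd _) (hXbd _) (hXbd _) (hXbd _) h)
  have hCS : CS.card ≤ k := by
    refine le_trans ?_ hk
    rw [← card_code m t r, ← card_univ]
    let KS := (univ : Finset (Fin n × Fin n)).image (fun e => codeF m t r (X e.1) (X e.2))
    have h1 : CS.card ≤ KS.card := by
      refine card_le_card_of_surjOn (fun z => if h : ∃ e : Fin n × Fin n, codeF m t r (X e.1) (X e.2) = z
        then cc h.choose.1 h.choose.2 else (fun _ => none)) ?_
      intro l hl
      simp only [CS, coe_image, coe_univ, Set.image_univ, Set.mem_range] at hl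
      obtain ⟨e, rfl⟩ := hl
      have h3 : ∃ e' : Fin n × Fin n, codeF m t r (X e'.1) (X e'.2) = codeF m t r (X e.1) (X e.2) := ⟨e, rfl⟩
      refine ⟨codeF m t r (X e.1) (X e.2), ?_, ?_⟩
      · rw [mem_coe]; exact mem_image_of_mem _ (mem_univ e)
      · simp only
        rw [dif_pos h3]
        exact hcode _ _ h3.choose_spec
    exact h1.trans (card_le_univ _)
  have hkpos : 0 < k := lt_of_lt_of_le (by positivity) hk
  obtain ⟨f, hf⟩ : ∃ f : (ℕ → Option (Option (Finset ℕ × (ℕ → ℕ)))) → Fin k, Set.InjOn f CS := by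
    have h1 : Fintype.card CS ≤ Fintype.card (Fin k) := by simpa using hCS
    obtain ⟨ψ⟩ := Function.Embedding.nonempty_of_card_le h1
    refine ⟨fun l => if h : l ∈ CS then ψ ⟨l, h⟩ else ⟨0, hkpos⟩, ?_⟩
    intro a ha b hb hab
    simp only [mem_coe] at ha hb
    simp only [dif_pos ha, dif_pos hb] at hab
    exact congrArg Subtype.val (ψ.injective hab)
  have hccCS : ∀ v w, cc v w ∈ CS := fun v w =>
    mem_image_of_mem (fun z : Fin n × Fin n => cc z.1 z.2) (mem_univ (v, w))
  refine ⟨fun v w => f (cc v w), X, fun v w => by simp only [cc]; rw [col_symm], hXinj, hXbd, ?_⟩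
  intro v w v' w'
  constructor
  · intro h
    exact hf (mem_coe.2 (hccCS v w)) (mem_coe.2 (hccCS v' w')) h
  · intro h
    simp only [cc]
    rw [h]

/-- the window colouring is good -/
theorem base_good (m t r k n : ℕ) (hr : 1 ≤ r) (c : Fin n → Fin n → Fin k)
    (X : Fin n → ℕ → ℕ) (hXinj : Function.Injective X) (hXbd : ∀ v, Bd m (t ^ r) (X v))
    (hcX : ∀ v w v' w', c v w = c v' w' ↔ col t r (t ^ r) (X v) (X w) = col t r (t ^ r) (X v') (X w'))
    (S : Finset (Fin n)) (hS : S.card < 2 ^ (r + 2)) :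
    S.card ≤ (S.offDiag.image (fun e => c e.1 e.2)).card + 1 := by
  classical
  have hgood := good_col t r hr (t ^ r) le_rfl (S.image X) (by
    intro x hx i hi
    rw [mem_image] at hx
    obtain ⟨v, _, rfl⟩ := hx
    exact (hXbd v).2 i hi) (by
    rw [card_image_of_injective _ hXinj]; omega)
  rw [card_image_of_injective _ hXinj] at hgood
  refine hgood.trans (Nat.add_le_add_right ?_ 1)
  refine card_le_card_of_forall_subsingleton
    (fun l l' => ∃ v w, c v w = l' ∧ col t r (t ^ r) (X v) (X w) = l) ?_ ?_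
  · intro l hl
    rw [mem_labs] at hl
    obtain ⟨a, ha, b, hb, hab, rfl⟩ := hl
    rw [mem_image] at ha hb
    obtain ⟨x, hx, rfl⟩ := ha
    obtain ⟨y, hy, rfl⟩ := hb
    have hxy : x ≠ y := fun h => hab (by rw [h])
    refine ⟨c x y, ?_, x, y, rfl, rfl⟩
    rw [mem_image]
    exact ⟨(x, y), mem_offDiag.2 ⟨hx, hy, hxy⟩, rfl⟩
  · intro l' _ l1 hl1 l2 hl2
    obtain ⟨_, x, y, h1, rfl⟩ := hl1
    obtain ⟨_, z, w, h2, rfl⟩ := hl2
    exact (hcX _ _ _ _).1 (h1.trans h2.symm)

/-- equality of colours from equality of patterns and letters -/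
theorem col_eq_of {t r N : ℕ} {x s u : ℕ → ℕ} (hx : ∀ i, N ≤ i → (x i = s i ∧ x i = u i))
    (he : ∀ i < N, x i = s i ↔ x i = u i)
    (hp : ∀ i < N, x i ≠ s i → lv t r i x s ≠ 0 → s i = u i) : col t r N x s = col t r N x u := by
  have hD : ∀ i, x i = s i ↔ x i = u i := by
    intro i
    rcases Nat.lt_or_ge i N with hi | hi
    · exact he i hi
    · exact ⟨fun _ => (hx i hi).2, fun _ => (hx i hi).1⟩
  have hag : ∀ j i, ag t j i x s ↔ ag t j i x u := by
    intro j i
    unfold ag
    constructor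
    · intro h1 k hk hk'; rw [← hD]; exact h1 k hk hk'
    · intro h1 k hk hk'; rw [hD]; exact h1 k hk hk'
  have hlv : ∀ i, lv t r i x s = lv t r i x u := by
    intro i
    apply le_antisymm
    · rw [← ag_iff (lv_le _ _ _ _ _), ← hag, ag_iff (lv_le _ _ _ _ _)]
    · rw [← ag_iff (lv_le _ _ _ _ _), hag, ag_iff (lv_le _ _ _ _ _)]
  funext i
  unfold col
  split_ifs with hi
  · unfold info
    by_cases h0 : x i = s i
    · rw [if_pos h0, if_pos ((hD i).1 h0)]
    · have h1 : x i ≠ u i := fun h' => h0 ((hD i).2 h')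
      rw [if_neg h0, if_neg h1]
      by_cases h2 : lv t r i x s = 0
      · rw [if_pos h2, if_pos (by rw [← hlv]; exact h2)]
      · have h3 : lv t r i x u ≠ 0 := by rw [← hlv]; exact h2
        rw [if_neg h2, if_neg h3, hp i hi h0 h2, hlv i]
  · rfl

/-- **The VC dimension of the classes.** -/
theorem base_vc (m t r k n : ℕ) (c : Fin n → Fin n → Fin k)
    (X : Fin n → ℕ → ℕ) (hXbd : ∀ v, Bd m (t ^ r) (X v))
    (hcX : ∀ v w v' w', c v w = c v' w' ↔ col t r (t ^ r) (X v) (X w) = col t r (t ^ r) (X v') (X w'))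
    (i : Fin k) (T : Finset (Fin n)) (hT : ShatteredBy c i T) :
    2 ^ T.card ≤ (T.card + 1) ^ (t ^ r) + 1 := by
  classical
  obtain ⟨w0, _⟩ := hT ∅ (empty_subset _)
  have hU' : ∀ U : Finset (Fin n), ∃ x, U ⊆ T → ∀ t ∈ T, (c x t = i ↔ t ∈ U) := by
    intro U
    by_cases h : U ⊆ T
    · obtain ⟨x, _, hx⟩ := hT U h
      exact ⟨x, fun _ => hx⟩
    · exact ⟨w0, fun h' => absurd h' h⟩
  choose x hx using hU'
  have hfull : ∀ s ∈ T, c (x T) s = i := fun s hs => (hx T subset_rfl s hs).2 hs
  have hin : ∀ U ⊆ T, ∀ s ∈ U, c (x U) s = i := fun U hU s hs => (hx U hU s (hU hs)).2 hs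
  -- the letters of the elements of `T`
  have hkey : ∀ U ⊆ T, ∀ u ∈ U, ∀ s ∈ T, s ∉ U →
      ∃ j : Fin (t ^ r), X (x U) j ≠ X u j ∧ X (x U) j = X s j := by
    intro U hU u hu s hs hsU
    by_contra hcon
    push Not at hcon
    apply hsU
    rw [← hx U hU s hs]
    have h1 : c (x U) u = i := hin U hU u hu
    rw [← h1, hcX]
    symm
    have hTu : col t r (t ^ r) (X (x T)) (X u) = col t r (t ^ r) (X (x T)) (X s) := by
      rw [← hcX, hfull u (hU hu), hfull s hs]
    have hUT : col t r (t ^ r) (X (x U)) (X u) = col t r (t ^ r) (X (x T)) (X u) := by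
      rw [← hcX, h1, hfull u (hU hu)]
    apply col_eq_of
    · intro j hj
      exact ⟨by rw [(hXbd _).2 j hj, (hXbd _).2 j hj], by rw [(hXbd _).2 j hj, (hXbd _).2 j hj]⟩
    · intro j hj
      constructor
      · intro h2
        have h3 : X (x T) j = X u j := by
          rw [← col_none_iff (t := t) (r := r) hj, ← hUT, col_none_iff hj]; exact h2
        have h4 : X (x T) j = X s j := by
          rw [← col_none_iff (t := t) (r := r) hj, ← hTu, col_none_iff hj]; exact h3
        rw [h2, ← h3, h4]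
      · intro h2
        by_contra h3
        exact hcon ⟨j, hj⟩ h3 h2
    · intro j hj h2 h3
      -- the recorded pair
      have h4 : X (x T) j ≠ X u j := by
        intro h5
        apply h2
        rw [← col_none_iff (t := t) (r := r) hj, hUT, col_none_iff hj]; exact h5
      have h5 : lv t r j (X (x T)) (X u) ≠ 0 := by
        have h6 : ag t 1 j (X (x U)) (X u) := by
          rw [ag_iff (r := r) (by have := lv_le t r j (X (x U)) (X u); omega)]
          omega
        have h7 : ag t 1 j (X (x T)) (X u) := by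
          intro l hl hlj
          have h8 := h6 l hl hlj
          rw [← col_none_iff (t := t) (r := r) (hl.trans hj), ← hUT, col_none_iff (hl.trans hj)]
          exact h8
        rw [ag_iff (r := r) (by have := lv_le t r j (X (x U)) (X u); omega)] at h7
        omega
      have h6 : col t r (t ^ r) (X s) (X (x T)) = col t r (t ^ r) (X u) (X (x T)) := by
        rw [col_symm, ← hTu, col_symm]
      have h7 : lv t r j (X u) (X (x T)) ≠ 0 := by rw [lv_symm]; exact h5
      exact (col_pair hj h6 (Ne.symm h4) h7).symm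
  -- counting
  let G : Finset (Fin n) → (Fin (t ^ r) → Finset (Fin n)) := fun U j => T.filter (fun s => X s j = X (x U) j)
  let P : Fin (t ^ r) → Finset (Finset (Fin n)) := fun j =>
    insert ∅ (T.image (fun s0 => T.filter (fun s => X s j = X s0 j)))
  have hP : ∀ j, (P j).card ≤ T.card + 1 := fun j =>
    (card_insert_le _ _).trans (Nat.add_le_add_right card_image_le 1)
  have hmaps : ∀ U ∈ T.powerset.erase ∅, G U ∈ Fintype.piFinset P := by
    intro U _
    rw [Fintype.mem_piFinset]
    intro j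
    simp only [P, G, mem_insert, mem_image]
    by_cases h : ∃ s0 ∈ T, X s0 j = X (x U) j
    · obtain ⟨s0, hs0, h1⟩ := h
      right
      refine ⟨s0, hs0, ?_⟩
      rw [h1]
    · left
      push Not at h
      rw [filter_eq_empty_iff]
      intro s hs
      exact h s hs
  have hinj : Set.InjOn G (T.powerset.erase ∅ : Finset (Finset (Fin n))) := by
    -- the key inclusion
    have hsub : ∀ U ∈ T.powerset.erase ∅, ∀ U' ∈ T.powerset.erase ∅, G U = G U' → U' ⊆ U := by
      intro U hU U' hU' hG s hsU'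
      rw [mem_erase, mem_powerset] at hU hU'
      by_contra hsU
      obtain ⟨u, hu⟩ := nonempty_iff_ne_empty.2 hU.1
      have hs : s ∈ T := hU'.2 hsU'
      obtain ⟨j, hj1, hj2⟩ := hkey U hU.2 u hu s hs hsU
      -- `s` and `x U'` agree at `j`
      have h1 : s ∈ G U j := by
        simp only [G, mem_filter]
        exact ⟨hs, hj2.symm⟩
      rw [hG] at h1
      simp only [G, mem_filter] at h1
      -- but the pattern of the class says they differ
      have h2 : col t r (t ^ r) (X (x U')) (X s) = col t r (t ^ r) (X (x U)) (X u) := by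
        rw [← hcX, hin U' hU'.2 s hsU', hin U hU.2 u hu]
      have h3 : X (x U') j = X s j ↔ X (x U) j = X u j := by
        rw [← col_none_iff (t := t) (r := r) j.2, h2, col_none_iff j.2]
      exact hj1 (h3.1 h1.2.symm)
    intro U hU U' hU' hG
    rw [mem_coe] at hU hU'
    exact Subset.antisymm (hsub U' hU' U hU hG.symm) (hsub U hU U' hU' hG)
  have hcount := card_le_card_of_injOn G hmaps hinj
  rw [card_erase_of_mem (empty_mem_powerset T), card_powerset, Fintype.card_piFinset] at hcount
  have h1 : ∏ j, (P j).card ≤ (T.card + 1) ^ (t ^ r) := by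
    calc ∏ j, (P j).card ≤ ∏ _j : Fin (t ^ r), (T.card + 1) := prod_le_prod' (fun j _ => hP j)
      _ = (T.card + 1) ^ (t ^ r) := by rw [prod_const, card_univ, Fintype.card_fin]
  omega

end Pool.Agent.Helper87_ND
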