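import Mathlib
import Pool.Agent.Helper87_ND.VCLower
import Pool.Agent.Helper34_VC.Defs

/-! The refined window colouring: every class is a disjoint union of bicliques. -/

namespace Pool.Agent.Helper87_ND

open Finset Pool.Agent.Helper73_EG

/-- the first binary digit in which `a` and `b` differ -/
noncomputable def fbit (a b : ℕ) : ℕ := sInf {i | a.testBit i ≠ b.testBit i}

theorem fbit_spec {a b : ℕ} (h : a ≠ b) :
    a.testBit (fbit a b) ≠ b.testBit (fbit a b) ∧ ∀ i < fbit a b, a.testBit i = b.testBit i := by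
  have hne : ({i | a.testBit i ≠ b.testBit i} : Set ℕ).Nonempty := by
    by_contra hcon
    rw [Set.not_nonempty_iff_eq_empty] at hcon
    apply h
    apply Nat.eq_of_testBit_eq
    intro i
    by_contra hi
    have : i ∈ ({i | a.testBit i ≠ b.testBit i} : Set ℕ) := hi
    rw [hcon] at this
    exact this
  refine ⟨Nat.sInf_mem hne, ?_⟩
  intro i hi
  by_contra hcon
  exact absurd (Nat.sInf_le (show i ∈ ({i | a.testBit i ≠ b.testBit i} : Set ℕ) from hcon)) (not_le.2 hi)

theorem fbit_eq {a b i : ℕ} (h1 : a.testBit i ≠ b.testBit i) (h2 : ∀ j < i, a.testBit j = b.testBit j) :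
    fbit a b = i := by
  have hne : a ≠ b := fun h => h1 (by rw [h])
  obtain ⟨h3, h4⟩ := fbit_spec hne
  rcases lt_trichotomy (fbit a b) i with h | h | h
  · exact absurd (h2 _ h) h3
  · exact h
  · exact absurd (h4 _ h) h1

theorem fbit_lt {a b e : ℕ} (ha : a < 2 ^ e) (hb : b < 2 ^ e) (h : a ≠ b) : fbit a b < e := by
  by_contra hcon
  push Not at hcon
  have h1 := (fbit_spec h).1
  have h2 : 2 ^ e ≤ 2 ^ (fbit a b) := Nat.pow_le_pow_right (by norm_num) hcon
  rw [Nat.testBit_lt_two_pow (ha.trans_le h2), Nat.testBit_lt_two_pow (hb.trans_le h2)] at h1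
  exact h1 rfl

/-- what is recorded at a position for an oriented pair -/
noncomputable def fb (a b : ℕ) : Option (ℕ × Bool) :=
  if a = b then none else some (fbit a b, a.testBit (fbit a b))

theorem fb_none {a b : ℕ} : fb a b = none ↔ a = b := by
  unfold fb
  split_ifs with h <;> simp [h]

/-- completion at one position -/
theorem fb_complete {a b b' a' : ℕ} (h1 : fb a b = fb a b') (h2 : fb a b = fb a' b) :
    fb a' b' = fb a b := by
  by_cases hab : a = b
  · have e1 : a = b' := by rw [← fb_none, ← h1, fb_none]; exact hab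
    have e2 : a' = b := by rw [← fb_none, ← h2, fb_none]; exact hab
    rw [e2, ← hab, ← e1]
  · have hab' : a ≠ b' := fun h => hab (by rw [← fb_none, h1, fb_none]; exact h)
    have ha'b : a' ≠ b := fun h => hab (by rw [← fb_none, h2, fb_none]; exact h)
    unfold fb at h1 h2
    rw [if_neg hab, if_neg hab'] at h1
    rw [if_neg hab, if_neg ha'b] at h2
    simp only [Option.some.injEq, Prod.mk.injEq] at h1 h2
    obtain ⟨r1, r2⟩ := h1
    obtain ⟨r3, r4⟩ := h2
    obtain ⟨s1, s2⟩ := fbit_spec hab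
    obtain ⟨s3, s4⟩ := fbit_spec hab'
    obtain ⟨s5, s6⟩ := fbit_spec ha'b
    rw [← r1] at s3 s4
    rw [← r3] at s5 s6 r4
    set r := fbit a b with hr
    have hne : a'.testBit r ≠ b'.testBit r := by
      rw [← r4]
      exact s3
    have hlow : ∀ i < r, a'.testBit i = b'.testBit i := by
      intro i hi
      rw [s6 i hi, ← s2 i hi, s4 i hi]
    have hfb := fbit_eq hne hlow
    have hneq : a' ≠ b' := fun h => hne (by rw [h])
    unfold fb
    rw [if_neg hab, if_neg hneq, hfb, ← hr, r4]

/-- the first position in which `x` and `y` differ -/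
noncomputable def i0 (x y : ℕ → ℕ) : ℕ := sInf {i | x i ≠ y i}

theorem i0_congr {x y x' y' : ℕ → ℕ} (h : ∀ i, x i = y i ↔ x' i = y' i) : i0 x y = i0 x' y' := by
  unfold i0
  congr 1
  ext i
  simp only [Set.mem_ofPred_eq, ne_eq, h i]

theorem i0_spec {x y : ℕ → ℕ} (h : x ≠ y) : x (i0 x y) ≠ y (i0 x y) ∧ ∀ i < i0 x y, x i = y i := by
  have hne : ({i | x i ≠ y i} : Set ℕ).Nonempty := by
    by_contra hcon
    rw [Set.not_nonempty_iff_eq_empty] at hcon
    apply h
    funext i
    by_contra hi
    have : i ∈ ({i | x i ≠ y i} : Set ℕ) := hi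
    rw [hcon] at this
    exact this
  refine ⟨Nat.sInf_mem hne, ?_⟩
  intro i hi
  by_contra hcon
  exact absurd (Nat.sInf_le (show i ∈ ({i | x i ≠ y i} : Set ℕ) from hcon)) (not_le.2 hi)

/-- the orientation -/
def ori (x y : ℕ → ℕ) : Prop := x (i0 x y) < y (i0 x y)

noncomputable instance (x y : ℕ → ℕ) : Decidable (ori x y) := by unfold ori; infer_instance

theorem i0_symm (x y : ℕ → ℕ) : i0 x y = i0 y x := i0_congr (fun _ => eq_comm)

theorem ori_symm {x y : ℕ → ℕ} (h : x ≠ y) : ori x y ↔ ¬ ori y x := by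
  unfold ori
  rw [i0_symm y x]
  have := (i0_spec h).1
  omega

theorem lv_pat {t r n : ℕ} {x s y u : ℕ → ℕ} (hD : ∀ i, x i = s i ↔ y i = u i) :
    lv t r n x s = lv t r n y u := by
  have hag : ∀ j, ag t j n x s ↔ ag t j n y u := by
    intro j
    unfold ag
    constructor
    · intro h1 k hk hk'; rw [← hD]; exact h1 k hk hk'
    · intro h1 k hk hk'; rw [hD]; exact h1 k hk hk'
  apply le_antisymm
  · rw [← ag_iff (lv_le _ _ _ _ _), ← hag, ag_iff (lv_le _ _ _ _ _)]
  · rw [← ag_iff (lv_le _ _ _ _ _), hag, ag_iff (lv_le _ _ _ _ _)]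

/-- **Completion.** -/
theorem complete {t r N : ℕ} (hr : 1 ≤ r) {x s s' x' : ℕ → ℕ} (hxN : ∀ i, N ≤ i → x i = 0)
    (hsN : ∀ i, N ≤ i → s i = 0) (hs'N : ∀ i, N ≤ i → s' i = 0) (hx'N : ∀ i, N ≤ i → x' i = 0)
    (hxs : x ≠ s)
    (hc1 : col t r N x s = col t r N x s') (hc2 : col t r N x s = col t r N x' s)
    (hb1 : ∀ j, (if ori x s then fb (x j) (s j) else fb (s j) (x j)) =
      (if ori x s' then fb (x j) (s' j) else fb (s' j) (x j)))
    (hb2 : ∀ j, (if ori x s then fb (x j) (s j) else fb (s j) (x j)) =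
      (if ori x' s then fb (x' j) (s j) else fb (s j) (x' j))) :
    x' ≠ s' ∧ col t r N x' s' = col t r N x s ∧
    ∀ j, (if ori x' s' then fb (x' j) (s' j) else fb (s' j) (x' j)) =
      (if ori x s then fb (x j) (s j) else fb (s j) (x j)) := by
  have hpat : ∀ y z y' z' : ℕ → ℕ, (∀ i, N ≤ i → y i = 0) → (∀ i, N ≤ i → z i = 0) →
      (∀ i, N ≤ i → y' i = 0) → (∀ i, N ≤ i → z' i = 0) → col t r N y z = col t r N y' z' →
      ∀ i, y i = z i ↔ y' i = z' i := by
    intro y z y' z' h1 h2 h3 h4 h5 i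
    rcases Nat.lt_or_ge i N with hi | hi
    · rw [← col_none_iff (t := t) (r := r) hi, h5, col_none_iff hi]
    · rw [h1 i hi, h2 i hi, h3 i hi, h4 i hi]
  have P1 := hpat x s x s' hxN hsN hxN hs'N hc1
  have P2 := hpat x s x' s hxN hsN hx'N hsN hc2
  have e1 : i0 x s' = i0 x s := (i0_congr P1).symm
  have e2 : i0 x' s = i0 x s := (i0_congr P2).symm
  obtain ⟨hi1, hi2⟩ := i0_spec hxs
  set i := i0 x s with hi
  have hiN : i < N := by
    by_contra hcon
    push Not at hcon
    exact hi1 (by rw [hxN i hcon, hsN i hcon])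
  -- recorded letters
  have hrec : ∀ j < N, x j ≠ s j → lv t r j x s ≠ 0 → s' j = s j ∧ x' j = x j := by
    intro j hj hne hl
    constructor
    · apply col_pair (t := t) (r := r) (s := x) hj
      · rw [col_symm, ← hc1, col_symm]
      · exact Ne.symm hne
      · rw [lv_symm]; exact hl
    · exact col_pair (t := t) (r := r) (s := s) hj hc2.symm hne hl
  have hlvi : lv t r i x s ≠ 0 := by
    have h6 : ag t r i x s := fun l hl _ => hi2 l hl
    rw [ag_iff le_rfl] at h6
    omega
  obtain ⟨hsi, hxi⟩ := hrec i hiN hi1 hlvi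
  -- bits
  have hkey : (∀ j, fb (x' j) (s' j) = fb (x j) (s j)) ∨ (∀ j, fb (s' j) (x' j) = fb (s j) (x j)) := by
    by_cases ho : ori x s
    · left
      have ho1 : ori x s' := by unfold ori at ho ⊢; rw [e1, hsi]; exact ho
      have ho2 : ori x' s := by unfold ori at ho ⊢; rw [e2, hxi]; exact ho
      intro j
      have h1 := hb1 j
      have h2 := hb2 j
      rw [if_pos ho, if_pos ho1] at h1
      rw [if_pos ho, if_pos ho2] at h2
      exact fb_complete h1 h2
    · right
      have ho1 : ¬ ori x s' := by unfold ori at ho ⊢; rw [e1, hsi]; exact ho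
      have ho2 : ¬ ori x' s := by unfold ori at ho ⊢; rw [e2, hxi]; exact ho
      intro j
      have h1 := hb1 j
      have h2 := hb2 j
      rw [if_neg ho, if_neg ho1] at h1
      rw [if_neg ho, if_neg ho2] at h2
      exact fb_complete h2 h1
  have P3 : ∀ j, x' j = s' j ↔ x j = s j := by
    intro j
    rcases hkey with h | h
    · rw [← fb_none, h j, fb_none]
    · rw [eq_comm, ← fb_none, h j, fb_none, eq_comm]
  have e3 : i0 x' s' = i := (i0_congr P3)
  have hne' : x' ≠ s' := fun h => hi1 ((P3 i).1 (congrFun h i))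
  refine ⟨hne', ?_, ?_⟩
  · rw [hc2]
    symm
    apply col_eq_of
    · intro j hj
      exact ⟨by rw [hx'N j hj, hsN j hj], by rw [hx'N j hj, hs'N j hj]⟩
    · intro j hj
      rw [← P2 j, P3 j]
    · intro j hj hne hl
      have h1 : x j ≠ s j := fun h => hne ((P2 j).1 h)
      have h2 : lv t r j x s ≠ 0 := by rw [lv_pat P2]; exact hl
      exact (hrec j hj h1 h2).1.symm
  · intro j
    by_cases ho : ori x s
    · have ho3 : ori x' s' := by unfold ori at ho ⊢; rw [e3, hsi, hxi]; exact ho
      rw [if_pos ho, if_pos ho3]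
      rcases hkey with h | h
      · exact h j
      · -- both forms hold
        have ho1 : ori x s' := by unfold ori at ho ⊢; rw [e1, hsi]; exact ho
        have ho2 : ori x' s := by unfold ori at ho ⊢; rw [e2, hxi]; exact ho
        have h1 := hb1 j
        have h2 := hb2 j
        rw [if_pos ho, if_pos ho1] at h1
        rw [if_pos ho, if_pos ho2] at h2
        exact fb_complete h1 h2
    · have ho3 : ¬ ori x' s' := by unfold ori at ho ⊢; rw [e3, hsi, hxi]; exact ho
      rw [if_neg ho, if_neg ho3]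
      have ho1 : ¬ ori x s' := by unfold ori at ho ⊢; rw [e1, hsi]; exact ho
      have ho2 : ¬ ori x' s := by unfold ori at ho ⊢; rw [e2, hxi]; exact ho
      have h1 := hb1 j
      have h2 := hb2 j
      rw [if_neg ho, if_neg ho1] at h1
      rw [if_neg ho, if_neg ho2] at h2
      exact fb_complete h2 h1

end Pool.Agent.Helper87_ND
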