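import Mathlib
import Pool.Agent.Helper87_ND.RefCol

/-! The refined window colouring with colours in `Fin k`. -/

namespace Pool.Agent.Helper87_ND

open Finset Pool.Agent.Helper73_EG

/-- **The refined colouring.** -/
theorem refined (b t r k n : ℕ) (hb : 1 ≤ b) (ht : 1 ≤ t) (hr : 1 ≤ r)
    (hk : (2 ^ (t ^ r) * ((2 ^ b * 2 ^ b) ^ (t ^ (r - 1)) * ((2 ^ b) ^ (t ^ (r - 1))) ^ r)) *
      (2 * b + 1) ^ (t ^ r) ≤ k) (hn : n ≤ (2 ^ b) ^ (t ^ r)) :
    ∃ c : Fin n → Fin n → Fin k, (∀ x y, c x y = c y x) ∧ Helper34_VC.ClassVC c 1 ∧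
      ∀ S : Finset (Fin n), S.card < 2 ^ (r + 2) →
        S.card ≤ (S.offDiag.image (fun e => c e.1 e.2)).card + 1 := by
  classical
  set k1 := 2 ^ (t ^ r) * ((2 ^ b * 2 ^ b) ^ (t ^ (r - 1)) * ((2 ^ b) ^ (t ^ (r - 1))) ^ r) with hk1
  have hbz : NeZero b := ⟨by omega⟩
  obtain ⟨c0, X, hc0, hXinj, hXbd, hcX⟩ := base (2 ^ b) t r k1 n Nat.one_le_two_pow ht hr (le_refl k1) hn
  have hX0 : ∀ v i, t ^ r ≤ i → X v i = 0 := fun v i hi => (hXbd v).2 i hi
  let bc : Fin n → Fin n → (Fin (t ^ r) → Option (Fin b × Bool)) := fun v w j =>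
    if X v j = X w j then none
    else some (Fin.ofNat b (fbit (X v j) (X w j)), (X v j).testBit (fbit (X v j) (X w j)))
  let pc : Fin n → Fin n → Fin k1 × (Fin (t ^ r) → Option (Fin b × Bool)) := fun v w =>
    (c0 v w, if ori (X v) (X w) then bc v w else bc w v)
  have hbc : ∀ v w v' w', bc v w = bc v' w' ↔ ∀ j : ℕ, fb (X v j) (X w j) = fb (X v' j) (X w' j) := by
    intro v w v' w'
    constructor
    · intro h j
      rcases Nat.lt_or_ge j (t ^ r) with hj | hj
      · have h1 := congrFun h ⟨j, hj⟩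
        simp only [bc] at h1
        unfold fb
        by_cases e1 : X v j = X w j
        · by_cases e2 : X v' j = X w' j
          · rw [if_pos e1, if_pos e2]
          · rw [if_pos e1, if_neg e2] at h1
            simp at h1
        · by_cases e2 : X v' j = X w' j
          · rw [if_neg e1, if_pos e2] at h1
            simp at h1
          · rw [if_neg e1, if_neg e2] at h1
            simp only [Option.some.injEq, Prod.mk.injEq] at h1
            rw [if_neg e1, if_neg e2]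
            have f1 := fbit_lt ((hXbd v).1 j) ((hXbd w).1 j) e1
            have f2 := fbit_lt ((hXbd v').1 j) ((hXbd w').1 j) e2
            have h2 := congrArg Fin.val h1.1
            simp only [Fin.val_ofNat] at h2
            rw [Nat.mod_eq_of_lt f1, Nat.mod_eq_of_lt f2] at h2
            rw [h1.2, h2]
      · rw [hX0 v j hj, hX0 w j hj, hX0 v' j hj, hX0 w' j hj]
    · intro h
      funext j
      have h1 := h j
      simp only [bc]
      unfold fb at h1
      by_cases e1 : X v j = X w j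
      · by_cases e2 : X v' j = X w' j
        · rw [if_pos e1, if_pos e2]
        · rw [if_pos e1, if_neg e2] at h1
          simp at h1
      · by_cases e2 : X v' j = X w' j
        · rw [if_neg e1, if_pos e2] at h1
          simp at h1
        · rw [if_neg e1, if_neg e2] at h1
          simp only [Option.some.injEq, Prod.mk.injEq] at h1
          rw [if_neg e1, if_neg e2, h1.1]
          rw [h1.1] at h1
          rw [h1.2]
  let fc : Fin n → Fin n → ℕ → Option (ℕ × Bool) := fun v w j =>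
    if ori (X v) (X w) then fb (X v j) (X w j) else fb (X w j) (X v j)
  have hpc : ∀ v w v' w', pc v w = pc v' w' ↔ (col t r (t ^ r) (X v) (X w) = col t r (t ^ r) (X v') (X w') ∧
      ∀ j, fc v w j = fc v' w' j) := by
    intro v w v' w'
    simp only [pc, fc, Prod.mk.injEq]
    rw [hcX]
    apply and_congr_right
    intro _
    by_cases o1 : ori (X v) (X w) <;> by_cases o2 : ori (X v') (X w')
    · rw [if_pos o1, if_pos o2, hbc]
      simp only [if_pos o1, if_pos o2]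
    · rw [if_pos o1, if_neg o2, hbc]
      simp only [if_pos o1, if_neg o2]
    · rw [if_neg o1, if_pos o2, hbc]
      simp only [if_neg o1, if_pos o2]
    · rw [if_neg o1, if_neg o2, hbc]
      simp only [if_neg o1, if_neg o2]
  obtain ⟨ψ⟩ : Nonempty ((Fin k1 × (Fin (t ^ r) → Option (Fin b × Bool))) ↪ Fin k) := by
    apply Function.Embedding.nonempty_of_card_le
    simp only [Fintype.card_prod, Fintype.card_fin, Fintype.card_pi, Fintype.card_option, Fintype.card_bool,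
      Finset.prod_const, card_univ]
    rw [mul_comm b 2]
    exact hk
  have hsymm : ∀ v w, pc v w = pc w v := by
    intro v w
    by_cases hvw : v = w
    · rw [hvw]
    · have hX : X v ≠ X w := fun h => hvw (hXinj h)
      have h1 := ori_symm hX
      simp only [pc]
      rw [hc0 v w]
      by_cases o1 : ori (X v) (X w)
      · rw [if_pos o1, if_neg (h1.1 o1)]
      · have o2 : ori (X w) (X v) := by
          by_contra h2
          exact o1 (h1.2 h2)
        rw [if_neg o1, if_pos o2]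
  refine ⟨fun v w => ψ (pc v w), fun v w => by simp only; rw [hsymm], ?_, ?_⟩
  · -- VC dimension
    have hcomp : ∀ x s s' x' : Fin n, x ≠ s → pc x s = pc x s' → pc x s = pc x' s →
        x' ≠ s' ∧ pc x' s' = pc x s := by
      intro x s s' x' hxs h1 h2
      rw [hpc] at h1 h2
      obtain ⟨g1, g2, g3⟩ := complete (t := t) (r := r) (N := t ^ r) hr (hX0 x) (hX0 s) (hX0 s') (hX0 x')
        (fun h => hxs (hXinj h)) h1.1 h2.1 h1.2 h2.2
      refine ⟨fun h => g1 (by rw [h]), ?_⟩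
      rw [hpc]
      exact ⟨g2, g3⟩
    intro q
    rw [Finset.vcDim]
    apply Finset.sup_le
    intro s hs
    rw [Finset.mem_shatterer] at hs
    by_contra hcon
    push Not at hcon
    obtain ⟨a, ha, a', ha', haa⟩ := one_lt_card.1 hcon
    obtain ⟨u, hu, hus⟩ := hs (Subset.refl s)
    obtain ⟨u', hu', hus'⟩ := hs (show ({a} : Finset (Fin n)) ⊆ s by simpa using ha)
    rw [mem_image] at hu hu'
    obtain ⟨x, _, rfl⟩ := hu
    obtain ⟨x', _, rfl⟩ := hu'
    have m1 : a ∈ Helper34_VC.nbr (fun v w => ψ (pc v w)) q x := by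
      have : a ∈ s ∩ Helper34_VC.nbr (fun v w => ψ (pc v w)) q x := by rw [hus]; exact ha
      exact (mem_inter.1 this).2
    have m2 : a' ∈ Helper34_VC.nbr (fun v w => ψ (pc v w)) q x := by
      have : a' ∈ s ∩ Helper34_VC.nbr (fun v w => ψ (pc v w)) q x := by rw [hus]; exact ha'
      exact (mem_inter.1 this).2
    have m3 : a ∈ Helper34_VC.nbr (fun v w => ψ (pc v w)) q x' := by
      have : a ∈ s ∩ Helper34_VC.nbr (fun v w => ψ (pc v w)) q x' := by rw [hus']; exact mem_singleton_self a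
      exact (mem_inter.1 this).2
    have m4 : a' ∉ Helper34_VC.nbr (fun v w => ψ (pc v w)) q x' := by
      intro h
      have : a' ∈ s ∩ Helper34_VC.nbr (fun v w => ψ (pc v w)) q x' := mem_inter.2 ⟨ha', h⟩
      rw [hus', mem_singleton] at this
      exact haa this.symm
    unfold Helper34_VC.nbr at m1 m2 m3 m4
    rw [mem_filter] at m1 m2 m3
    simp only [mem_univ, true_and] at m1 m2 m3
    have q1 : pc x a = pc x a' := ψ.injective (m1.2.trans m2.2.symm)
    have q2 : pc x a = pc x' a := ψ.injective (m1.2.trans m3.2.symm)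
    obtain ⟨g1, g2⟩ := hcomp x a a' x' (Ne.symm m1.1) q1 q2
    apply m4
    rw [mem_filter]
    refine ⟨mem_univ _, Ne.symm g1, ?_⟩
    show ψ (pc x' a') = q
    rw [g2]
    exact m1.2
  · -- goodness
    intro S hS
    have h1 := base_good (2 ^ b) t r k1 n hr c0 X hXinj hXbd hcX S hS
    have h2 : (S.offDiag.image (fun e => c0 e.1 e.2)).card ≤ (S.offDiag.image (fun e => pc e.1 e.2)).card := by
      have h3 : S.offDiag.image (fun e => c0 e.1 e.2) = (S.offDiag.image (fun e => pc e.1 e.2)).image Prod.fst := by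
        rw [image_image]; rfl
      rw [h3]
      exact card_image_le
    have h4 : (S.offDiag.image (fun e => ψ (pc e.1 e.2))).card = (S.offDiag.image (fun e => pc e.1 e.2)).card := by
      have h3 : S.offDiag.image (fun e => ψ (pc e.1 e.2)) = (S.offDiag.image (fun e => pc e.1 e.2)).image ψ := by
        rw [image_image]; rfl
      rw [h3, card_image_of_injective _ ψ.injective]
    simp only at h4 ⊢
    rw [h4]
    omega

/-- **No polynomial bound for VC dimension one.** -/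
theorem refined_lower (r : ℕ) (hr : 1 ≤ r) (p : ℕ) (hp : 4 ≤ p) (hp' : p < 2 ^ (r + 2)) :
    ∃ c : ℝ, 0 < c ∧ ∃ k0 : ℕ, ∀ k : ℕ, k0 ≤ k → ∀ d : ℕ, 1 ≤ d → ∀ n : ℕ,
      Helper34_VC.ForcesVC d p k n →
        Real.exp (c * (Real.log k) ^ (1 + 1 / (r : ℝ)) / (Real.log (Real.log k)) ^ (1 / (r : ℝ))) ≤ n := by
  have hr0 : (0 : ℝ) < r := by exact_mod_cast hr
  have hr1 : (1 : ℝ) ≤ r := by exact_mod_cast hr
  refine ⟨1 / (2 ^ (r + 2) * (r + 3) ^ 2 * 7), by positivity, ⌈Real.exp ((14 * (r + 3)) ^ 2)⌉₊, ?_⟩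
  intro k hk d hd n hF
  have hkE : Real.exp ((14 * (r + 3)) ^ 2) ≤ k := (Nat.le_ceil _).trans (by exact_mod_cast hk)
  have hkpos : (0 : ℝ) < k := lt_of_lt_of_le (Real.exp_pos _) hkE
  set l := Real.log k with hl
  have hlE : (14 * ((r : ℝ) + 3)) ^ 2 ≤ l := (Real.le_log_iff_exp_le hkpos).2 hkE
  have hl3 : (3136 : ℝ) ≤ l := by nlinarith
  have hl0 : 0 < l := by linarith
  -- logarithms
  have hsq : Real.sqrt l * Real.sqrt l = l := Real.mul_self_sqrt hl0.le
  have hsq1 : 14 * ((r : ℝ) + 3) ≤ Real.sqrt l := by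
    rw [← Real.sqrt_sq (show (0 : ℝ) ≤ 14 * ((r : ℝ) + 3) by positivity)]
    exact Real.sqrt_le_sqrt hlE
  have hsq0 : 0 < Real.sqrt l := by positivity
  have hll : Real.log l ≤ 2 * Real.sqrt l := by
    have h1 : Real.log l = 2 * Real.log (Real.sqrt l) := by
      rw [Real.log_sqrt hl0.le]; ring
    rw [h1]
    have := Real.log_le_self hsq0.le
    linarith
  have hll1 : 1 ≤ Real.log l := by
    rw [Real.le_log_iff_exp_le hl0]
    have := Real.exp_one_lt_d9
    linarith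
  have hr7 : 7 * ((r : ℝ) + 3) * Real.log l ≤ l := by
    calc 7 * ((r : ℝ) + 3) * Real.log l ≤ 7 * ((r : ℝ) + 3) * (2 * Real.sqrt l) := by gcongr
      _ = (14 * ((r : ℝ) + 3)) * Real.sqrt l := by ring
      _ ≤ Real.sqrt l * Real.sqrt l := by gcongr
      _ = l := hsq
  -- the parameters
  set g := ⌈6 * Real.log l⌉₊ with hg
  have hg1 : 6 * Real.log l ≤ g := Nat.le_ceil _
  have hg2 : (g : ℝ) ≤ 7 * Real.log l := by
    have := Nat.ceil_lt_add_one (show 0 ≤ 6 * Real.log l by linarith)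
    linarith
  have hg0 : (0 : ℝ) < g := by linarith
  have hg1' : 1 ≤ g := by
    have : (0 : ℝ) < g := hg0
    exact_mod_cast this
  set y : ℝ := (l / ((r + 3) * g)) ^ (1 / (r : ℝ)) with hy
  have hq1 : 1 ≤ l / ((r + 3) * g) := by
    rw [le_div_iff₀ (by positivity)]
    calc 1 * (((r : ℝ) + 3) * g) ≤ ((r : ℝ) + 3) * (7 * Real.log l) := by rw [one_mul]; gcongr
      _ = 7 * ((r : ℝ) + 3) * Real.log l := by ring
      _ ≤ l := hr7
  have hy1 : 1 ≤ y := Real.one_le_rpow hq1 (by positivity)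
  have hyr : y ^ r = l / ((r + 3) * g) := by
    rw [hy, ← Real.rpow_natCast, ← Real.rpow_mul (by positivity), one_div_mul_cancel hr0.ne', Real.rpow_one]
  have hyl : y ≤ l := by
    calc y = y ^ 1 := (pow_one y).symm
      _ ≤ y ^ r := pow_le_pow_right₀ hy1 hr
      _ = l / ((r + 3) * g) := hyr
      _ ≤ l / 1 := by
          apply div_le_div_of_nonneg_left hl0.le (by norm_num)
          have : (1 : ℝ) ≤ g := by exact_mod_cast hg1'
          nlinarith
      _ = l := div_one l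
  set t := ⌊y⌋₊ with ht
  have ht1 : 1 ≤ t := Nat.le_floor (by exact_mod_cast hy1)
  have ht1R : (1 : ℝ) ≤ t := by exact_mod_cast ht1
  have hty : (t : ℝ) ≤ y := Nat.floor_le (by linarith)
  have hty2 : y / 2 ≤ t := by
    have h1 : y < t + 1 := Nat.lt_floor_add_one y
    linarith
  have htr : ((r : ℝ) + 3) * g * (t : ℝ) ^ r ≤ l := by
    calc ((r : ℝ) + 3) * g * (t : ℝ) ^ r ≤ ((r : ℝ) + 3) * g * y ^ r := by gcongr
      _ = l := by rw [hyr]; field_simp
  have hl2 : 0 < Real.log 2 := Real.log_pos (by norm_num)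
  have hl2' : Real.log 2 < 1 := by
    have := Real.log_two_lt_d9
    linarith
  have hl2'' : (0.69 : ℝ) < Real.log 2 := by
    have := Real.log_two_gt_d9
    linarith
  -- `2 b + 1 ≤ 2^(g-1)`
  have hbg : 2 * (t * g) + 1 ≤ 2 ^ (g - 1) := by
    have h1 : (l : ℝ) ^ 4 ≤ (2 : ℝ) ^ g := by
      have h2 : Real.log (l ^ 4) ≤ Real.log ((2 : ℝ) ^ g) := by
        rw [Real.log_pow, Real.log_pow]
        push_cast
        nlinarith
      exact (Real.log_le_log_iff (by positivity) (by positivity)).1 h2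
    have h3 : (2 * ((t : ℝ) * g) + 1) * 2 ≤ (2 : ℝ) ^ g := by
      have h4 : (g : ℝ) ≤ l := by
        calc (g : ℝ) ≤ 7 * Real.log l := hg2
          _ ≤ 7 * (((r : ℝ) + 3) * Real.log l) := by nlinarith
          _ = 7 * ((r : ℝ) + 3) * Real.log l := by ring
          _ ≤ l := hr7
      have h5 : (t : ℝ) ≤ l := hty.trans hyl
      calc (2 * ((t : ℝ) * g) + 1) * 2 ≤ (2 * (l * l) + 1) * 2 := by gcongr
        _ ≤ l ^ 4 := by
            have hq5 : 5 ≤ l * l := by nlinarith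
            have e4 : l ^ 4 = (l * l) * (l * l) := by ring
            rw [e4]
            nlinarith
        _ ≤ (2 : ℝ) ^ g := h1
    have h6 : (2 * (t * g) + 1) * 2 ≤ 2 ^ g := by exact_mod_cast h3
    have h7 : 2 ^ g = 2 ^ (g - 1) * 2 := by rw [← pow_succ]; congr 1; omega
    rw [h7] at h6
    omega
  -- the count
  obtain ⟨s, rfl⟩ : ∃ s, r = s + 1 := ⟨r - 1, by omega⟩
  set b := t * g with hb
  have hb1 : 1 ≤ b := Nat.mul_pos ht1 hg1'
  have hcount : (2 ^ (t ^ (s + 1)) * ((2 ^ b * 2 ^ b) ^ (t ^ (s + 1 - 1)) * ((2 ^ b) ^ (t ^ (s + 1 - 1))) ^ (s + 1))) *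
      (2 * b + 1) ^ (t ^ (s + 1)) ≤ k := by
    have h1 : (2 * b + 1) ^ (t ^ (s + 1)) ≤ (2 ^ (g - 1)) ^ (t ^ (s + 1)) := Nat.pow_le_pow_left hbg _
    have h2 : (2 ^ (t ^ (s + 1)) * ((2 ^ b * 2 ^ b) ^ (t ^ (s + 1 - 1)) * ((2 ^ b) ^ (t ^ (s + 1 - 1))) ^ (s + 1))) *
        (2 ^ (g - 1)) ^ (t ^ (s + 1)) = 2 ^ ((s + 4) * (g * t ^ (s + 1))) := by
      rw [Nat.add_sub_cancel, ← pow_add, ← pow_mul, ← pow_mul, ← pow_mul, ← pow_mul, ← pow_add, ← pow_add, ← pow_add]
      congr 1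
      obtain ⟨e, he⟩ : ∃ e, g = e + 1 := ⟨g - 1, by omega⟩
      have he' : g - 1 = e := by omega
      rw [he', hb, he]
      ring
    refine le_trans (Nat.mul_le_mul_left _ h1) ?_
    rw [h2]
    have h3 : Real.log ((2 ^ ((s + 4) * (g * t ^ (s + 1))) : ℕ) : ℝ) ≤ Real.log k := by
      push_cast
      rw [Real.log_pow]
      push_cast
      push_cast at htr
      have h4 : (((s : ℝ) + 4) * ((g : ℝ) * (t : ℝ) ^ (s + 1))) ≤ l := by
        calc (((s : ℝ) + 4) * ((g : ℝ) * (t : ℝ) ^ (s + 1))) = ((s : ℝ) + 1 + 3) * g * (t : ℝ) ^ (s + 1) := by ring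
          _ ≤ l := htr
      have h5 : 0 ≤ (((s : ℝ) + 4) * ((g : ℝ) * (t : ℝ) ^ (s + 1))) := by positivity
      calc (((s : ℝ) + 4) * ((g : ℝ) * (t : ℝ) ^ (s + 1))) * Real.log 2 ≤
          (((s : ℝ) + 4) * ((g : ℝ) * (t : ℝ) ^ (s + 1))) * 1 := by gcongr
        _ ≤ l := by linarith
    rw [Real.log_le_log_iff (by positivity) hkpos] at h3
    exact_mod_cast h3
  have hlt : (2 ^ b) ^ (t ^ (s + 1)) < n := by
    by_contra hn
    push Not at hn
    obtain ⟨c, hc, hvc, hgood⟩ := refined b t (s + 1) k n hb1 ht1 hr hcount hn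
    obtain ⟨S, hSp, hS⟩ := hF c hc (fun q => (hvc q).trans hd)
    have := hgood S (by omega)
    omega
  have hnpos : (0 : ℝ) < n := by exact_mod_cast (lt_of_le_of_lt (Nat.zero_le _) hlt)
  rw [← Real.le_log_iff_exp_le hnpos]
  have h5 : ((g : ℝ) * (t : ℝ) ^ (s + 2)) * Real.log 2 ≤ Real.log n := by
    have h6 : (((2 ^ b) ^ (t ^ (s + 1)) : ℕ) : ℝ) ≤ n := by exact_mod_cast hlt.le
    calc ((g : ℝ) * (t : ℝ) ^ (s + 2)) * Real.log 2 = Real.log (((2 ^ b) ^ (t ^ (s + 1)) : ℕ) : ℝ) := by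
          push_cast
          rw [Real.log_pow, Real.log_pow, hb]
          push_cast
          ring
      _ ≤ Real.log n := Real.log_le_log (by positivity) h6
  refine le_trans ?_ h5
  -- compare
  have h6 : (1 / 2) * ((g : ℝ) * (y / 2) ^ (s + 2)) ≤ ((g : ℝ) * (t : ℝ) ^ (s + 2)) * Real.log 2 := by
    have h7 : (y / 2) ^ (s + 2) ≤ (t : ℝ) ^ (s + 2) := pow_le_pow_left₀ (by positivity) hty2 _
    have h8 : (g : ℝ) * (y / 2) ^ (s + 2) ≤ (g : ℝ) * (t : ℝ) ^ (s + 2) := by gcongr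
    have h9 : 0 ≤ (g : ℝ) * (t : ℝ) ^ (s + 2) := by positivity
    nlinarith
  refine le_trans ?_ h6
  set e : ℝ := 1 / (((s + 1 : ℕ)) : ℝ) with he
  have he0 : 0 < e := by positivity
  have he1 : e ≤ 1 := by
    rw [he, div_le_one hr0]; exact hr1
  have hys : y ^ (s + 2) = (l / ((((s + 1 : ℕ) : ℝ) + 3) * g)) ^ (1 + e) := by
    have h7 : y ^ (s + 2) = y ^ (s + 1) * y := by rw [pow_succ]
    rw [h7, hyr, Real.rpow_add (by positivity), Real.rpow_one, hy]
  rw [div_pow, hys, Real.div_rpow hl0.le (by positivity), Real.mul_rpow (by positivity) (by positivity)]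
  have hG : (g : ℝ) ^ (1 + e) = g * (g : ℝ) ^ e := by rw [Real.rpow_add hg0, Real.rpow_one]
  have hGe : (g : ℝ) ^ e ≤ 7 * (Real.log l) ^ e := by
    calc (g : ℝ) ^ e ≤ (7 * Real.log l) ^ e := Real.rpow_le_rpow hg0.le hg2 he0.le
      _ = 7 ^ e * (Real.log l) ^ e := Real.mul_rpow (by norm_num) (by linarith)
      _ ≤ 7 ^ (1 : ℝ) * (Real.log l) ^ e := by
          gcongr
          norm_num
      _ = 7 * (Real.log l) ^ e := by rw [Real.rpow_one]
  have hR : (((s + 1 : ℕ) : ℝ) + 3) ^ (1 + e) ≤ (((s + 1 : ℕ) : ℝ) + 3) ^ 2 := by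
    rw [← Real.rpow_natCast]
    apply Real.rpow_le_rpow_of_exponent_le
    · have : (0 : ℝ) ≤ ((s + 1 : ℕ) : ℝ) := Nat.cast_nonneg _
      linarith
    · push_cast; linarith
  have hL0 : 0 < l ^ (1 + e) := Real.rpow_pos_of_pos hl0 _
  have hlle : 0 < (Real.log l) ^ e := Real.rpow_pos_of_pos (by linarith) _
  have hRpos : 0 < (((s + 1 : ℕ) : ℝ) + 3) ^ (1 + e) := Real.rpow_pos_of_pos (by positivity) _
  have hge0 : 0 < (g : ℝ) ^ e := Real.rpow_pos_of_pos hg0 _
  rw [hG]
  calc 1 / (2 ^ (s + 1 + 2) * (((s + 1 : ℕ) : ℝ) + 3) ^ 2 * 7) * l ^ (1 + e) / Real.log l ^ e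
      = (1 / 2 ^ (s + 3)) * (l ^ (1 + e) / ((((s + 1 : ℕ) : ℝ) + 3) ^ 2 * (7 * (Real.log l) ^ e))) := by
        rw [show s + 1 + 2 = s + 3 by ring]
        field_simp
    _ ≤ (1 / 2 ^ (s + 3)) * (l ^ (1 + e) / ((((s + 1 : ℕ) : ℝ) + 3) ^ (1 + e) * (g : ℝ) ^ e)) := by
        gcongr
    _ = 1 / 2 * (g * (l ^ (1 + e) / ((((s + 1 : ℕ) : ℝ) + 3) ^ (1 + e) * (g * (g : ℝ) ^ e)) / 2 ^ (s + 2))) := by
        rw [show s + 3 = (s + 2) + 1 by ring, pow_succ]
        field_simp

end Pool.Agent.Helper87_ND
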