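import Mathlib
import Pool.Agent.Helper87_ND.VCLower

/-! The lower bound for colour classes of bounded VC dimension. -/

namespace Pool.Agent.Helper87_ND

open Finset Pool.Agent.Helper73_EG

/-- the choice of the alphabet -/
theorem params (r t k : ℕ) (hr : 1 ≤ r) (ht1 : 1 ≤ t) (hkpos : (0 : ℝ) < k)
    (hlogk : (2 * ((r : ℝ) + 2)) ^ r ≤ Real.log k) (htr : (t : ℝ) ^ r ≤ Real.log k / 2) :
    ∃ m : ℕ, 1 ≤ m ∧ 2 ^ (t ^ r) * ((m * m) ^ (t ^ (r - 1)) * (m ^ (t ^ (r - 1))) ^ r) ≤ k ∧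
      Real.exp (Real.log k * t / (4 * (r + 2))) ≤ ((m ^ (t ^ r) : ℕ) : ℝ) := by
  have hr0 : (0 : ℝ) < r := by exact_mod_cast hr
  have hl2 : 0 < Real.log 2 := Real.log_pos (by norm_num)
  have hl2' : Real.log 2 < 1 := by
    have := Real.log_two_lt_d9
    linarith
  have hlk0 : 0 < Real.log k := lt_of_lt_of_le (by positivity) hlogk
  have ht1R : (1 : ℝ) ≤ t := by exact_mod_cast ht1
  obtain ⟨s, rfl⟩ : ∃ s, r = s + 1 := ⟨r - 1, by omega⟩
  set D : ℝ := 2 * ((s + 1 : ℕ) + 2) * (t : ℝ) ^ s with hD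
  have hDpos : 0 < D := by positivity
  have hDk : D ≤ Real.log k := by
    rcases le_or_gt (2 * (((s + 1 : ℕ) : ℝ) + 2)) t with h | h
    · calc D ≤ (t : ℝ) * (t : ℝ) ^ s := by rw [hD]; gcongr
        _ = (t : ℝ) ^ (s + 1) := by rw [pow_succ]; ring
        _ ≤ Real.log k / 2 := htr
        _ ≤ Real.log k := by linarith
    · calc D ≤ 2 * ((s + 1 : ℕ) + 2) * (2 * (((s + 1 : ℕ) : ℝ) + 2)) ^ s := by rw [hD]; gcongr
        _ = (2 * (((s + 1 : ℕ) : ℝ) + 2)) ^ (s + 1) := by rw [pow_succ]; ring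
        _ ≤ Real.log k := hlogk
  set μ := ⌊Real.log k / (D * Real.log 2)⌋₊ with hμ
  have hy1 : 1 ≤ Real.log k / (D * Real.log 2) := by
    rw [le_div_iff₀ (by positivity)]
    calc 1 * (D * Real.log 2) ≤ D * 1 := by rw [one_mul]; gcongr
      _ ≤ Real.log k := by rw [mul_one]; exact hDk
  have hμle : (μ : ℝ) ≤ Real.log k / (D * Real.log 2) := Nat.floor_le (by positivity)
  have hμge : Real.log k / (D * Real.log 2) / 2 ≤ μ := by
    have h1 : Real.log k / (D * Real.log 2) < μ + 1 := Nat.lt_floor_add_one _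
    have h2 : (1 : ℝ) ≤ μ := by
      have : 1 ≤ μ := Nat.le_floor (by exact_mod_cast hy1)
      exact_mod_cast this
    linarith
  have hμ2 : (μ : ℝ) * (D * Real.log 2) ≤ Real.log k := by
    rwa [le_div_iff₀ (by positivity)] at hμle
  refine ⟨2 ^ μ, Nat.one_le_two_pow, ?_, ?_⟩
  · have h0 : 2 ^ (t ^ (s + 1)) * (((2 ^ μ) * (2 ^ μ)) ^ (t ^ (s + 1 - 1)) * ((2 ^ μ) ^ (t ^ (s + 1 - 1))) ^ (s + 1)) =
        2 ^ (t ^ (s + 1) + (s + 3) * μ * t ^ s) := by
      rw [Nat.add_sub_cancel, ← pow_add, ← pow_mul, ← pow_mul, ← pow_mul, ← pow_add, ← pow_add]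
      congr 1
      ring
    rw [h0]
    have h1 : Real.log ((2 ^ (t ^ (s + 1) + (s + 3) * μ * t ^ s) : ℕ) : ℝ) ≤ Real.log k := by
      push_cast
      rw [Real.log_pow]
      push_cast
      have h2 : ((t : ℝ) ^ (s + 1)) * Real.log 2 ≤ Real.log k / 2 := by
        calc ((t : ℝ) ^ (s + 1)) * Real.log 2 ≤ (Real.log k / 2) * 1 := by gcongr
          _ = Real.log k / 2 := mul_one _
      have h3 : ((s : ℝ) + 3) * μ * (t : ℝ) ^ s * Real.log 2 ≤ Real.log k / 2 := by
        have : ((s : ℝ) + 3) * μ * (t : ℝ) ^ s * Real.log 2 = (μ : ℝ) * (D * Real.log 2) / 2 := by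
          rw [hD]; push_cast; ring
        rw [this]
        linarith
      calc ((t : ℝ) ^ (s + 1) + (s + 3) * μ * (t : ℝ) ^ s) * Real.log 2
          = (t : ℝ) ^ (s + 1) * Real.log 2 + (s + 3) * μ * (t : ℝ) ^ s * Real.log 2 := by ring
        _ ≤ Real.log k / 2 + Real.log k / 2 := add_le_add h2 h3
        _ = Real.log k := by ring
    rw [Real.log_le_log_iff (by positivity) hkpos] at h1
    exact_mod_cast h1
  · rw [← Real.le_log_iff_exp_le (by positivity)]
    calc Real.log k * t / (4 * ((s + 1 : ℕ) + 2))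
        = (Real.log k / (D * Real.log 2) / 2) * (t : ℝ) ^ (s + 1) * Real.log 2 := by
          rw [hD]
          have : (t : ℝ) ≠ 0 := by linarith
          field_simp
          ring
      _ ≤ (μ : ℝ) * (t : ℝ) ^ (s + 1) * Real.log 2 := by gcongr
      _ = Real.log (((2 ^ μ) ^ (t ^ (s + 1)) : ℕ) : ℝ) := by
          push_cast
          rw [Real.log_pow, Real.log_pow]
          push_cast
          ring

/-- numbers with many traces are small -/
theorem small_of (s d T : ℕ) (hd : 2 ≤ d) (hs : 2 ^ s ≤ (s + 1) ^ T + 1)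
    (hT : T = 1 ∨ (T : ℝ) ≤ (1 / 3) * (d / Real.log (d + 1))) : s ≤ d := by
  by_contra hcon
  push Not at hcon
  rcases hT with rfl | hT
  · have h1 : s + 2 < 2 ^ s := by
      obtain ⟨e, rfl⟩ : ∃ e, s = e + 3 := ⟨s - 3, by omega⟩
      clear hs hcon
      induction e with
      | zero => norm_num
      | succ e ih =>
        rw [show e + 1 + 3 = (e + 3) + 1 by ring, pow_succ]
        omega
    rw [pow_one] at hs
    omega
  · have hdR : (2 : ℝ) ≤ d := by exact_mod_cast hd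
    have hsR : (d : ℝ) + 1 ≤ s := by exact_mod_cast hcon
    have hl2 : (0.69 : ℝ) < Real.log 2 := by
      have := Real.log_two_gt_d9
      linarith
    have hlogd : 0 < Real.log (d + 1) := Real.log_pos (by linarith)
    have hlogs : 0 < Real.log (s + 1) := Real.log_pos (by linarith)
    -- `x / log x` is increasing
    have hmono : (d + 1 : ℝ) / Real.log (d + 1) ≤ (s + 1) / Real.log (s + 1) := by
      have hanti := Real.log_div_self_antitoneOn
      have he : Real.exp 1 ≤ 3 := by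
        have := Real.exp_one_lt_d9
        linarith
      have h1 : Real.log (s + 1) / (s + 1) ≤ Real.log (d + 1) / (d + 1) :=
        hanti (show Real.exp 1 ≤ (d + 1 : ℝ) by linarith) (show Real.exp 1 ≤ (s + 1 : ℝ) by linarith)
          (by linarith)
      rw [div_le_div_iff₀ hlogd hlogs]
      rw [div_le_div_iff₀ (by linarith) (by linarith)] at h1
      linarith
    have hTs : (T : ℝ) * Real.log (s + 1) ≤ (1 / 3) * (s + 1) := by
      have h1 : (T : ℝ) ≤ (1 / 3) * ((s + 1) / Real.log (s + 1)) := by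
        refine hT.trans ?_
        apply mul_le_mul_of_nonneg_left _ (by norm_num)
        refine le_trans ?_ hmono
        gcongr
        linarith
      calc (T : ℝ) * Real.log (s + 1) ≤ (1 / 3) * ((s + 1) / Real.log (s + 1)) * Real.log (s + 1) := by gcongr
        _ = (1 / 3) * (s + 1) := by field_simp
    -- compare logarithms
    have h2 : ((s + 1 : ℕ) : ℝ) ^ T + 1 ≤ 2 * ((s + 1 : ℕ) : ℝ) ^ T := by
      have : (1 : ℝ) ≤ ((s + 1 : ℕ) : ℝ) ^ T := one_le_pow₀ (by push_cast; linarith)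
      linarith
    have h3 : (2 : ℝ) ^ s ≤ 2 * ((s + 1 : ℕ) : ℝ) ^ T := by
      refine le_trans ?_ h2
      exact_mod_cast hs
    have h4 := Real.log_le_log (by positivity) h3
    rw [Real.log_mul (by norm_num) (by positivity), Real.log_pow, Real.log_pow] at h4
    push_cast at h4
    have h5 : ((s : ℝ) - 1) * Real.log 2 ≤ (1 / 3) * (s + 1) := by linarith
    nlinarith

/-- **The lower bound.** -/
theorem vc_lower (r : ℕ) (hr : 1 ≤ r) (p : ℕ) (hp : 4 ≤ p) (hp' : p < 2 ^ (r + 2)) :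
    ∃ c : ℝ, 0 < c ∧ ∃ k0 : ℕ, ∀ k : ℕ, k0 ≤ k → ∀ d : ℕ, 2 ≤ d → (d : ℝ) ≤ Real.log k → ∀ n : ℕ,
      ForcesVC d p k n →
        Real.exp (c * ((d : ℝ) / Real.log (d + 1)) ^ (1 / (r : ℝ)) * Real.log k) ≤ n := by
  have hr0 : (0 : ℝ) < r := by exact_mod_cast hr
  refine ⟨1 / (24 * (r + 2)), by positivity, ⌈Real.exp ((2 * (r + 2)) ^ r)⌉₊, ?_⟩
  intro k hk d hd2 hdk n hF
  have hkE : Real.exp ((2 * (r + 2)) ^ r) ≤ k := (Nat.le_ceil _).trans (by exact_mod_cast hk)
  have hkpos : (0 : ℝ) < k := lt_of_lt_of_le (Real.exp_pos _) hkE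
  have hlogk : (2 * ((r : ℝ) + 2)) ^ r ≤ Real.log k := (Real.le_log_iff_exp_le hkpos).2 hkE
  have hlk0 : 0 < Real.log k := lt_of_lt_of_le (by positivity) hlogk
  have hd2R : (2 : ℝ) ≤ d := by exact_mod_cast hd2
  have hlogd : 1 < Real.log (d + 1) := by
    rw [Real.lt_log_iff_exp_lt (by linarith)]
    have := Real.exp_one_lt_d9
    linarith
  set q : ℝ := (d : ℝ) / Real.log (d + 1) with hq
  have hq0 : 0 < q := by positivity
  have hqd : q ≤ d := by
    rw [hq, div_le_iff₀ (by linarith)]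
    nlinarith
  set y : ℝ := ((1 / 3) * q) ^ (1 / (r : ℝ)) with hy
  have hy0 : 0 ≤ y := by positivity
  have hyr : y ^ r = (1 / 3) * q := by
    rw [hy, ← Real.rpow_natCast, ← Real.rpow_mul (by positivity), one_div_mul_cancel hr0.ne', Real.rpow_one]
  obtain ⟨t, ht1, hty, htT, htr⟩ : ∃ t : ℕ, 1 ≤ t ∧ y / 2 ≤ t ∧
      (t ^ r = 1 ∨ ((t ^ r : ℕ) : ℝ) ≤ (1 / 3) * q) ∧ (t : ℝ) ^ r ≤ Real.log k / 2 := by
    rcases lt_or_ge y 1 with h | h
    · refine ⟨1, le_rfl, by push_cast; linarith, Or.inl (one_pow r), ?_⟩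
      rw [Nat.cast_one, one_pow]
      linarith
    · have h1 : 1 ≤ ⌊y⌋₊ := Nat.le_floor (by exact_mod_cast h)
      have h1R : (1 : ℝ) ≤ (⌊y⌋₊ : ℝ) := by exact_mod_cast h1
      have h2 : (⌊y⌋₊ : ℝ) ≤ y := Nat.floor_le hy0
      have h3 : y < ⌊y⌋₊ + 1 := Nat.lt_floor_add_one y
      have h4 : (⌊y⌋₊ : ℝ) ^ r ≤ (1 / 3) * q := by
        rw [← hyr]; gcongr
      refine ⟨⌊y⌋₊, h1, by linarith, Or.inr (by push_cast; exact h4), ?_⟩
      linarith
  obtain ⟨m, hm, hmk, hmn⟩ := params r t k hr ht1 hkpos hlogk htr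
  have hlt : m ^ (t ^ r) < n := by
    by_contra hn
    push Not at hn
    obtain ⟨c, X, hc, hXinj, hXbd, hcX⟩ := base m t r k n hm ht1 hr hmk hn
    obtain ⟨S, hSp, hS⟩ := hF c hc (by
      intro i T hT
      exact small_of T.card d (t ^ r) hd2 (base_vc m t r k n c X hXbd hcX i T hT) htT)
    have := base_good m t r k n hr c X hXinj hXbd hcX S (by omega)
    omega
  refine le_trans ?_ (le_trans hmn (by exact_mod_cast hlt.le))
  apply Real.exp_le_exp.2
  have h8 : q ^ (1 / (r : ℝ)) ≤ 3 * y := by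
    have h9 : q = 3 * ((1 / 3) * q) := by ring
    conv_lhs => rw [h9]
    rw [Real.mul_rpow (by norm_num) (by positivity), ← hy]
    have h10 : (3 : ℝ) ^ (1 / (r : ℝ)) ≤ 3 := by
      calc (3 : ℝ) ^ (1 / (r : ℝ)) ≤ (3 : ℝ) ^ (1 : ℝ) := by
            apply Real.rpow_le_rpow_of_exponent_le (by norm_num)
            rw [div_le_one hr0]
            exact_mod_cast hr
        _ = 3 := Real.rpow_one 3
    gcongr
  have h11 : q ^ (1 / (r : ℝ)) ≤ 6 * t := by linarith
  calc 1 / (24 * ((r : ℝ) + 2)) * q ^ (1 / (r : ℝ)) * Real.log k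
      ≤ 1 / (24 * ((r : ℝ) + 2)) * (6 * t) * Real.log k := by gcongr
    _ = Real.log k * t / (4 * (r + 2)) := by
        field_simp
        ring

end Pool.Agent.Helper87_ND
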