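import Mathlib
import Pool.Agent.Helper87_ND.Upper

/-! The splitting step for classes of bounded VC dimension. -/

namespace Pool.Agent.Helper87_ND

open Finset

section
variable {V : Type*} [DecidableEq V] {k : ℕ}

/-- the indicator of a colour class -/
def ci (c : V → V → Fin k) (i : Fin k) : V → V → Fin 2 := fun x y => if c x y = i then 1 else 0

/-- `T` is shattered by the class `i` inside `W` -/
def ShB (c : V → V → Fin k) (i : Fin k) (W T : Finset V) : Prop :=
  T ⊆ W ∧ ∀ U ⊆ T, ∃ x ∈ W, x ∉ T ∧ ∀ t ∈ T, (c x t = i ↔ t ∈ U)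

theorem shB_of_sh {c : V → V → Fin k} {i : Fin k} {W T : Finset V} (h : Sh (ci c i) W T) :
    ShB c i W T := by
  obtain ⟨hT, f0, f1, h01, hU⟩ := h
  refine ⟨hT, ?_⟩
  intro U _
  obtain ⟨x, hx, hxT, hxt⟩ := hU (T.filter (fun t => t ∈ U ↔ f1 t = 1)) (filter_subset _ _)
  refine ⟨x, hx, hxT, ?_⟩
  intro t ht
  have h1 := hxt t ht
  have h2 := h01 t ht
  have h3 : f0 t = 0 ∨ f0 t = 1 := by
    rcases f0 t with ⟨v, hv⟩
    interval_cases v
    · left; rfl
    · right; rfl
  have h4 : f1 t = 0 ∨ f1 t = 1 := by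
    rcases f1 t with ⟨v, hv⟩
    interval_cases v
    · left; rfl
    · right; rfl
  have h5 : ci c i x t = 1 ↔ c x t = i := by
    unfold ci
    by_cases h : c x t = i
    · simp [h]
    · simp [h]
  rw [← h5, h1]
  by_cases htU : t ∈ U
  · rcases h4 with h4 | h4
    · have h6 : f0 t = 1 := h3.resolve_left (fun h => h2 (h.trans h4.symm))
      simp [htU, h4, h6]
    · simp [htU, h4, ht]
  · rcases h4 with h4 | h4
    · simp [htU, h4, ht]
    · have h6 : f0 t = 0 := h3.resolve_right (fun h => h2 (h.trans h4.symm))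
      simp [htU, h4, h6]

/-- the palette of a set of vertices -/
def pal (c : V → V → Fin k) (A : Finset V) : Finset (Fin k) := A.offDiag.image (fun e => c e.1 e.2)

theorem mem_pal {c : V → V → Fin k} {A : Finset V} {j : Fin k} :
    j ∈ pal c A ↔ ∃ x ∈ A, ∃ y ∈ A, x ≠ y ∧ c x y = j := by
  unfold pal
  simp only [mem_image, mem_offDiag, Prod.exists]
  constructor
  · rintro ⟨u, v, ⟨hu, hv, huv⟩, h⟩
    exact ⟨u, hu, v, hv, huv, h⟩
  · rintro ⟨u, hu, v, hv, huv, h⟩
    exact ⟨u, v, ⟨hu, hv, huv⟩, h⟩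

theorem pal_mono {c : V → V → Fin k} {A B : Finset V} (h : A ⊆ B) : pal c A ⊆ pal c B := by
  intro j hj
  rw [mem_pal] at hj ⊢
  obtain ⟨x, hx, y, hy, h1⟩ := hj
  exact ⟨x, h hx, y, h hy, h1⟩

theorem dif_comm (c : V → V → Fin k) (W : Finset V) (x y : V) : dif c W x y = dif c W y x := by
  unfold dif
  ext z
  simp only [mem_filter]
  constructor
  · rintro ⟨a, b, e, f⟩; exact ⟨a, e, b, Ne.symm f⟩
  · rintro ⟨a, b, e, f⟩; exact ⟨a, e, b, Ne.symm f⟩

/-- four vertices -/
theorem four_of (c : V → V → Fin k) (hc : ∀ x y, c x y = c y x) (W : Finset V) (i j : Fin k)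
    {x x' y y' : V} (hx : x ∈ W) (hx' : x' ∈ W) (hy : y ∈ W) (hy' : y' ∈ W) (hxx : x ≠ x') (hyy : y ≠ y')
    (h1 : x ≠ y) (h2 : x ≠ y') (h3 : x' ≠ y) (h4 : x' ≠ y') (cx : c x x' = j) (cy : c y y' = j)
    (e1 : c x y = i) (e2 : c x y' = i) (e3 : c x' y = i) (e4 : c x' y' = i) :
    ∃ S ⊆ W, S.card = 4 ∧ (S.offDiag.image (fun e => c e.1 e.2)).card ≤ 2 := by
  refine ⟨{x, x', y, y'}, ?_, ?_, ?_⟩
  · intro z hz
    simp only [mem_insert, mem_singleton] at hz
    rcases hz with rfl | rfl | rfl | rfl <;> assumption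
  · rw [card_insert_of_notMem, card_insert_of_notMem, card_insert_of_notMem, card_singleton]
    · simpa using hyy
    · simp only [mem_insert, mem_singleton, not_or]
      exact ⟨h3, h4⟩
    · simp only [mem_insert, mem_singleton, not_or]
      exact ⟨hxx, h1, h2⟩
  · have hsub : (({x, x', y, y'} : Finset V).offDiag.image (fun e => c e.1 e.2)) ⊆ {j, i} := by
      intro l hl
      rw [mem_image] at hl
      obtain ⟨⟨u, v⟩, huv, rfl⟩ := hl
      rw [mem_offDiag] at huv
      obtain ⟨hu, hv, hn⟩ := huv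
      simp only [mem_insert, mem_singleton] at hu hv ⊢
      rcases hu with rfl | rfl | rfl | rfl <;> rcases hv with rfl | rfl | rfl | rfl
      · exact absurd rfl hn
      · exact Or.inl cx
      · exact Or.inr e1
      · exact Or.inr e2
      · exact Or.inl (by rw [hc]; exact cx)
      · exact absurd rfl hn
      · exact Or.inr e3
      · exact Or.inr e4
      · exact Or.inr (by rw [hc]; exact e1)
      · exact Or.inr (by rw [hc]; exact e3)
      · exact absurd rfl hn
      · exact Or.inl cy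
      · exact Or.inr (by rw [hc]; exact e2)
      · exact Or.inr (by rw [hc]; exact e4)
      · exact Or.inl (by rw [hc]; exact cy)
      · exact absurd rfl hn
    exact (card_le_card hsub).trans card_le_two

/-- pairwise far -/
def FarSet (c : V → V → Fin 2) (W : Finset V) (E : ℕ) (A : Finset V) : Prop :=
  ∀ x ∈ A, ∀ y ∈ A, x ≠ y → W.card < E * (dif c W x y).card

/-- near clusters -/
theorem cluster (c : V → V → Fin 2) (W X : Finset V) (E R : ℕ) (hX : X ⊆ W) (hXne : X.Nonempty)
    (hR : ∀ A ⊆ W, (∀ x ∈ A, ∀ y ∈ A, x ≠ y → W.card < E * (dif c W x y).card) → A.card ≤ R) :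
    ∃ a ∈ X, ∃ A ⊆ X, X.card ≤ R * A.card ∧ ∀ x ∈ A, x = a ∨ E * (dif c W x a).card ≤ W.card := by
  classical
  set F := X.powerset.filter (fun A => FarSet c W E A) with hF
  have hFne : F.Nonempty := ⟨∅, by rw [hF, mem_filter, mem_powerset]; exact ⟨empty_subset _, by simp [FarSet]⟩⟩
  obtain ⟨A0, hA0, hmax⟩ := exists_max_image F card hFne
  rw [hF, mem_filter, mem_powerset] at hA0
  obtain ⟨hA0X, hA0far⟩ := hA0
  have hg : ∀ x, ∃ a, x ∈ X → a ∈ A0 ∧ (x = a ∨ E * (dif c W x a).card ≤ W.card) := by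
    intro x
    by_cases hx : x ∈ X
    · by_cases hxA : x ∈ A0
      · exact ⟨x, fun _ => ⟨hxA, Or.inl rfl⟩⟩
      · by_contra hcon
        push Not at hcon
        have hins : insert x A0 ∈ F := by
          rw [hF, mem_filter, mem_powerset]
          refine ⟨insert_subset hx hA0X, ?_⟩
          intro u hu v hv huv
          rw [mem_insert] at hu hv
          rcases hu with rfl | hu <;> rcases hv with rfl | hv
          · exact absurd rfl huv
          · exact ((hcon v).2 hv).2
          · rw [dif_comm]; exact ((hcon u).2 hu).2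
          · exact hA0far u hu v hv huv
        have := hmax _ hins
        rw [card_insert_of_notMem hxA] at this
        omega
    · exact ⟨x, fun h => absurd h hx⟩
  choose g hg using hg
  have hcount : ∃ a ∈ A0, X.card ≤ R * (X.filter (fun x => g x = a)).card := by
    by_contra hcon
    push Not at hcon
    have hA0ne : A0.Nonempty := by
      obtain ⟨x, hx⟩ := hXne
      exact ⟨g x, (hg x hx).1⟩
    have h1 : X.card = ∑ a ∈ A0, (X.filter (fun x => g x = a)).card :=
      card_eq_sum_card_fiberwise (fun x hx => mem_coe.2 (hg x (mem_coe.1 hx)).1)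
    have h2 : ∑ a ∈ A0, R * (X.filter (fun x => g x = a)).card < ∑ _a ∈ A0, X.card :=
      sum_lt_sum_of_nonempty hA0ne hcon
    rw [← mul_sum, ← h1, sum_const, smul_eq_mul] at h2
    have h3 : A0.card ≤ R := hR A0 (hA0X.trans hX) hA0far
    have h4 : A0.card * X.card ≤ R * X.card := Nat.mul_le_mul_right _ h3
    omega
  obtain ⟨a, ha, hac⟩ := hcount
  refine ⟨a, hA0X ha, X.filter (fun x => g x = a), filter_subset _ _, hac, ?_⟩
  intro x hx
  rw [mem_filter] at hx
  have := (hg x hx.1).2
  rw [hx.2] at this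
  exact this

/-- **The splitting step.** -/
theorem vstep (c : V → V → Fin k) (hc : ∀ x y, c x y = c y x) (W : Finset V) (hk : 1 ≤ k) (R : ℕ)
    (hR : ∀ i, ∀ A ⊆ W, (∀ x ∈ A, ∀ y ∈ A, x ≠ y → W.card < 16 * k * k * (dif (ci c i) W x y).card) →
      A.card ≤ R) (hW : 8 * k * k ≤ W.card) :
    (∃ S ⊆ W, S.card = 4 ∧ (S.offDiag.image (fun e => c e.1 e.2)).card ≤ 2) ∨
    ∃ A ⊆ W, ∃ B ⊆ W, W.card ≤ k * R * A.card ∧ W.card ≤ 4 * k * B.card ∧
      Disjoint (pal c A) (pal c B) := by
  classical
  have hkk : 1 ≤ k * k := Nat.mul_pos hk hk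
  have hwpos : 8 ≤ W.card := by
    have : 8 * k * k = 8 * (k * k) := by ring
    omega
  -- majority colours
  have hmaj : ∀ x, ∃ i : Fin k, x ∈ W → W.card ≤ k * ((W.erase x).filter (fun z => c x z = i)).card + 1 := by
    intro x
    obtain ⟨i, hi⟩ := major (Q := W.erase x) (fun z => c x z) hk
    refine ⟨i, fun hx => ?_⟩
    rw [card_erase_of_mem hx] at hi
    omega
  choose mi hmi using hmaj
  obtain ⟨i, hi⟩ := major (Q := W) mi hk
  set X := W.filter (fun x => mi x = i) with hX
  have hXne : X.Nonempty := by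
    rw [← card_pos]
    by_contra h0
    have : X.card = 0 := by omega
    rw [this] at hi
    omega
  obtain ⟨a, haX, A, hAX, hAc, hA⟩ := cluster (ci c i) W X (16 * k * k) R (filter_subset _ _) hXne (hR i)
  have hAW : A ⊆ W := hAX.trans (filter_subset _ _)
  have haW : a ∈ W := (mem_filter.1 haX).1
  set B0 := (W.erase a).filter (fun z => c a z = i) with hB0
  have hB0c : W.card ≤ k * B0.card + 1 := by
    have := hmi a haW
    rwa [(mem_filter.1 haX).2] at this
  have hp : ∀ j : Fin k, ∃ e : V × V, j ∈ pal c A → e.1 ∈ A ∧ e.2 ∈ A ∧ e.1 ≠ e.2 ∧ c e.1 e.2 = j := by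
    intro j
    by_cases hj : j ∈ pal c A
    · obtain ⟨x, hx, y, hy, h⟩ := mem_pal.1 hj
      exact ⟨(x, y), fun _ => ⟨hx, hy, h⟩⟩
    · exact ⟨(a, a), fun h => absurd h hj⟩
  choose p hp using hp
  -- the bad vertices
  have hbad : ∀ x ∈ A, (B0.filter (fun z => z = x ∨ c x z ≠ i)).card ≤ W.card / (16 * k * k) + 1 := by
    intro x hx
    rcases hA x hx with rfl | hnear
    · have h1 : B0.filter (fun z => z = x ∨ c x z ≠ i) ⊆ {x} := by
        intro z hz
        rw [mem_filter, hB0, mem_filter] at hz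
        rw [mem_singleton]
        rcases hz.2 with h | h
        · exact h
        · exact absurd hz.1.2 h
      refine (card_le_card h1).trans ?_
      rw [card_singleton]
      exact Nat.le_add_left _ _
    · have h1 : B0.filter (fun z => z = x ∨ c x z ≠ i) ⊆ insert x (dif (ci c i) W x a) := by
        intro z hz
        rw [mem_filter, hB0, mem_filter, mem_erase] at hz
        obtain ⟨⟨⟨hza, hzW⟩, hzi⟩, h⟩ := hz
        rw [mem_insert]
        by_cases hzx : z = x
        · exact Or.inl hzx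
        · right
          have h2 : c x z ≠ i := h.resolve_left hzx
          unfold dif
          rw [mem_filter]
          refine ⟨hzW, hzx, hza, ?_⟩
          unfold ci
          rw [if_neg h2, if_pos hzi]
          decide
      refine (card_le_card h1).trans ((card_insert_le _ _).trans ?_)
      apply Nat.add_le_add_right
      rw [Nat.le_div_iff_mul_le (by positivity), mul_comm]
      exact hnear
  set B := B0.filter (fun z => ∀ j ∈ pal c A, (z ≠ (p j).1 ∧ c (p j).1 z = i) ∧ (z ≠ (p j).2 ∧ c (p j).2 z = i)) with hB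
  have hBW : B ⊆ W := (filter_subset _ _).trans ((filter_subset _ _).trans (erase_subset _ _))
  have hBc : B0.card ≤ B.card + k * (2 * (W.card / (16 * k * k) + 1)) := by
    have h1 : B0 ⊆ B ∪ (pal c A).biUnion (fun j => B0.filter (fun z => z = (p j).1 ∨ c (p j).1 z ≠ i) ∪
        B0.filter (fun z => z = (p j).2 ∨ c (p j).2 z ≠ i)) := by
      intro z hz
      rw [mem_union, mem_biUnion]
      by_cases hzB : z ∈ B
      · exact Or.inl hzB
      · right
        rw [hB, mem_filter, not_and] at hzB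
        have h2 := hzB hz
        push Not at h2
        obtain ⟨j, hj, h3⟩ := h2
        refine ⟨j, hj, ?_⟩
        by_cases h4 : z ≠ (p j).1 ∧ c (p j).1 z = i
        · have h5 := h3 h4
          refine mem_union.2 (Or.inr (mem_filter.2 ⟨hz, ?_⟩))
          by_cases h6 : z = (p j).2
          · exact Or.inl h6
          · exact Or.inr (h5 h6)
        · refine mem_union.2 (Or.inl (mem_filter.2 ⟨hz, ?_⟩))
          by_cases h6 : z = (p j).1
          · exact Or.inl h6
          · exact Or.inr (fun h7 => h4 ⟨h6, h7⟩)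
    have h2 : ((pal c A).biUnion (fun j => B0.filter (fun z => z = (p j).1 ∨ c (p j).1 z ≠ i) ∪
        B0.filter (fun z => z = (p j).2 ∨ c (p j).2 z ≠ i))).card ≤
        (pal c A).card * (2 * (W.card / (16 * k * k) + 1)) := by
      apply card_biUnion_le_card_mul
      intro j hj
      obtain ⟨h3, h4, _, _⟩ := hp j hj
      refine (card_union_le _ _).trans ?_
      have h5 := hbad _ h3
      have h6 := hbad _ h4
      omega
    have h3 : (pal c A).card ≤ k := by
      have := card_le_univ (pal c A)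
      rwa [Fintype.card_fin] at this
    calc B0.card ≤ _ := card_le_card h1
      _ ≤ _ := card_union_le _ _
      _ ≤ B.card + (pal c A).card * (2 * (W.card / (16 * k * k) + 1)) := Nat.add_le_add_left h2 _
      _ ≤ _ := by gcongr
  have hBbig : W.card ≤ 4 * k * B.card := by
    set w := W.card with hw
    set q := w / (16 * k * k) with hq
    have h1 : q * (16 * k * k) ≤ w := Nat.div_mul_le_self _ _
    have h2 : q * (16 * k * k) = 16 * (k * k * q) := by ring
    have h3 : k * B0.card ≤ k * B.card + 2 * (k * k * q) + 2 * (k * k) := by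
      calc k * B0.card ≤ k * (B.card + k * (2 * (q + 1))) := Nat.mul_le_mul_left _ hBc
        _ = _ := by ring
    have h4 : 8 * k * k = 8 * (k * k) := by ring
    have h5 : 4 * k * B.card = 4 * (k * B.card) := by ring
    omega
  have hAbig : W.card ≤ k * R * A.card := by
    calc W.card ≤ k * X.card := hi
      _ ≤ k * (R * A.card) := Nat.mul_le_mul_left _ hAc
      _ = k * R * A.card := by ring
  by_cases hdis : Disjoint (pal c A) (pal c B)
  · exact Or.inr ⟨A, hAW, B, hBW, hAbig, hBbig, hdis⟩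
  · left
    rw [not_disjoint_iff] at hdis
    obtain ⟨j, hjA, hjB⟩ := hdis
    obtain ⟨y, hy, y', hy', hyy, hcy⟩ := mem_pal.1 hjB
    obtain ⟨h1, h2, h3, h4⟩ := hp j hjA
    obtain ⟨⟨u1, u2⟩, ⟨u3, u4⟩⟩ := (mem_filter.1 hy).2 j hjA
    obtain ⟨⟨v1, v2⟩, ⟨v3, v4⟩⟩ := (mem_filter.1 hy').2 j hjA
    exact four_of c hc W i j (hAW h1) (hAW h2) (hBW hy) (hBW hy') h3 hyy (Ne.symm u1) (Ne.symm v1)
      (Ne.symm u3) (Ne.symm v3) h4 hcy u2 v2 u4 v4

end

end Pool.Agent.Helper87_ND
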