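import Mathlib
import Pool.Agent.Helper87_ND.VCStep

/-! The recursion over palettes. -/

namespace Pool.Agent.Helper87_ND

open Finset

section
variable {V : Type*} [DecidableEq V] {k : ℕ}

theorem pal_pos {c : V → V → Fin k} {A : Finset V} (h : 2 ≤ A.card) : 1 ≤ (pal c A).card := by
  obtain ⟨x, hx, y, hy, hxy⟩ := one_lt_card.1 (show 1 < A.card by omega)
  exact card_pos.2 ⟨c x y, mem_pal.2 ⟨x, hx, y, hy, hxy, rfl⟩⟩

/-- **The recursion.** -/
theorem recursion (c : V → V → Fin k) (hc : ∀ x y, c x y = c y x) (hk : 1 ≤ k) (N R D α Θ : ℕ)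
    (hR : ∀ W : Finset V, W.card ≤ N → ∀ i, ∀ A ⊆ W,
      (∀ x ∈ A, ∀ y ∈ A, x ≠ y → W.card < 16 * k * k * (dif (ci c i) W x y).card) → A.card ≤ R)
    (hR1 : 1 ≤ R) (hD : 2 ≤ D) (ha : k * R ≤ D ^ α) (hb : 4 * k * (D - 1) ^ α ≤ D ^ α)
    (hΘ1 : 8 * k * k ≤ Θ) (hΘ2 : 2 * (k * R) ≤ Θ) :
    ∀ m : ℕ, 1 ≤ m → ∀ W : Finset V, W.card ≤ N → (pal c W).card ≤ m → Θ * m ^ α ≤ W.card →
      ∃ S ⊆ W, S.card = 4 ∧ (S.offDiag.image (fun e => c e.1 e.2)).card ≤ 2 := by
  intro m
  induction m using Nat.strong_induction_on with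
  | _ m ih =>
    intro hm W hWN hpal hW
    have hkk : k ≤ k * k := Nat.le_mul_of_pos_left k hk
    have hkR : 1 ≤ k * R := Nat.mul_pos hk hR1
    have h8 : 8 * k * k = 8 * (k * k) := by ring
    have hΘ8 : 8 ≤ Θ := by omega
    have hmα : 1 ≤ m ^ α := Nat.one_le_pow _ _ hm
    have hΘW : Θ ≤ W.card := by
      calc Θ = Θ * 1 := (mul_one _).symm
        _ ≤ Θ * m ^ α := Nat.mul_le_mul_left _ hmα
        _ ≤ W.card := hW
    rcases Nat.lt_or_ge m 3 with hm2 | hm3
    · obtain ⟨S, hS, hSc⟩ := exists_subset_card_eq (show 4 ≤ W.card by omega)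
      refine ⟨S, hS, hSc, ?_⟩
      have := card_le_card (pal_mono (c := c) hS)
      unfold pal at this hpal
      omega
    · rcases vstep c hc W hk R (hR W hWN) (by omega) with h | ⟨A, hA, B, hB, hAc, hBc, hdis⟩
      · exact h
      · have hsum : (pal c A).card + (pal c B).card ≤ m := by
          rw [← card_union_of_disjoint hdis]
          exact (card_le_card (union_subset (pal_mono hA) (pal_mono hB))).trans hpal
        set a := (pal c A).card with hac
        set b := (pal c B).card with hbc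
        rcases Nat.lt_or_ge m (D * a) with hDa | hDa
        · -- go to B
          have hB2 : 2 ≤ B.card := by
            by_contra hcon
            have h1 : 4 * k * B.card ≤ 4 * k * 1 := Nat.mul_le_mul_left _ (by omega)
            omega
          have hb1 : 1 ≤ b := pal_pos hB2
          have hDb : D * b ≤ (D - 1) * m := by
            obtain ⟨e, rfl⟩ : ∃ e, D = e + 1 := ⟨D - 1, by omega⟩
            rw [Nat.add_sub_cancel]
            nlinarith
          have hbm : b < m := by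
            rcases Nat.eq_zero_or_pos a with h0 | h0
            · rw [h0] at hDa; omega
            · omega
          have h1 : Θ * b ^ α ≤ B.card := by
            have h2 : D ^ α * b ^ α ≤ (D - 1) ^ α * m ^ α := by
              rw [← mul_pow, ← mul_pow]
              exact Nat.pow_le_pow_left hDb α
            have h3 : D ^ α * (4 * k) * (Θ * b ^ α) ≤ D ^ α * (4 * k) * B.card := by
              calc D ^ α * (4 * k) * (Θ * b ^ α) = 4 * k * Θ * (D ^ α * b ^ α) := by ring
                _ ≤ 4 * k * Θ * ((D - 1) ^ α * m ^ α) := Nat.mul_le_mul_left _ h2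
                _ = (4 * k * (D - 1) ^ α) * (Θ * m ^ α) := by ring
                _ ≤ D ^ α * (Θ * m ^ α) := Nat.mul_le_mul_right _ hb
                _ ≤ D ^ α * (4 * k * B.card) := Nat.mul_le_mul_left _ (hW.trans hBc)
                _ = D ^ α * (4 * k) * B.card := by ring
            exact Nat.le_of_mul_le_mul_left h3 (by positivity)
          obtain ⟨S, hS, h4⟩ := ih b hbm hb1 B ((card_le_card hB).trans hWN) le_rfl h1
          exact ⟨S, hS.trans hB, h4⟩
        · -- go to A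
          have hA2 : 2 ≤ A.card := by
            by_contra hcon
            have h1 : k * R * A.card ≤ k * R * 1 := Nat.mul_le_mul_left _ (by omega)
            omega
          have ha1 : 1 ≤ a := pal_pos hA2
          have ham : a < m := by
            have : 2 * a ≤ D * a := Nat.mul_le_mul_right _ hD
            omega
          have h1 : Θ * a ^ α ≤ A.card := by
            have h2 : D ^ α * a ^ α ≤ m ^ α := by
              rw [← mul_pow]
              exact Nat.pow_le_pow_left hDa α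
            have h3 : k * R * (Θ * a ^ α) ≤ k * R * A.card := by
              calc k * R * (Θ * a ^ α) ≤ D ^ α * (Θ * a ^ α) := Nat.mul_le_mul_right _ ha
                _ = Θ * (D ^ α * a ^ α) := by ring
                _ ≤ Θ * m ^ α := Nat.mul_le_mul_left _ h2
                _ ≤ k * R * A.card := hW.trans hAc
            exact Nat.le_of_mul_le_mul_left h3 (by omega)
          obtain ⟨S, hS, h4⟩ := ih a ham ha1 A ((card_le_card hA).trans hWN) le_rfl h1
          exact ⟨S, hS.trans hA, h4⟩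

end

/-- the numerical choices -/
theorem vnum (k d lam dl u : ℕ) (hk : 2 ≤ k) (hd : 1 ≤ d) (hkl : k ≤ 2 ^ lam) (hdl : d ≤ 2 ^ lam)
    (hl : 1 ≤ lam) (hdd : d ≤ u * dl) (hud : u ≤ 2 * d) (hdl2 : dl ≤ 2 * lam) (hu : 1 ≤ u)
    (hDu : 2 ^ dl ≤ 4 * u) (hdl1 : 1 ≤ dl) :
    let L := 156 * d * lam ^ 2
    let E := 16 * k * k
    let R := E * L + (1 + 2 * 2 * (E * L)) ^ d
    let D := 2 ^ dl
    let α := 24 * u * lam
    let Θ := 8 * k * k * (k * R)
    k * R ≤ D ^ α ∧ 4 * k * (D - 1) ^ α ≤ D ^ α ∧ Θ * k ^ α ≤ 2 ^ (77 * u * lam ^ 2) ∧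
      (Θ * k ^ α) * (Θ * k ^ α) < 2 ^ L ∧ 8 * k * k ≤ Θ ∧ 2 * (k * R) ≤ Θ ∧ 1 ≤ R := by
  intro L E R D α Θ
  have hlam2 : lam ≤ 2 ^ lam := Nat.lt_two_pow_self.le
  have hL0 : 1 ≤ L := by
    have : 1 ≤ d * lam ^ 2 := Nat.mul_pos hd (by positivity)
    have h : L = 156 * (d * lam ^ 2) := by simp only [L]; ring
    omega
  have hkpos : 0 < k := by omega
  have hE0 : 1 ≤ E := by
    have : 0 < 16 * k * k := by positivity
    exact this
  have hEL : 1 ≤ E * L := Nat.mul_pos hE0 hL0
  have hELle : 5 * (E * L) ≤ 2 ^ (14 + 5 * lam) := by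
    have h1 : E ≤ 16 * 2 ^ lam * 2 ^ lam := by simp only [E]; gcongr
    have h2 : L ≤ 156 * 2 ^ lam * (2 ^ lam) ^ 2 := by simp only [L]; gcongr
    calc 5 * (E * L) ≤ 5 * ((16 * 2 ^ lam * 2 ^ lam) * (156 * 2 ^ lam * (2 ^ lam) ^ 2)) := by gcongr
      _ = 12480 * 2 ^ (5 * lam) := by
          rw [show 5 * lam = lam + lam + lam + lam + lam by ring, pow_add, pow_add, pow_add, pow_add]; ring
      _ ≤ 2 ^ 14 * 2 ^ (5 * lam) := by gcongr; norm_num
      _ = 2 ^ (14 + 5 * lam) := by rw [pow_add]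
  have hR1 : 1 ≤ R := by
    have : 1 ≤ (1 + 2 * 2 * (E * L)) ^ d := Nat.one_le_pow _ _ (by omega)
    simp only [R]; omega
  have hRle : R ≤ 2 ^ (1 + (14 + 5 * lam) * d) := by
    have h1 : E * L ≤ (5 * (E * L)) ^ d := by
      calc E * L ≤ 5 * (E * L) := by omega
        _ = (5 * (E * L)) ^ 1 := (pow_one _).symm
        _ ≤ (5 * (E * L)) ^ d := Nat.pow_le_pow_right (by omega) hd
    have h2 : (1 + 2 * 2 * (E * L)) ^ d ≤ (5 * (E * L)) ^ d := Nat.pow_le_pow_left (by omega) d
    calc R ≤ (5 * (E * L)) ^ d + (5 * (E * L)) ^ d := Nat.add_le_add h1 h2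
      _ = 2 * (5 * (E * L)) ^ d := by ring
      _ ≤ 2 * (2 ^ (14 + 5 * lam)) ^ d := by gcongr
      _ = 2 ^ (1 + (14 + 5 * lam) * d) := by rw [← pow_mul, pow_add, pow_one]
  have hkR : k * R ≤ 2 ^ (24 * d * lam) := by
    calc k * R ≤ 2 ^ lam * 2 ^ (1 + (14 + 5 * lam) * d) := Nat.mul_le_mul hkl hRle
      _ = 2 ^ (lam + (1 + (14 + 5 * lam) * d)) := by rw [← pow_add]
      _ ≤ 2 ^ (24 * d * lam) := by
          apply Nat.pow_le_pow_right (by norm_num)
          nlinarith
  have hDα : 2 ^ (24 * d * lam) ≤ D ^ α := by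
    simp only [D, α]
    rw [← pow_mul]
    apply Nat.pow_le_pow_right (by norm_num)
    calc 24 * d * lam ≤ 24 * (u * dl) * lam := by gcongr
      _ = dl * (24 * u * lam) := by ring
  have hD2 : 2 ≤ D := by
    calc 2 = 2 ^ 1 := (pow_one 2).symm
      _ ≤ 2 ^ dl := Nat.pow_le_pow_right (by norm_num) hdl1
  have hb : 4 * k * (D - 1) ^ α ≤ D ^ α := by
    have h1 := half_pow D (lam + 2) (by omega)
    have h2 : D * (lam + 2) ≤ α := by
      calc D * (lam + 2) ≤ (4 * u) * (3 * lam) := Nat.mul_le_mul hDu (by omega)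
        _ = 12 * u * lam := by ring
        _ ≤ 24 * u * lam := by gcongr; norm_num
    obtain ⟨e, he⟩ := Nat.exists_eq_add_of_le h2
    rw [he, pow_add, pow_add]
    have h3 : 4 * k ≤ 2 ^ (lam + 2) := by
      rw [pow_add]; omega
    calc 4 * k * ((D - 1) ^ (D * (lam + 2)) * (D - 1) ^ e)
        = (4 * k * (D - 1) ^ (D * (lam + 2))) * (D - 1) ^ e := by ring
      _ ≤ (2 ^ (lam + 2) * (D - 1) ^ (D * (lam + 2))) * D ^ e := by
          gcongr
          omega
      _ ≤ D ^ (D * (lam + 2)) * D ^ e := by gcongr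
  have hΘle : Θ * k ^ α ≤ 2 ^ (3 + 2 * lam + 24 * d * lam + lam * α) := by
    calc Θ * k ^ α = 8 * k * k * (k * R) * k ^ α := rfl
      _ ≤ 8 * 2 ^ lam * 2 ^ lam * 2 ^ (24 * d * lam) * (2 ^ lam) ^ α := by gcongr
      _ = 2 ^ (3 + 2 * lam + 24 * d * lam + lam * α) := by
          rw [← pow_mul, show 3 + 2 * lam + 24 * d * lam + lam * α = 3 + lam + lam + 24 * d * lam + lam * α by ring,
            pow_add, pow_add, pow_add, pow_add]
          norm_num
  have hexp1 : 3 + 2 * lam + 24 * d * lam + lam * α ≤ 77 * u * lam ^ 2 := by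
    have h1 : 24 * d * lam ≤ 48 * u * lam ^ 2 := by
      calc 24 * d * lam ≤ 24 * (u * (2 * lam)) * lam := by gcongr; exact hdd.trans (by gcongr)
        _ = 48 * u * lam ^ 2 := by ring
    have h2 : lam * α = 24 * u * lam ^ 2 := by simp only [α]; ring
    have h3 : 3 + 2 * lam ≤ 5 * (u * lam ^ 2) := by
      have : lam ≤ u * lam ^ 2 := by
        calc lam = 1 * (lam * 1) := by ring
          _ ≤ u * (lam * lam) := by gcongr
          _ = u * lam ^ 2 := by ring
      omega
    rw [h2]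
    linarith
  have hexp2 : 3 + 2 * lam + 24 * d * lam + lam * α ≤ 77 * d * lam ^ 2 := by
    have h2 : lam * α ≤ 48 * d * lam ^ 2 := by
      calc lam * α = 24 * u * lam ^ 2 := by simp only [α]; ring
        _ ≤ 24 * (2 * d) * lam ^ 2 := by gcongr
        _ = 48 * d * lam ^ 2 := by ring
    have h3 : lam ≤ d * lam ^ 2 := by
      calc lam = 1 * (lam * 1) := by ring
        _ ≤ d * (lam * lam) := by gcongr
        _ = d * lam ^ 2 := by ring
    have h4 : d * lam ≤ d * lam ^ 2 := by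
      calc d * lam = d * (lam * 1) := by ring
        _ ≤ d * (lam * lam) := by gcongr
        _ = d * lam ^ 2 := by ring
    have h5 : 24 * d * lam = 24 * (d * lam) := by ring
    have h6 : 48 * d * lam ^ 2 = 48 * (d * lam ^ 2) := by ring
    have h7 : 77 * d * lam ^ 2 = 77 * (d * lam ^ 2) := by ring
    omega
  refine ⟨hkR.trans hDα, hb, hΘle.trans (Nat.pow_le_pow_right (by norm_num) hexp1), ?_, ?_, ?_, hR1⟩
  · have h1 : Θ * k ^ α ≤ 2 ^ (77 * d * lam ^ 2) := hΘle.trans (Nat.pow_le_pow_right (by norm_num) hexp2)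
    calc (Θ * k ^ α) * (Θ * k ^ α) ≤ 2 ^ (77 * d * lam ^ 2) * 2 ^ (77 * d * lam ^ 2) := Nat.mul_le_mul h1 h1
      _ = 2 ^ (154 * (d * lam ^ 2)) := by rw [← pow_add]; congr 1; ring
      _ < 2 ^ L := by
          apply Nat.pow_lt_pow_right (by norm_num)
          simp only [L]
          have : 1 ≤ d * lam ^ 2 := Nat.mul_pos hd (by positivity)
          have h : 156 * d * lam ^ 2 = 156 * (d * lam ^ 2) := by ring
          omega
  · have h1 : 1 ≤ k * R := Nat.mul_pos (by omega) hR1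
    calc 8 * k * k = 8 * k * k * 1 := (mul_one _).symm
      _ ≤ 8 * k * k * (k * R) := Nat.mul_le_mul_left _ h1
  · have h1 : 2 ≤ 8 * k * k := by nlinarith
    exact Nat.mul_le_mul_right _ h1

end Pool.Agent.Helper87_ND
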