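import Mathlib
import Pool.Agent.Helper87_ND.VCRec
import Pool.Agent.Helper87_ND.VCDefs

/-! The upper bound for colour classes of bounded VC dimension. -/

namespace Pool.Agent.Helper87_ND

open Finset

/-- four vertices, inside `W` -/
theorem vc_four {V : Type*} [DecidableEq V] {k : ℕ} (c : V → V → Fin k) (hc : ∀ x y, c x y = c y x)
    (d lam dl u : ℕ) (hk : 2 ≤ k) (hd : 1 ≤ d) (hkl : k ≤ 2 ^ lam) (hdl : d ≤ 2 ^ lam)
    (hl : 1 ≤ lam) (hdd : d ≤ u * dl) (hud : u ≤ 2 * d) (hdl2 : dl ≤ 2 * lam) (hu : 1 ≤ u)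
    (hDu : 2 ^ dl ≤ 4 * u) (hdl1 : 1 ≤ dl) (W : Finset V)
    (hdim : ∀ W : Finset V, ∀ i, ∀ T, ShB c i W T → T.card ≤ d) (hW : 2 ^ (77 * u * lam ^ 2) ≤ W.card) :
    ∃ S ⊆ W, S.card = 4 ∧ (S.offDiag.image (fun e => c e.1 e.2)).card ≤ 2 := by
  have hnum := vnum k d lam dl u hk hd hkl hdl hl hdd hud hdl2 hu hDu hdl1
  simp only at hnum
  set L := 156 * d * lam ^ 2 with hL
  set E := 16 * k * k with hE
  set R := E * L + (1 + 2 * 2 * (E * L)) ^ d with hR
  set α := 24 * u * lam with hα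
  set Θ := 8 * k * k * (k * R) with hΘ
  obtain ⟨h1, h2, h3, h4, h5, h6, h7⟩ := hnum
  obtain ⟨W0, hW0, hW0c⟩ := exists_subset_card_eq (show Θ * k ^ α ≤ W.card from h3.trans hW)
  have hD : 2 ≤ 2 ^ dl := by
    calc 2 = 2 ^ 1 := (pow_one 2).symm
      _ ≤ 2 ^ dl := Nat.pow_le_pow_right (by norm_num) hdl1
  have hE2 : 2 ≤ E := by
    have : 1 ≤ k * k := Nat.mul_pos (by omega) (by omega)
    have h : E = 16 * (k * k) := by rw [hE]; ring
    omega
  obtain ⟨S, hS, h8⟩ := recursion (fun x y : V => c x y) hc (by omega) (Θ * k ^ α) R (2 ^ dl) α Θ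
    (by
      intro W' hW' i A hA hfar
      have hA' : A.card ≤ Θ * k ^ α := (card_le_card hA).trans hW'
      have h9 := far_card (ci c i) W' A d E L hE2 hA (fun T hT => hdim W' i T (shB_of_sh hT))
        (lt_of_le_of_lt (Nat.mul_le_mul hA' hA') h4) hfar
      exact h9) h7 hD h1 h2 h5 h6 k (by omega) W0 (by omega) (by
      have := card_le_univ (pal c W0)
      rwa [Fintype.card_fin] at this) (by omega)
  exact ⟨S, hS.trans hW0, h8⟩

/-- **The upper bound**, with integer parameters. -/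
theorem vc_upper (d lam dl u p k n : ℕ) (hk : 2 ≤ k) (hp : 4 ≤ p) (hd : 1 ≤ d) (hkl : k ≤ 2 ^ lam)
    (hdl : d ≤ 2 ^ lam) (hl : 1 ≤ lam) (hdd : d ≤ u * dl) (hud : u ≤ 2 * d) (hdl2 : dl ≤ 2 * lam)
    (hu : 1 ≤ u) (hDu : 2 ^ dl ≤ 4 * u) (hdl1 : 1 ≤ dl)
    (hn : 2 ^ (78 * u * lam ^ 2) * k ^ (p - 4) ≤ n) : ForcesVC d p k n := by
  intro c hc hdim
  have hdim' : ∀ W : Finset (Fin n), ∀ i, ∀ T, ShB c i W T → T.card ≤ d := by
    intro W i T hT
    apply hdim i T
    intro U hU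
    obtain ⟨x, _, h⟩ := hT.2 U hU
    exact ⟨x, h⟩
  have hN : 2 ^ (77 * u * lam ^ 2) + 1 ≤ 2 ^ (78 * u * lam ^ 2) := by
    have h1 : 1 ≤ u * lam ^ 2 := Nat.mul_pos hu (by positivity)
    have h2 : 77 * u * lam ^ 2 + 1 ≤ 78 * u * lam ^ 2 := by
      have e1 : 77 * u * lam ^ 2 = 77 * (u * lam ^ 2) := by ring
      have e2 : 78 * u * lam ^ 2 = 78 * (u * lam ^ 2) := by ring
      omega
    calc 2 ^ (77 * u * lam ^ 2) + 1 ≤ 2 ^ (77 * u * lam ^ 2) + 2 ^ (77 * u * lam ^ 2) := by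
          have := Nat.one_le_two_pow (n := 77 * u * lam ^ 2)
          omega
      _ = 2 ^ (77 * u * lam ^ 2 + 1) := by rw [pow_succ]; ring
      _ ≤ 2 ^ (78 * u * lam ^ 2) := Nat.pow_le_pow_right (by norm_num) h2
  obtain ⟨S, _, hSc, hS⟩ := extend c hc hk (fun _ => True) (fun _ _ _ _ => trivial) (2 ^ (77 * u * lam ^ 2)) (by
      intro W _ hWN
      exact vc_four c hc d lam dl u hk hd hkl hdl hl hdd hud hdl2 hu hDu hdl1 W hdim' hWN) (p - 4) univ
    trivial (by
      rw [card_univ, Fintype.card_fin]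
      calc k ^ (p - 4) * (2 ^ (77 * u * lam ^ 2) + 1) ≤ k ^ (p - 4) * 2 ^ (78 * u * lam ^ 2) :=
            Nat.mul_le_mul_left _ hN
        _ = 2 ^ (78 * u * lam ^ 2) * k ^ (p - 4) := mul_comm _ _
        _ ≤ n := hn
        _ ≤ n + 1 := Nat.le_succ _)
  exact ⟨S, by omega, hS.trans (by omega)⟩

/-- **The upper bound.** -/
theorem vc_upper_real : ∃ C : ℝ, 0 < C ∧ ∀ d p k n : ℕ, 1 ≤ d → 2 ≤ k → 4 ≤ p →
    Real.exp (C * (d / Real.log (d + 1)) * (Real.log (max k d : ℕ)) ^ 2) * (k : ℝ) ^ (p - 4) ≤ n →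
    ForcesVC d p k n := by
  refine ⟨10000, by norm_num, ?_⟩
  intro d p k n hd hk hp hn
  set K := max k d with hK
  have hkK : k ≤ K := le_max_left _ _
  have hdK : d ≤ K := le_max_right _ _
  have hK2 : 2 ≤ K := hk.trans hkK
  set lam := Nat.log 2 K + 1 with hlam
  have hKl : K < 2 ^ lam := Nat.lt_pow_succ_log_self (by norm_num) K
  set dl := Nat.log 4 d + 1 with hdl
  have hd4 : d < 4 ^ dl := Nat.lt_pow_succ_log_self (by norm_num) d
  have hd4' : 4 ^ (dl - 1) ≤ d := by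
    rw [hdl, Nat.add_sub_cancel]
    exact Nat.pow_log_le_self 4 (by omega)
  set u := d / dl + 1 with hu
  have hdl1 : 1 ≤ dl := by omega
  have hdd : d ≤ u * dl := by
    have h1 := Nat.div_add_mod d dl
    have h2 := Nat.mod_lt d (show 0 < dl by omega)
    calc d = dl * (d / dl) + d % dl := h1.symm
      _ ≤ dl * (d / dl) + dl := by omega
      _ = u * dl := by rw [hu]; ring
  have hdld : dl ≤ d := by
    have h1 : dl - 1 < 4 ^ (dl - 1) := Nat.lt_pow_self (by norm_num)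
    omega
  have hud : u ≤ 2 * d := by
    have h1 : d / dl ≤ d := Nat.div_le_self _ _
    omega
  have hdl2 : dl ≤ 2 * lam := by
    have h1 : 4 ^ (dl - 1) < 2 ^ lam := lt_of_le_of_lt (hd4'.trans hdK) hKl
    have h2 : (4 : ℕ) ^ (dl - 1) = 2 ^ (2 * (dl - 1)) := by rw [pow_mul]; norm_num
    rw [h2] at h1
    have h3 := (Nat.pow_lt_pow_iff_right (by norm_num : 1 < 2)).1 h1
    omega
  have hDu : 2 ^ dl ≤ 4 * u := by
    have h1 : 2 ^ dl * dl ≤ 4 * u * dl := by
      calc 2 ^ dl * dl ≤ 2 ^ dl * 2 ^ dl := Nat.mul_le_mul_left _ Nat.lt_two_pow_self.le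
        _ = 4 ^ dl := by rw [← mul_pow]; norm_num
        _ = 4 * 4 ^ (dl - 1) := by
            conv_lhs => rw [show dl = (dl - 1) + 1 by omega]
            rw [pow_succ]; ring
        _ ≤ 4 * d := Nat.mul_le_mul_left _ hd4'
        _ ≤ 4 * (u * dl) := Nat.mul_le_mul_left _ hdd
        _ = 4 * u * dl := by ring
    exact Nat.le_of_mul_le_mul_right h1 (by omega)
  have hu1 : 1 ≤ u := by rw [hu]; exact Nat.le_add_left _ _
  have hl1 : 1 ≤ lam := by rw [hlam]; exact Nat.le_add_left _ _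
  apply vc_upper d lam dl u p k n hk hp hd (hkK.trans hKl.le) (hdK.trans hKl.le) hl1 hdd hud hdl2
    hu1 hDu hdl1
  -- the real estimate
  have hl2 : 0 < Real.log 2 := Real.log_pos (by norm_num)
  have hl2' : Real.log 2 < 1 := by
    have := Real.log_two_lt_d9
    linarith
  have hl2'' : (1 : ℝ) / 2 < Real.log 2 := by
    have := Real.log_two_gt_d9
    linarith
  have hKR : (2 : ℝ) ≤ K := by exact_mod_cast hK2
  have hdR : (1 : ℝ) ≤ d := by exact_mod_cast hd
  have hlogK : Real.log 2 ≤ Real.log K := Real.log_le_log (by norm_num) hKR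
  have hlamR : (lam : ℝ) ≤ 4 * Real.log K := by
    have h1 : ((2 : ℕ) ^ (Nat.log 2 K) : ℕ) ≤ K := Nat.pow_log_le_self 2 (by omega)
    have h2 : (Nat.log 2 K : ℝ) * Real.log 2 ≤ Real.log K := by
      rw [← Real.log_pow]
      apply Real.log_le_log (by positivity)
      exact_mod_cast h1
    rw [hlam]
    push_cast
    nlinarith
  have huR : (u : ℝ) ≤ 4 * (d / Real.log (d + 1)) := by
    have hlogd : 0 < Real.log (d + 1) := Real.log_pos (by linarith)
    have h1 : Real.log (d + 1) ≤ dl * Real.log 4 := by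
      rw [← Real.log_pow]
      apply Real.log_le_log (by linarith)
      exact_mod_cast hd4
    have h2 : Real.log 4 ≤ 2 := by
      have : Real.log 4 = 2 * Real.log 2 := by
        rw [show (4 : ℝ) = 2 ^ 2 by norm_num, Real.log_pow]; norm_num
      rw [this]; linarith
    have hdlR : (0 : ℝ) < dl := by exact_mod_cast hdl1
    have h3 : Real.log (d + 1) ≤ 2 * dl := by nlinarith
    have h4 : (u : ℝ) * dl ≤ 2 * d := by
      have h5 : u * dl ≤ 2 * d := by
        have h6 := Nat.div_mul_le_self d dl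
        calc u * dl = d / dl * dl + dl := by rw [hu]; ring
          _ ≤ d + d := Nat.add_le_add h6 hdld
          _ = 2 * d := by ring
      exact_mod_cast h5
    rw [← mul_div_assoc, le_div_iff₀ hlogd]
    have hu0 : (0 : ℝ) ≤ u := Nat.cast_nonneg _
    calc (u : ℝ) * Real.log (d + 1) ≤ u * (2 * dl) := by gcongr
      _ = 2 * (u * dl) := by ring
      _ ≤ 2 * (2 * d) := by gcongr
      _ = 4 * d := by ring
  have hfin : ((2 ^ (78 * u * lam ^ 2) * k ^ (p - 4) : ℕ) : ℝ) ≤ n := by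
    refine le_trans ?_ hn
    push_cast
    apply mul_le_mul_of_nonneg_right _ (by positivity)
    have h1 : (2 : ℝ) ^ (78 * u * lam ^ 2) = Real.exp (((78 * u * lam ^ 2 : ℕ) : ℝ) * Real.log 2) := by
      rw [← Real.log_pow, Real.exp_log (by positivity)]
    rw [h1]
    apply Real.exp_le_exp.2
    push_cast
    have hq : 0 ≤ (d : ℝ) / Real.log (d + 1) := by
      have hlogd : 0 < Real.log (d + 1) := Real.log_pos (by linarith)
      positivity
    have hlK0 : 0 ≤ Real.log K := by linarith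
    calc (78 * (u : ℝ) * (lam : ℝ) ^ 2) * Real.log 2
        ≤ (78 * (4 * (d / Real.log (d + 1))) * (4 * Real.log K) ^ 2) * 1 := by gcongr
      _ = 4992 * (d / Real.log (d + 1)) * (Real.log K) ^ 2 := by ring
      _ ≤ 10000 * (d / Real.log (d + 1)) * (Real.log K) ^ 2 := by gcongr; norm_num
  exact_mod_cast hfin

end Pool.Agent.Helper87_ND
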